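import Pool.Agent.Lib.MP_ed311f_ag.Pieces

/-!
# The residue of the twisted zeta function at `s = -1`
-/

open Topology

namespace HoloConj

theorem a1_key {J : Type} [Fintype J] [DecidableEq J] (N ν : J → ℕ) (c : Finset J → ℤ) (r : J)
    (S : Finset (Finset J)) (hN : N r = 4) (hν : ν r = 4)
    (hS : ∀ I ∈ S, ∀ j ∈ I, j ≠ r → N j ≠ ν j) (p : Polynomial ℚ)
    (h : algebraMap (Polynomial ℚ) (RatFunc ℚ) p = ∑ I ∈ S, ((c I : ℤ) : RatFunc ℚ) *
      ∏ i ∈ I, ((N i : RatFunc ℚ) * RatFunc.X + (ν i : RatFunc ℚ))⁻¹) :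
    ∑ I ∈ S, (if r ∈ I then (c I : ℚ) * ∏ j ∈ I.erase r, ((ν j : ℚ) - N j)⁻¹ else 0) = 0 := by
  classical
  set T : Finset J := Finset.univ.filter (fun j => j ≠ r ∧ N j ≠ ν j) with hT
  set b : J → Polynomial ℚ := fun j => Polynomial.C (N j : ℚ) * Polynomial.X +
    Polynomial.C (ν j : ℚ) with hb
  have ha : ∀ j, (N j : RatFunc ℚ) * RatFunc.X + (ν j : RatFunc ℚ) =
      algebraMap (Polynomial ℚ) (RatFunc ℚ) (b j) := by
    intro j
    simp [hb, RatFunc.algebraMap_X]
  have hinj : Function.Injective (algebraMap (Polynomial ℚ) (RatFunc ℚ)) :=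
    RatFunc.algebraMap_injective ℚ
  have hbe : ∀ j, (b j).eval (-1) = (ν j : ℚ) - N j := by
    intro j
    simp [hb]
    ring
  have hbT : ∀ j ∈ T, b j ≠ 0 := by
    intro j hj h0
    have h1 := hbe j
    rw [h0, Polynomial.eval_zero] at h1
    have h2 : (N j : ℚ) = ν j := by linarith
    exact ((Finset.mem_filter.1 hj).2.2) (by exact_mod_cast h2)
  have hbr : b r ≠ 0 := by
    intro h0
    have h1 : (b r).eval 0 = 4 := by simp [hb, hν]
    rw [h0, Polynomial.eval_zero] at h1
    norm_num at h1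
  have hrT : r ∉ T := by simp [hT]
  have hsub : ∀ I ∈ S, I.erase r ⊆ T := by
    intro I hI j hj
    rw [Finset.mem_erase] at hj
    simp only [hT, Finset.mem_filter, Finset.mem_univ, true_and]
    exact ⟨hj.1, hS I hI j hj.2 hj.1⟩
  have hterm : ∀ I ∈ S, (∏ i ∈ I, ((N i : RatFunc ℚ) * RatFunc.X + (ν i : RatFunc ℚ))⁻¹) *
      (algebraMap (Polynomial ℚ) (RatFunc ℚ) (b r * ∏ j ∈ T, b j)) =
      algebraMap (Polynomial ℚ) (RatFunc ℚ) ((if r ∈ I then 1 else b r) *
        ∏ j ∈ T \ I.erase r, b j) := by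
    intro I hI
    have hne : ∀ j ∈ I.erase r, algebraMap (Polynomial ℚ) (RatFunc ℚ) (b j) ≠ 0 := by
      intro j hj h0
      exact hbT j (hsub I hI hj) (hinj (by rw [h0, map_zero]))
    have hner : algebraMap (Polynomial ℚ) (RatFunc ℚ) (b r) ≠ 0 := by
      intro h0
      exact hbr (hinj (by rw [h0, map_zero]))
    have e1 : ∏ j ∈ T, b j = (∏ j ∈ T \ I.erase r, b j) * ∏ j ∈ I.erase r, b j :=
      (Finset.prod_sdiff (hsub I hI)).symm
    have e2 : (∏ i ∈ I.erase r, ((N i : RatFunc ℚ) * RatFunc.X + (ν i : RatFunc ℚ))⁻¹) *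
        (algebraMap (Polynomial ℚ) (RatFunc ℚ) (∏ j ∈ I.erase r, b j)) = 1 := by
      rw [map_prod, ← Finset.prod_mul_distrib]
      apply Finset.prod_eq_one
      intro j hj
      rw [ha j]
      exact inv_mul_cancel₀ (hne j hj)
    by_cases hr : r ∈ I
    · rw [← Finset.mul_prod_erase I _ hr, if_pos hr, one_mul, e1, ha r, map_mul, map_mul]
      calc _ = ((algebraMap (Polynomial ℚ) (RatFunc ℚ) (b r))⁻¹ *
            (algebraMap (Polynomial ℚ) (RatFunc ℚ) (b r))) *
            ((∏ i ∈ I.erase r, ((N i : RatFunc ℚ) * RatFunc.X + (ν i : RatFunc ℚ))⁻¹) *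
            (algebraMap (Polynomial ℚ) (RatFunc ℚ) (∏ j ∈ I.erase r, b j))) *
            algebraMap (Polynomial ℚ) (RatFunc ℚ) (∏ j ∈ T \ I.erase r, b j) := by ring
        _ = _ := by rw [inv_mul_cancel₀ hner, e2, one_mul, one_mul]
    · rw [if_neg hr]
      have e3 : I.erase r = I := Finset.erase_eq_of_notMem hr
      rw [e3] at e1 e2 ⊢
      rw [e1, map_mul, map_mul, map_mul]
      calc _ = ((∏ i ∈ I, ((N i : RatFunc ℚ) * RatFunc.X + (ν i : RatFunc ℚ))⁻¹) *
            (algebraMap (Polynomial ℚ) (RatFunc ℚ) (∏ j ∈ I, b j))) *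
            (algebraMap (Polynomial ℚ) (RatFunc ℚ) (b r) *
            algebraMap (Polynomial ℚ) (RatFunc ℚ) (∏ j ∈ T \ I, b j)) := by ring
        _ = _ := by rw [e2, one_mul]
  have hpoly : p * (b r * ∏ j ∈ T, b j) = ∑ I ∈ S, Polynomial.C (c I : ℚ) *
      ((if r ∈ I then 1 else b r) * ∏ j ∈ T \ I.erase r, b j) := by
    apply hinj
    rw [map_mul, h, Finset.sum_mul, map_sum]
    refine Finset.sum_congr rfl fun I hI => ?_
    rw [mul_assoc, hterm I hI, map_mul _ (Polynomial.C _)]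
    congr 1
    simp
  have hev := congrArg (Polynomial.eval (-1)) hpoly
  have hbr1 : (b r).eval (-1) = 0 := by rw [hbe, hN, hν]; simp
  rw [Polynomial.eval_mul, Polynomial.eval_mul, hbr1, zero_mul, mul_zero,
    Polynomial.eval_finsetSum] at hev
  have hD : (∏ j ∈ T, ((ν j : ℚ) - N j)) ≠ 0 := by
    rw [Finset.prod_ne_zero_iff]
    intro j hj h0
    exact ((Finset.mem_filter.1 hj).2.2) (by
      have : (N j : ℚ) = ν j := by linarith
      exact_mod_cast this)
  have hfin : (∏ j ∈ T, ((ν j : ℚ) - N j)) *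
      ∑ I ∈ S, (if r ∈ I then (c I : ℚ) * ∏ j ∈ I.erase r, ((ν j : ℚ) - N j)⁻¹ else 0) = 0 := by
    refine Eq.trans ?_ hev.symm
    rw [Finset.mul_sum]
    refine Finset.sum_congr rfl fun I hI => ?_
    rw [Polynomial.eval_mul, Polynomial.eval_C, Polynomial.eval_mul, Polynomial.eval_prod]
    by_cases hr : r ∈ I
    · rw [if_pos hr, if_pos hr, Polynomial.eval_one, one_mul]
      rw [← Finset.prod_sdiff (hsub I hI)]
      have e4 : (∏ j ∈ I.erase r, ((ν j : ℚ) - N j)) * ∏ j ∈ I.erase r, ((ν j : ℚ) - N j)⁻¹ = 1 := by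
        rw [← Finset.prod_mul_distrib]
        apply Finset.prod_eq_one
        intro j hj
        apply mul_inv_cancel₀
        intro h0
        exact ((Finset.mem_filter.1 (hsub I hI hj)).2.2) (by
          have : (N j : ℚ) = ν j := by linarith
          exact_mod_cast this)
      calc _ = (c I : ℚ) * (∏ j ∈ T \ I.erase r, ((ν j : ℚ) - N j)) *
            ((∏ j ∈ I.erase r, ((ν j : ℚ) - N j)) *
            ∏ j ∈ I.erase r, ((ν j : ℚ) - N j)⁻¹) := by ring
        _ = _ := by
          rw [e4, mul_one]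
          congr 1
          exact Finset.prod_congr rfl fun j _ => (hbe j).symm
    · rw [if_neg hr, if_neg hr, hbr1, zero_mul, mul_zero, mul_zero]
  exact (mul_eq_zero.1 hfin).resolve_left hD

theorem a1 : A1Statement := by
  classical
  rintro ⟨hs1, hs2, hs3, hs4, hs5, hhom, hemp⟩
    ⟨R, r, rz, m, q, n1, n2, n3, n4, n5, n6, ⟨hr1, hr2⟩, ⟨hrz1, hrz2⟩, ⟨hm1, hm2⟩, ⟨hq1, hq2⟩,
      hne, ⟨e1⟩, ⟨e2⟩, ⟨e3⟩, ⟨e4⟩, ⟨e5⟩, hrest⟩
  refine ⟨R, ?_⟩
  rintro ⟨p, hp⟩
  have hdvd : ∀ I ∈ (Finset.univ : Finset (Finset R.J)).filter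
      (fun I => I.Nonempty ∧ 4 ∣ I.gcd R.N), ∀ i ∈ I, 4 ∣ R.N i := by
    intro I hI
    exact Finset.dvd_gcd_iff.1 (Finset.mem_filter.1 hI).2.2
  have key := a1_key R.N R.ν (fun I => topEuler (R.stratum I)) r
    ((Finset.univ : Finset (Finset R.J)).filter (fun I => I.Nonempty ∧ 4 ∣ I.gcd R.N)) hr1 hr2
    (fun I hI j hj hjr => hne j (hdvd I hI j hj) hjr) p hp
  have t1 : topEuler (R.stratum {r}) = 0 := (hhom _ _ e1).trans hs1
  have t2 : topEuler (R.stratum {r, rz}) = 0 := (hhom _ _ e2).trans hs2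
  have t3 : topEuler (R.stratum {r, m}) = -1 := (hhom _ _ e3).trans hs3
  have t4 : topEuler (R.stratum {r, q}) = 1 := (hhom _ _ e4).trans hs4
  have t5 : topEuler (R.stratum {r, m, q}) = -1 := (hhom _ _ e5).trans hs5
  have hmemm : ({r, m} : Finset R.J) ∈ (Finset.univ : Finset (Finset R.J)).filter
      (fun I => I.Nonempty ∧ 4 ∣ I.gcd R.N) := by
    refine Finset.mem_filter.2 ⟨Finset.mem_univ _, Finset.insert_nonempty _ _, ?_⟩
    refine Finset.dvd_gcd_iff.2 fun i hi => ?_
    rw [Finset.mem_insert, Finset.mem_singleton] at hi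
    rcases hi with rfl | rfl
    · rw [hr1]
    · rw [hm1]
  have hmemq : ({r, q} : Finset R.J) ∈ (Finset.univ : Finset (Finset R.J)).filter
      (fun I => I.Nonempty ∧ 4 ∣ I.gcd R.N) := by
    refine Finset.mem_filter.2 ⟨Finset.mem_univ _, Finset.insert_nonempty _ _, ?_⟩
    refine Finset.dvd_gcd_iff.2 fun i hi => ?_
    rw [Finset.mem_insert, Finset.mem_singleton] at hi
    rcases hi with rfl | rfl
    · rw [hr1]
    · rw [hq1]; norm_num
  have hmemmq : ({r, m, q} : Finset R.J) ∈ (Finset.univ : Finset (Finset R.J)).filter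
      (fun I => I.Nonempty ∧ 4 ∣ I.gcd R.N) := by
    refine Finset.mem_filter.2 ⟨Finset.mem_univ _, Finset.insert_nonempty _ _, ?_⟩
    refine Finset.dvd_gcd_iff.2 fun i hi => ?_
    rw [Finset.mem_insert, Finset.mem_insert, Finset.mem_singleton] at hi
    rcases hi with rfl | rfl | rfl
    · rw [hr1]
    · rw [hm1]
    · rw [hq1]; norm_num
  have d1 : ({r, m} : Finset R.J) ≠ {r, q} := by
    intro h
    have : m ∈ ({r, q} : Finset R.J) := h ▸ (by simp)
    simp only [Finset.mem_insert, Finset.mem_singleton] at this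
    rcases this with h | h
    · exact n2 h.symm
    · exact n6 h
  have d2 : ({r, m} : Finset R.J) ≠ {r, m, q} := by
    intro h
    have : q ∈ ({r, m} : Finset R.J) := h ▸ (by simp)
    simp only [Finset.mem_insert, Finset.mem_singleton] at this
    rcases this with h | h
    · exact n3 h.symm
    · exact n6 h.symm
  have d3 : ({r, q} : Finset R.J) ≠ {r, m, q} := by
    intro h
    have : m ∈ ({r, q} : Finset R.J) := h ▸ (by simp)
    simp only [Finset.mem_insert, Finset.mem_singleton] at this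
    rcases this with h | h
    · exact n2 h.symm
    · exact n6 h
  have hsub : ({({r, m} : Finset R.J), {r, q}, {r, m, q}} : Finset (Finset R.J)) ⊆
      (Finset.univ : Finset (Finset R.J)).filter (fun I => I.Nonempty ∧ 4 ∣ I.gcd R.N) := by
    intro I hI
    rw [Finset.mem_insert, Finset.mem_insert, Finset.mem_singleton] at hI
    rcases hI with rfl | rfl | rfl
    · exact hmemm
    · exact hmemq
    · exact hmemmq
  rw [← Finset.sum_subset hsub] at key
  · rw [Finset.sum_insert (by simp [d1, d2]), Finset.sum_insert (by simp [d3]),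
      Finset.sum_singleton, if_pos (by simp), if_pos (by simp), if_pos (by simp)] at key
    have k1 : ({r, m} : Finset R.J).erase r = {m} := by
      rw [Finset.erase_insert (by simp [n2])]
    have k2 : ({r, q} : Finset R.J).erase r = {q} := by
      rw [Finset.erase_insert (by simp [n3])]
    have k3 : ({r, m, q} : Finset R.J).erase r = {m, q} := by
      rw [Finset.erase_insert (by simp [n2, n3])]
    rw [k1, k2, k3, Finset.prod_singleton, Finset.prod_singleton, Finset.prod_pair n6] at key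
    simp only [t3, t4, t5, hm1, hm2, hq1, hq2] at key
    norm_num at key
  · intro I hI hI'
    by_cases hr : r ∈ I
    · rw [if_pos hr]
      have hz : topEuler (R.stratum I) = 0 := by
        by_cases g1 : I = {r}
        · rw [g1, t1]
        by_cases g2 : I = {r, rz}
        · rw [g2, t2]
        refine hemp _ (hrest I hr (hdvd I hI) g1 g2 ?_ ?_ ?_)
        · rintro rfl; exact hI' (by simp)
        · rintro rfl; exact hI' (by simp)
        · rintro rfl; exact hI' (by simp)
      rw [hz]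
      simp
    · rw [if_neg hr]

end HoloConj
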