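import Mathlib

/-!
# Definitions for the holomorphy conjecture (twisted topological zeta functions)

* `Hq`, `Hmap` : singular homology with coefficients in a field (Mathlib's singular homology).
* `topEuler` : topological Euler characteristic.
* `Tube`, `deck`, `IsMonodromyEigenvalue` : eigenvalues of the monodromy on the cohomology of the
  Milnor fibre (stalk of the nearby cycles).
* `ChartVariety`, `EmbeddedResolution`, `EmbeddedResolution.twistedZeta`.
-/

open CategoryTheory AlgebraicTopology Topology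

namespace HoloConj

/-! ### Singular homology and the topological Euler characteristic -/

section Homology

variable (K : Type) [Field K]

/-- The `q`-th singular homology of `Z` with coefficients in the field `K`
(Mathlib's singular homology functor). -/
noncomputable abbrev Hq (q : ℕ) (Z : Type) [TopologicalSpace Z] : ModuleCat.{0} K :=
  ((singularHomologyFunctor (ModuleCat.{0} K) q).obj (ModuleCat.of K K)).obj (TopCat.of Z)

/-- The map induced on singular homology by a continuous map. -/
noncomputable def Hmap (q : ℕ) {Z Z' : Type} [TopologicalSpace Z] [TopologicalSpace Z']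
    (g : C(Z, Z')) : Hq K q Z →ₗ[K] Hq K q Z' :=
  (((singularHomologyFunctor (ModuleCat.{0} K) q).obj (ModuleCat.of K K)).map
    (TopCat.ofHom g)).hom

end Homology

/-- The topological Euler characteristic `∑ (-1)^q dim H_q(Z; ℚ)`. -/
noncomputable def topEuler (Z : Type) [TopologicalSpace Z] : ℤ :=
  ∑ᶠ q : ℕ, (-1) ^ q * (Module.finrank ℚ (Hq ℚ q Z) : ℤ)

/-! ### Monodromy on the cohomology of the Milnor fibre -/

section Monodromy

variable {X : Type} [TopologicalSpace X]

/-- For `f : X → ℂ` and `W ⊆ X`, the pull-back of `f : W ∖ f⁻¹(0) → ℂˣ` along the universal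
covering `exp : ℂ → ℂˣ`. -/
def Tube (f : X → ℂ) (W : Set X) : Type :=
  {p : X × ℂ // p.1 ∈ W ∧ f p.1 = Complex.exp p.2}

instance (f : X → ℂ) (W : Set X) : TopologicalSpace (Tube f W) :=
  inferInstanceAs (TopologicalSpace {p : X × ℂ // p.1 ∈ W ∧ f p.1 = Complex.exp p.2})

/-- The deck transformation `(p, u) ↦ (p, u + 2πi)` of `Tube f W`: the monodromy. -/
noncomputable def deck (f : X → ℂ) (W : Set X) : C(Tube f W, Tube f W) where
  toFun p := ⟨(p.1.1, p.1.2 + 2 * Real.pi * Complex.I), p.2.1, by
    rw [Complex.exp_add, Complex.exp_two_pi_mul_I, mul_one]; exact p.2.2⟩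
  continuous_toFun := by
    refine Continuous.subtype_mk ?_ _
    exact (continuous_fst.comp continuous_subtype_val).prodMk
      ((continuous_snd.comp continuous_subtype_val).add continuous_const)

/-- The inclusion `Tube f W' → Tube f W` for `W' ⊆ W`. -/
def Tube.incl (f : X → ℂ) {W' W : Set X} (h : W' ⊆ W) : C(Tube f W', Tube f W) where
  toFun p := ⟨p.1, h p.2.1, p.2.2⟩
  continuous_toFun := Continuous.subtype_mk continuous_subtype_val _

/-- `μ` is an eigenvalue of the monodromy on `H^q(F_x; ℂ)`, where `F_x` is the Milnor fibre of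
`f` at `x`. Here `H^q(F_x; ℂ)` is the stalk at `x` of the nearby cycles, i.e. the direct limit of
`H^q(Tube f W; ℂ) = Hom(H_q(Tube f W; ℂ), ℂ)` over the neighbourhoods `W` of `x`, and the monodromy
is induced by the deck transformation. The eigenvector is represented by a class `ξ` on some
`Tube f W` whose restriction to `Tube f W'` is nonzero for every smaller neighbourhood `W'`, and
for which the restriction of `T^* ξ - μ ξ` to `Tube f W'` vanishes for some `W'`. -/
def IsMonodromyEigenvalue (f : X → ℂ) (x : X) (q : ℕ) (μ : ℂ) : Prop :=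
  ∃ W ∈ 𝓝 x, ∃ ξ : Hq ℂ q (Tube f W) →ₗ[ℂ] ℂ,
    (∀ W' ∈ 𝓝 x, ∀ h : W' ⊆ W, ξ ∘ₗ Hmap ℂ q (Tube.incl f h) ≠ 0) ∧
    (∃ W' ∈ 𝓝 x, ∃ h : W' ⊆ W,
      (ξ ∘ₗ Hmap ℂ q (deck f W) - μ • ξ) ∘ₗ Hmap ℂ q (Tube.incl f h) = 0)

end Monodromy

/-! ### Varieties glued from affine spaces, and embedded resolutions -/

/-- A nonsingular irreducible (separated) complex algebraic variety of dimension `d` which is
covered by finitely many Zariski open subsets isomorphic to affine space `𝔸^d`, described by its
set of complex points `Pt` with the complex topology. The charts are open embeddings for the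
complex topology; the overlap of two charts is a principal open subset `{g ≠ 0}` on which the
coordinate change is given by regular functions `P k / g`. -/
structure ChartVariety (d : ℕ) where
  /-- the complex points -/
  Pt : Type
  [top : TopologicalSpace Pt]
  /-- separatedness -/
  [t2 : T2Space Pt]
  /-- the index set of the charts -/
  ι : Type
  [finite : Finite ι]
  [nonempty : Nonempty ι]
  /-- the charts -/
  chart : ι → (Fin d → ℂ) → Pt
  isOpenEmbedding_chart : ∀ i, IsOpenEmbedding (chart i)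
  exists_chart : ∀ y, ∃ i u, chart i u = y
  /-- any two charts meet (irreducibility) -/
  overlap_nonempty : ∀ i j, ∃ u v, chart i u = chart j v
  /-- overlaps are principal open subsets, and coordinate changes are regular -/
  transition : ∀ i j, ∃ (g : MvPolynomial (Fin d) ℂ) (P : Fin d → MvPolynomial (Fin d) ℂ),
    (∀ u, chart i u ∈ Set.range (chart j) ↔ MvPolynomial.eval u g ≠ 0) ∧
    ∀ u v, chart i u = chart j v → ∀ k, v k * MvPolynomial.eval u g = MvPolynomial.eval u (P k)

attribute [instance] ChartVariety.top ChartVariety.t2 ChartVariety.finite ChartVariety.nonempty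

namespace ChartVariety

variable {d : ℕ} (Y : ChartVariety d)

/-- Zariski closed subsets of `Y`. -/
def IsZariskiClosed (A : Set Y.Pt) : Prop :=
  ∀ i, ∃ S : Set (MvPolynomial (Fin d) ℂ),
    ∀ u, Y.chart i u ∈ A ↔ ∀ p ∈ S, MvPolynomial.eval u p = 0

/-- Irreducible Zariski closed subsets of `Y`. -/
def IsIrred (A : Set Y.Pt) : Prop :=
  Y.IsZariskiClosed A ∧ A.Nonempty ∧
    ∀ B C : Set Y.Pt, Y.IsZariskiClosed B → Y.IsZariskiClosed C → A ⊆ B ∪ C → A ⊆ B ∨ A ⊆ C

end ChartVariety

/-- An embedded resolution `h : Y → 𝔸^d` of a polynomial `f` with its numerical data: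
`h` is a proper morphism from a nonsingular irreducible variety, it is an isomorphism over
`{f ≠ 0}`, the irreducible components `E j` of `{f ∘ h = 0}` have (simple) normal crossings,
`N j` is the multiplicity of `E j` in the divisor of `f ∘ h` and `ν j - 1` its multiplicity in the
divisor of `h^* (dx_1 ∧ ⋯ ∧ dx_d)`. -/
structure EmbeddedResolution {d : ℕ} (f : MvPolynomial (Fin d) ℂ) extends ChartVariety d where
  /-- the morphism `h : Y → 𝔸^d` -/
  h : Pt → Fin d → ℂ
  /-- `h` in the charts -/
  H : ι → Fin d → MvPolynomial (Fin d) ℂ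
  h_chart : ∀ i u k, h (chart i u) k = MvPolynomial.eval u (H i k)
  /-- `h` is proper -/
  h_proper : IsProperMap h
  /-- `h` is bijective over `{f ≠ 0}` ... -/
  h_bij : ∀ x, MvPolynomial.eval x f ≠ 0 → ∃! y, h y = x
  /-- ... and the inverse map is regular on `{f ≠ 0}`. -/
  h_inv : ∀ x, MvPolynomial.eval x f ≠ 0 → ∃ (i : ι) (g : MvPolynomial (Fin d) ℂ)
    (P : Fin d → MvPolynomial (Fin d) ℂ), MvPolynomial.eval x g ≠ 0 ∧
    ∀ x', MvPolynomial.eval x' f ≠ 0 → MvPolynomial.eval x' g ≠ 0 →
      h (chart i fun k => MvPolynomial.eval x' (P k) / MvPolynomial.eval x' g) = x'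
  /-- index set of the irreducible components of `{f ∘ h = 0}` -/
  J : Type
  [fintypeJ : Fintype J]
  [decEqJ : DecidableEq J]
  /-- the irreducible components of `{f ∘ h = 0}` -/
  E : J → Set Pt
  /-- multiplicities of `f ∘ h` -/
  N : J → ℕ
  /-- multiplicities of `h^* dx`, plus one -/
  ν : J → ℕ
  N_pos : ∀ j, 0 < N j
  ν_pos : ∀ j, 0 < ν j
  E_irred : ∀ j, toChartVariety.IsIrred (E j)
  E_injective : Function.Injective E
  iUnion_E : ∀ y, MvPolynomial.eval (h y) f = 0 ↔ ∃ j, y ∈ E j
  /-- Local normal crossings form: near every point `y` there are local coordinates `t k` such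
  that the components `E j` through `y` are distinct coordinate hyperplanes, `f ∘ h` is a unit
  times `∏ (t k) ^ N`, and the Jacobian of `h` is a unit times `∏ (t k) ^ (ν - 1)`. -/
  local_form : ∀ y, ∃ (i : ι) (u₀ : Fin d → ℂ), chart i u₀ = y ∧
    ∃ (t : Fin d → MvPolynomial (Fin d) ℂ) (a : Fin d → Option J),
      (∀ k, MvPolynomial.eval u₀ (t k) = 0) ∧
      (Matrix.of fun k l => MvPolynomial.eval u₀ (MvPolynomial.pderiv l (t k))).det ≠ 0 ∧
      (∀ k l j, a k = some j → a l = some j → k = l) ∧
      (∀ j, y ∈ E j → ∃ k, a k = some j) ∧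
      (∀ k j, a k = some j →
        ∀ᶠ u in 𝓝 u₀, (chart i u ∈ E j ↔ MvPolynomial.eval u (t k) = 0)) ∧
      (∃ p q : MvPolynomial (Fin d) ℂ,
        MvPolynomial.eval u₀ p ≠ 0 ∧ MvPolynomial.eval u₀ q ≠ 0 ∧
        ∀ u, MvPolynomial.eval u q * MvPolynomial.eval (h (chart i u)) f =
          MvPolynomial.eval u p * ∏ k, MvPolynomial.eval u (t k) ^ ((a k).elim 0 N)) ∧
      (∃ p q : MvPolynomial (Fin d) ℂ,
        MvPolynomial.eval u₀ p ≠ 0 ∧ MvPolynomial.eval u₀ q ≠ 0 ∧
        ∀ u, MvPolynomial.eval u q *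
            (Matrix.of fun k l => MvPolynomial.eval u (MvPolynomial.pderiv l (H i k))).det =
          MvPolynomial.eval u p * ∏ k, MvPolynomial.eval u (t k) ^ ((a k).elim 0 fun j => ν j - 1))

attribute [instance] EmbeddedResolution.fintypeJ EmbeddedResolution.decEqJ

namespace EmbeddedResolution

variable {d : ℕ} {f : MvPolynomial (Fin d) ℂ} (R : EmbeddedResolution f)

/-- The stratum `E_I°`: the points lying on `E i` for `i ∈ I` and on no other component. -/
def stratum (I : Finset R.J) : Set R.Pt := {y | ∀ j, y ∈ R.E j ↔ j ∈ I}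

/-- The twisted topological zeta function
`Z^{(e)}_top(s) = ∑_{∅ ≠ I, e ∣ gcd (N_i)_{i∈I}} χ(E_I°) ∏_{i ∈ I} 1 / (N_i s + ν_i)`. -/
noncomputable def twistedZeta (e : ℕ) : RatFunc ℚ :=
  ∑ I ∈ (Finset.univ : Finset (Finset R.J)).filter (fun I => I.Nonempty ∧ e ∣ I.gcd R.N),
    ((topEuler (R.stratum I) : ℤ) : RatFunc ℚ) *
      ∏ i ∈ I, ((R.N i : RatFunc ℚ) * RatFunc.X + (R.ν i : RatFunc ℚ))⁻¹

end EmbeddedResolution

/-! ### The counterexample -/

/-- The polynomial `y (x² + w z² + y w² + y³ w)` in the variables `x, y, z, w = X 0, …, X 3`. -/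
noncomputable def fpoly : MvPolynomial (Fin 4) ℂ :=
  MvPolynomial.X 1 * (MvPolynomial.X 0 ^ 2 + MvPolynomial.X 3 * MvPolynomial.X 2 ^ 2 +
    MvPolynomial.X 1 * MvPolynomial.X 3 ^ 2 + MvPolynomial.X 1 ^ 3 * MvPolynomial.X 3)

/-- The polynomial function of `fpoly`. -/
def ff (v : Fin 4 → ℂ) : ℂ := v 1 * (v 0 ^ 2 + v 3 * v 2 ^ 2 + v 1 * v 3 ^ 2 + v 1 ^ 3 * v 3)

theorem eval_fpoly (v : Fin 4 → ℂ) : MvPolynomial.eval v fpoly = ff v := by
  simp [fpoly, ff]

/-- Piece M: eigenvalues of the monodromy at all points of `{f = 0}` have order dividing 6. -/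
def MonodromyStatement : Prop :=
  ∀ (x : Fin 4 → ℂ), ff x = 0 → ∀ (q : ℕ) (μ : ℂ), IsMonodromyEigenvalue ff x q μ → μ ^ 6 = 1

/-- Piece R: there is an embedded resolution for which `Z^{(4)}` is not a polynomial. -/
def ResolutionStatement : Prop :=
  ∃ R : EmbeddedResolution fpoly,
    ¬ ∃ p : Polynomial ℚ, algebraMap (Polynomial ℚ) (RatFunc ℚ) p = R.twistedZeta 4

end HoloConj
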