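import Pool.Agent.Lib.MP_ed311f_ag.EClem

/-!
# E1: the Euler characteristic of `{(s,a,b) : a, b ≠ 0, 1 + a + s² b ≠ 0}` is `0`
-/

open Topology ContinuousMap

namespace HoloConj.E1

open HoloConj.EC

/-- the stratum as a subset -/
def S1set : Set (ℂ × ℂ × ℂ) := {p | p.2.1 ≠ 0 ∧ p.2.2 ≠ 0 ∧ 1 + p.2.1 + p.1 ^ 2 * p.2.2 ≠ 0}

/-- `{(s,a) : a ≠ 0, 1 + a + s² ≠ 0}` -/
def Fset : Set (ℂ × ℂ) := {p | p.2 ≠ 0 ∧ 1 + p.2 + p.1 ^ 2 ≠ 0}

theorem hasE_F1 (api : EulerAPI) (ep : EPStatement) :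
    HasE {p : ℂ × ℂ | p ∈ Fset ∧ -(1 / 2) < p.1.im} 0 := by
  have h1 := hasE_scale api ep {t : ℂ | -(3 / 2) < t.im}
    ((convex_im_gt _).starConvex (by simp)) (by
      intro t ht
      have h2 := (Complex.abs_im_le_norm t).trans_lt ht
      have h3 := (abs_lt.1 h2).1
      show -(3 / 2) < t.im
      linarith)
  have hne : ∀ s : ℂ, -(1 / 2) < s.im → s + Complex.I ≠ 0 := by
    intro s hs h
    have h2 := congrArg Complex.im h
    simp at h2
    linarith
  refine hasE_homeo api (mkH _ _ (fun p => (p.1 + Complex.I, (p.1 + 2 * Complex.I) * p.2))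
      (fun p => (p.1 - Complex.I, p.2 / (p.1 + Complex.I))) ?_ ?_ ?_ ?_ (by fun_prop) ?_) h1
  · rintro p ⟨h2, h3, h4⟩
    have h2' : -(3 / 2) < p.1.im := h2
    have h5 : -(1 / 2) < (p.1 + Complex.I).im := by
      simp only [Complex.add_im, Complex.I_im]
      linarith
    have h6 : p.1 + 2 * Complex.I ≠ 0 := by
      have := hne _ h5
      have h7 : p.1 + 2 * Complex.I = p.1 + Complex.I + Complex.I := by ring
      rwa [h7]
    refine ⟨⟨mul_ne_zero h6 h3, ?_⟩, h5⟩
    show 1 + (p.1 + 2 * Complex.I) * p.2 + (p.1 + Complex.I) ^ 2 ≠ 0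
    have h8 : 1 + (p.1 + 2 * Complex.I) * p.2 + (p.1 + Complex.I) ^ 2 =
        (p.1 + 2 * Complex.I) * (p.1 + p.2) := by
      have := Complex.I_sq
      linear_combination this
    rw [h8]
    exact mul_ne_zero h6 h4
  · rintro p ⟨⟨h2, h3⟩, h4⟩
    have h5 := hne _ h4
    refine ⟨?_, div_ne_zero h2 h5, ?_⟩
    · have h4' : -(1 / 2) < p.1.im := h4
      show -(3 / 2) < (p.1 - Complex.I).im
      simp only [Complex.sub_im, Complex.I_im]
      linarith
    · show p.1 - Complex.I + p.2 / (p.1 + Complex.I) ≠ 0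
      have h6 : p.1 - Complex.I + p.2 / (p.1 + Complex.I) =
          (1 + p.2 + p.1 ^ 2) / (p.1 + Complex.I) := by
        field_simp
        have := Complex.I_sq
        linear_combination -this
      rw [h6]
      exact div_ne_zero h3 h5
  · rintro p ⟨h2, h3, h4⟩
    have h2' : -(3 / 2) < p.1.im := h2
    have h5 : -(1 / 2) < (p.1 + Complex.I).im := by
      simp only [Complex.add_im, Complex.I_im]
      linarith
    have h6 := hne _ h5
    have h7 : p.1 + 2 * Complex.I = p.1 + Complex.I + Complex.I := by ring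
    apply Prod.ext
    · simp
    · show (p.1 + 2 * Complex.I) * p.2 / (p.1 + Complex.I + Complex.I) = p.2
      rw [h7]
      field_simp
  · rintro p ⟨⟨h2, h3⟩, h4⟩
    have h5 := hne _ h4
    apply Prod.ext
    · simp
    · show (p.1 - Complex.I + 2 * Complex.I) * (p.2 / (p.1 + Complex.I)) = p.2
      have h7 : p.1 - Complex.I + 2 * Complex.I = p.1 + Complex.I := by ring
      rw [h7]
      field_simp
  · refine ContinuousOn.prodMk (by fun_prop) (ContinuousOn.div (by fun_prop) (by fun_prop) ?_)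
    rintro p ⟨_, h4⟩
    exact hne _ h4

theorem hasE_F2 (api : EulerAPI) (ep : EPStatement) :
    HasE {p : ℂ × ℂ | p ∈ Fset ∧ p.1.im < 1 / 2} 0 := by
  refine hasE_homeo api (mkH _ _ (fun p => (-p.1, p.2)) (fun p => (-p.1, p.2)) ?_ ?_ ?_ ?_
    (by fun_prop) (by fun_prop)) (hasE_F1 api ep)
  · rintro p ⟨⟨h2, h3⟩, h4⟩
    have h4' : -(1 / 2) < p.1.im := h4
    refine ⟨⟨h2, ?_⟩, ?_⟩
    · show 1 + p.2 + (-p.1) ^ 2 ≠ 0
      rwa [neg_sq]
    · show (-p.1).im < 1 / 2
      rw [Complex.neg_im]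
      linarith
  · rintro p ⟨⟨h2, h3⟩, h4⟩
    have h4' : p.1.im < 1 / 2 := h4
    refine ⟨⟨h2, ?_⟩, ?_⟩
    · show 1 + p.2 + (-p.1) ^ 2 ≠ 0
      rwa [neg_sq]
    · show -(1 / 2) < (-p.1).im
      rw [Complex.neg_im]
      linarith
  · intro p _
    simp
  · intro p _
    simp

theorem hasE_F3 (api : EulerAPI) (e5 : E5Statement) :
    HasE {p : ℂ × ℂ | p ∈ Fset ∧ -(1 / 2) < p.1.im ∧ p.1.im < 1 / 2} (-1) := by
  have hcv : Convex ℝ {s : ℂ | -(1 / 2) < s.im ∧ s.im < 1 / 2} :=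
    (convex_im_gt (-(1 / 2))).inter (convex_im_lt (1 / 2))
  have hcontr : ContractibleSpace {s : ℂ | -(1 / 2) < s.im ∧ s.im < 1 / 2} :=
    hcv.contractibleSpace ⟨0, by simp⟩
  have h2 : HasE ({s : ℂ | -(1 / 2) < s.im ∧ s.im < 1 / 2} × S5) (-1) :=
    hasE_contr_prod api _ S5 e5
  have h1 : ∀ s : ℂ, (-(1 / 2) < s.im ∧ s.im < 1 / 2) → 1 + s ^ 2 ≠ 0 := by
    rintro s ⟨h3, h4⟩ h5
    have h6 : (s - Complex.I) * (s + Complex.I) = 0 := by
      have := Complex.I_sq
      linear_combination h5 - this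
    rcases mul_eq_zero.1 h6 with h | h
    · have := congrArg Complex.im h
      simp at this
      linarith
    · have := congrArg Complex.im h
      simp at this
      linarith
  have e : ({s : ℂ | -(1 / 2) < s.im ∧ s.im < 1 / 2} × S5) ≃ₜ
      {p : ℂ × ℂ | p ∈ Fset ∧ -(1 / 2) < p.1.im ∧ p.1.im < 1 / 2} :=
    { toFun := fun q => ⟨(q.1.1, q.2.1 * (1 + q.1.1 ^ 2)), ⟨
        mul_ne_zero q.2.2.1 (h1 _ q.1.2), by
          show 1 + q.2.1 * (1 + q.1.1 ^ 2) + q.1.1 ^ 2 ≠ 0
          have : 1 + q.2.1 * (1 + q.1.1 ^ 2) + q.1.1 ^ 2 = (1 + q.1.1 ^ 2) * (1 + q.2.1) := by ring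
          rw [this]
          exact mul_ne_zero (h1 _ q.1.2) q.2.2.2⟩, q.1.2⟩
      invFun := fun p => (⟨p.1.1, p.2.2⟩, ⟨p.1.2 / (1 + p.1.1 ^ 2),
        div_ne_zero p.2.1.1 (h1 _ p.2.2), by
          have h3 := h1 _ p.2.2
          have : 1 + p.1.2 / (1 + p.1.1 ^ 2) = (1 + p.1.2 + p.1.1 ^ 2) / (1 + p.1.1 ^ 2) := by
            field_simp
            ring
          rw [this]
          exact div_ne_zero p.2.1.2 h3⟩)
      left_inv := fun q => by
        have h3 := h1 _ q.1.2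
        apply Prod.ext
        · rfl
        · apply Subtype.ext
          show q.2.1 * (1 + q.1.1 ^ 2) / (1 + q.1.1 ^ 2) = q.2.1
          field_simp
      right_inv := fun p => by
        have h3 := h1 _ p.2.2
        apply Subtype.ext
        apply Prod.ext
        · rfl
        · show p.1.2 / (1 + p.1.1 ^ 2) * (1 + p.1.1 ^ 2) = p.1.2
          field_simp
      continuous_toFun := by fun_prop
      continuous_invFun := by
        refine Continuous.prodMk (by fun_prop) (Continuous.subtype_mk ?_ _)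
        refine Continuous.div (by fun_prop) (by fun_prop) ?_
        intro p
        exact h1 _ p.2.2 }
  exact hasE_homeo api e h2

theorem hasE_F (api : EulerAPI) (ep : EPStatement) (e5 : E5Statement) : HasE Fset 1 := by
  have h := hasE_union api Fset {p | -(1 / 2) < p.1.im} {p | p.1.im < 1 / 2} _ _ _
    ?_ ?_ ?_ rfl rfl ?_ (hasE_F1 api ep) (hasE_F2 api ep) (hasE_F3 api e5)
  · simpa using h
  · exact isOpen_lt continuous_const (Complex.continuous_im.comp continuous_fst)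
  · exact isOpen_lt (Complex.continuous_im.comp continuous_fst) continuous_const
  · intro p _
    by_cases h : -(1 / 2) < p.1.im
    · exact Or.inl h
    · right
      show p.1.im < 1 / 2
      linarith [not_lt.1 h]
  · ext p
    constructor
    · rintro ⟨h1, h2, h3⟩
      exact ⟨⟨h1, h2⟩, h3⟩
    · rintro ⟨⟨h1, h2⟩, h3⟩
      exact ⟨h1, h2, h3⟩

/-- over a contractible set of `b` with a square root the stratum is a product with `F` -/
theorem piece (api : EulerAPI) (ep : EPStatement) (e5 : E5Statement) (A : Set ℂ)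
    [ContractibleSpace A] (ρ : ℂ → ℂ) (hρc : ContinuousOn ρ A) (hρ : ∀ b ∈ A, ρ b ^ 2 = b)
    (h0 : ∀ b ∈ A, b ≠ 0) :
    HasE {p : ℂ × ℂ × ℂ | p ∈ S1set ∧ p.2.2 ∈ A} 1 := by
  have h2 : HasE (A × Fset) 1 := hasE_contr_prod api A Fset (hasE_F api ep e5)
  have hρ0 : ∀ b ∈ A, ρ b ≠ 0 := by
    intro b hb h
    apply h0 b hb
    rw [← hρ b hb, h]
    simp
  have hc1 : Continuous fun q : A × Fset => ρ q.1.1 :=
    (continuousOn_iff_continuous_domRestrict.1 hρc).comp continuous_fst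
  have hc2 : Continuous fun p : {p : ℂ × ℂ × ℂ | p ∈ S1set ∧ p.2.2 ∈ A} => ρ p.1.2.2 := by
    have : Continuous fun p : {p : ℂ × ℂ × ℂ | p ∈ S1set ∧ p.2.2 ∈ A} =>
        (⟨p.1.2.2, p.2.2⟩ : A) := by fun_prop
    exact (continuousOn_iff_continuous_domRestrict.1 hρc).comp this
  have e : (A × Fset) ≃ₜ {p : ℂ × ℂ × ℂ | p ∈ S1set ∧ p.2.2 ∈ A} :=
    { toFun := fun q => ⟨(q.2.1.1 / ρ q.1.1, q.2.1.2, q.1.1), ⟨q.2.2.1, h0 _ q.1.2, by
          have h3 := hρ0 _ q.1.2
          show 1 + q.2.1.2 + (q.2.1.1 / ρ q.1.1) ^ 2 * q.1.1 ≠ 0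
          have : (q.2.1.1 / ρ q.1.1) ^ 2 * q.1.1 = q.2.1.1 ^ 2 := by
            rw [div_pow, hρ _ q.1.2]
            have := h0 _ q.1.2
            field_simp
          rw [this]
          exact q.2.2.2⟩, q.1.2⟩
      invFun := fun p => (⟨p.1.2.2, p.2.2⟩, ⟨(p.1.1 * ρ p.1.2.2, p.1.2.1), p.2.1.1, by
          show 1 + p.1.2.1 + (p.1.1 * ρ p.1.2.2) ^ 2 ≠ 0
          rw [mul_pow, hρ _ p.2.2]
          exact p.2.1.2.2⟩)
      left_inv := fun q => by
        have h3 := hρ0 _ q.1.2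
        apply Prod.ext
        · rfl
        · apply Subtype.ext
          apply Prod.ext
          · show q.2.1.1 / ρ q.1.1 * ρ q.1.1 = q.2.1.1
            field_simp
          · rfl
      right_inv := fun p => by
        have h3 := hρ0 _ p.2.2
        apply Subtype.ext
        apply Prod.ext
        · show p.1.1 * ρ p.1.2.2 / ρ p.1.2.2 = p.1.1
          field_simp
        · rfl
      continuous_toFun := by
        refine Continuous.subtype_mk (Continuous.prodMk ?_ (by fun_prop)) _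
        exact Continuous.div (by fun_prop) hc1 (fun q => hρ0 _ q.1.2)
      continuous_invFun := by
        refine Continuous.prodMk (by fun_prop) (Continuous.subtype_mk (Continuous.prodMk ?_
          (by fun_prop)) _)
        exact Continuous.mul (by fun_prop) hc2 }
  exact hasE_homeo api e h2

theorem hasE_S1 (api : EulerAPI) (ep : EPStatement) (e5 : E5Statement) : HasE S1 0 := by
  have hcs : ContinuousOn csq Complex.slitPlane := fun z hz =>
    (continuousAt_csq hz).continuousWithinAt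
  have a1 := piece api ep e5 Complex.slitPlane csq hcs
    (fun b hb => csq_sq (Complex.slitPlane_ne_zero hb))
    (fun b hb => Complex.slitPlane_ne_zero hb)
  have : ContractibleSpace {u : ℂ | -u ∈ Complex.slitPlane} := contr_neg_slit
  have hneg0 : ∀ b : ℂ, -b ∈ Complex.slitPlane → b ≠ 0 := by
    rintro b hb rfl
    rw [neg_zero] at hb
    exact Complex.slitPlane_ne_zero hb rfl
  have a2 := piece api ep e5 {u : ℂ | -u ∈ Complex.slitPlane} (fun b => Complex.I * csq (-b))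
    (by
      refine ContinuousOn.mul continuousOn_const ?_
      exact ContinuousOn.comp (g := csq) (f := fun b : ℂ => -b) (t := Complex.slitPlane) hcs
        (by fun_prop) (fun b hb => hb))
    (fun b hb => by
      show (Complex.I * csq (-b)) ^ 2 = b
      rw [mul_pow, Complex.I_sq, csq_sq (neg_ne_zero.2 (hneg0 b hb))]
      ring) (fun b hb => hneg0 b hb)
  have him : ∀ b : ℂ, b.im ≠ 0 → b ∈ Complex.slitPlane := fun b hb =>
    Complex.mem_slitPlane_iff.2 (Or.inr hb)
  have a3 : HasE {p : ℂ × ℂ × ℂ | p ∈ S1set ∧ p.2.2.im ≠ 0} (1 + 1) := by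
    have : ContractibleSpace {u : ℂ | 0 < u.im} := contr_im_pos
    have b1 := piece api ep e5 {u : ℂ | 0 < u.im} csq
      (hcs.mono fun b hb => him b (ne_of_gt hb))
      (fun b hb => csq_sq (Complex.slitPlane_ne_zero (him b (ne_of_gt hb))))
      (fun b hb => Complex.slitPlane_ne_zero (him b (ne_of_gt hb)))
    have : ContractibleSpace {u : ℂ | u.im < 0} := contr_im_neg
    have b2 := piece api ep e5 {u : ℂ | u.im < 0} csq
      (hcs.mono fun b hb => him b (ne_of_lt hb))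
      (fun b hb => csq_sq (Complex.slitPlane_ne_zero (him b (ne_of_lt hb))))
      (fun b hb => Complex.slitPlane_ne_zero (him b (ne_of_lt hb)))
    refine hasE_disj api _ {p | 0 < p.2.2.im} {p | p.2.2.im < 0} _ _ ?_ ?_ ?_ ?_ ?_ ?_ b1 b2
    · exact isOpen_lt continuous_const (by fun_prop)
    · exact isOpen_lt (by fun_prop) continuous_const
    · rintro p ⟨_, hp⟩
      exact (lt_or_gt_of_ne hp).symm
    · ext p
      constructor
      · rintro ⟨h1, h2⟩
        exact ⟨⟨h1, ne_of_gt h2⟩, h2⟩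
      · rintro ⟨⟨h1, _⟩, h2⟩
        exact ⟨h1, h2⟩
    · ext p
      constructor
      · rintro ⟨h1, h2⟩
        exact ⟨⟨h1, ne_of_lt h2⟩, h2⟩
      · rintro ⟨⟨h1, _⟩, h2⟩
        exact ⟨h1, h2⟩
    · ext p
      simp only [Set.mem_inter_iff, Set.mem_ofPred_eq, Set.mem_empty_iff_false, iff_false]
      rintro ⟨⟨_, h1⟩, h2⟩
      exact lt_asymm h1 h2
  have h := hasE_union api S1set {p | p.2.2 ∈ Complex.slitPlane} {p | -p.2.2 ∈ Complex.slitPlane}
    _ _ _ ?_ ?_ ?_ ?_ ?_ ?_ a1 a2 a3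
  · have e : (S1set : Set (ℂ × ℂ × ℂ)) ≃ₜ S1 := Homeomorph.refl _
    exact hasE_homeo api e (by simpa using h)
  · exact Complex.isOpen_slitPlane.preimage (by fun_prop)
  · exact Complex.isOpen_slitPlane.preimage (by fun_prop)
  · intro p hp
    exact slit_or_neg hp.2.1
  · rfl
  · rfl
  · ext p
    constructor
    · rintro ⟨h1, h2⟩
      have := slit_and_neg.2 h2
      exact ⟨⟨h1, this.1⟩, this.2⟩
    · rintro ⟨⟨h1, h2⟩, h3⟩
      exact ⟨h1, slit_and_neg.1 ⟨h2, h3⟩⟩

theorem e1 (api : EulerAPI) (ep : EPStatement) (e5 : E5Statement) : E1Statement :=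
  (hasE_S1 api ep e5).2

end HoloConj.E1
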