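import Pool.Agent.Lib.MP_ed311f_ag.EClem

/-!
# E4: the Euler characteristic of `{(u,v) : u, v ≠ 0, 1 + u + v ≠ 0}` is `1`
-/

open Topology ContinuousMap

namespace HoloConj.E4

open HoloConj.EC

/-- the stratum as a subset -/
def S4set : Set (ℂ × ℂ) := {p | p.1 ≠ 0 ∧ p.2 ≠ 0 ∧ 1 + p.1 + p.2 ≠ 0}

/-- over a contractible set of `u` not containing `0`, `-1` the stratum is a product with `S5` -/
theorem piece (api : EulerAPI) (e5 : E5Statement) (A : Set ℂ) [ContractibleSpace A]
    (h0 : ∀ u ∈ A, u ≠ 0) (h1 : ∀ u ∈ A, 1 + u ≠ 0) :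
    HasE {p : ℂ × ℂ | p ∈ S4set ∧ p.1 ∈ A} (-1) := by
  have h2 : HasE (A × S5) (-1) := hasE_contr_prod api A S5 e5
  have e : (A × S5) ≃ₜ {p : ℂ × ℂ | p ∈ S4set ∧ p.1 ∈ A} :=
    { toFun := fun q => ⟨(q.1.1, q.2.1 * (1 + q.1.1)), ⟨⟨h0 _ q.1.2,
        mul_ne_zero q.2.2.1 (h1 _ q.1.2), by
          show 1 + q.1.1 + q.2.1 * (1 + q.1.1) ≠ 0
          have : 1 + q.1.1 + q.2.1 * (1 + q.1.1) = (1 + q.1.1) * (1 + q.2.1) := by ring
          rw [this]
          exact mul_ne_zero (h1 _ q.1.2) q.2.2.2⟩, q.1.2⟩⟩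
      invFun := fun p => (⟨p.1.1, p.2.2⟩, ⟨p.1.2 / (1 + p.1.1),
        div_ne_zero p.2.1.2.1 (h1 _ p.2.2), by
          have h3 := h1 _ p.2.2
          have : 1 + p.1.2 / (1 + p.1.1) = (1 + p.1.1 + p.1.2) / (1 + p.1.1) := by
            field_simp
          rw [this]
          exact div_ne_zero p.2.1.2.2 h3⟩)
      left_inv := fun q => by
        have h3 := h1 _ q.1.2
        apply Prod.ext
        · rfl
        · apply Subtype.ext
          show q.2.1 * (1 + q.1.1) / (1 + q.1.1) = q.2.1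
          field_simp
      right_inv := fun p => by
        have h3 := h1 _ p.2.2
        apply Subtype.ext
        apply Prod.ext
        · rfl
        · show p.1.2 / (1 + p.1.1) * (1 + p.1.1) = p.1.2
          field_simp
      continuous_toFun := by fun_prop
      continuous_invFun := by
        refine Continuous.prodMk (by fun_prop) (Continuous.subtype_mk ?_ _)
        refine Continuous.div (by fun_prop) (by fun_prop) ?_
        intro p
        exact h1 _ p.2.2 }
  exact hasE_homeo api e h2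

theorem hasE_S4 (api : EulerAPI) (ep : EPStatement) (e5 : E5Statement) : HasE S4 1 := by
  have hslit0 : ∀ u ∈ Complex.slitPlane, u ≠ 0 := fun u hu => Complex.slitPlane_ne_zero hu
  have hslit1 : ∀ u ∈ Complex.slitPlane, 1 + u ≠ 0 := by
    intro u hu h
    have h3 : u = -1 := by linear_combination h
    rw [h3, Complex.mem_slitPlane_iff] at hu
    simp at hu
    linarith
  have him0 : ∀ u : ℂ, u.im ≠ 0 → u ≠ 0 := by
    rintro u h rfl
    simp at h
  have him1 : ∀ u : ℂ, u.im ≠ 0 → 1 + u ≠ 0 := by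
    intro u h h2
    apply h
    have h3 : u = -1 := by linear_combination h2
    rw [h3]
    simp
  -- first piece
  have a1 := piece api e5 Complex.slitPlane hslit0 hslit1
  -- overlap
  have a3 : HasE {p : ℂ × ℂ | p ∈ S4set ∧ p.1.im ≠ 0} (-1 + -1) := by
    have : ContractibleSpace {u : ℂ | 0 < u.im} := contr_im_pos
    have b1 := piece api e5 {u : ℂ | 0 < u.im} (fun u hu => him0 u (ne_of_gt hu))
      (fun u hu => him1 u (ne_of_gt hu))
    have : ContractibleSpace {u : ℂ | u.im < 0} := contr_im_neg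
    have b2 := piece api e5 {u : ℂ | u.im < 0} (fun u hu => him0 u (ne_of_lt hu))
      (fun u hu => him1 u (ne_of_lt hu))
    refine hasE_disj api _ {p | 0 < p.1.im} {p | p.1.im < 0} _ _ ?_ ?_ ?_ ?_ ?_ ?_ b1 b2
    · exact isOpen_lt continuous_const (Complex.continuous_im.comp continuous_fst)
    · exact isOpen_lt (Complex.continuous_im.comp continuous_fst) continuous_const
    · rintro p ⟨_, hp⟩
      exact (lt_or_gt_of_ne hp).symm
    · ext p
      constructor
      · rintro ⟨h1, h2⟩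
        exact ⟨⟨h1, ne_of_gt h2⟩, h2⟩
      · rintro ⟨⟨h1, _⟩, h2⟩
        exact ⟨h1, h2⟩
    · ext p
      constructor
      · rintro ⟨h1, h2⟩
        exact ⟨⟨h1, ne_of_lt h2⟩, h2⟩
      · rintro ⟨⟨h1, _⟩, h2⟩
        exact ⟨h1, h2⟩
    · ext p
      simp only [Set.mem_inter_iff, Set.mem_ofPred_eq, Set.mem_empty_iff_false, iff_false]
      rintro ⟨⟨_, h1⟩, h2⟩
      exact lt_asymm h1 h2
  -- second piece
  have a2 : HasE {p : ℂ × ℂ | p ∈ S4set ∧ -p.1 ∈ Complex.slitPlane} 0 := by
    have h1 := hasE_scale api ep {t : ℂ | 1 - t ∈ Complex.slitPlane} (by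
      intro t ht a b ha hb hab
      show 1 - (a • (0 : ℂ) + b • t) ∈ Complex.slitPlane
      have h2 := Complex.starConvex_one_slitPlane ht ha hb hab
      have h3 : (1 : ℂ) - (a • (0 : ℂ) + b • t) = a • (1 : ℂ) + b • (1 - t) := by
        have h4 : ((a : ℝ) : ℂ) + (b : ℂ) = 1 := by exact_mod_cast hab
        simp only [Complex.real_smul, smul_zero, zero_add]
        linear_combination -h4
      rw [h3]
      exact h2) (by
      intro t ht
      show 1 - t ∈ Complex.slitPlane
      rw [sub_eq_add_neg]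
      exact Complex.mem_slitPlane_of_norm_lt_one (by rwa [norm_neg]))
    refine hasE_homeo api (mkH _ _ (fun p => (p.1 - 1, p.2)) (fun p => (p.1 + 1, p.2))
      ?_ ?_ ?_ ?_ (by fun_prop) (by fun_prop)) h1
    · rintro p ⟨h1, h2, h3⟩
      have h4 : -(p.1 - 1) ∈ Complex.slitPlane := by
        rw [neg_sub]; exact h1
      refine ⟨⟨?_, h2, ?_⟩, h4⟩
      · intro h
        have : p.1 - 1 = 0 := h
        rw [this, neg_zero] at h4
        exact Complex.slitPlane_ne_zero h4 rfl
      · show 1 + (p.1 - 1) + p.2 ≠ 0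
        have : 1 + (p.1 - 1) + p.2 = p.1 + p.2 := by ring
        rw [this]
        exact h3
    · rintro p ⟨⟨_, h2, h3⟩, h4⟩
      refine ⟨?_, h2, ?_⟩
      · show 1 - (p.1 + 1) ∈ Complex.slitPlane
        have : 1 - (p.1 + 1) = -p.1 := by ring
        rw [this]
        exact h4
      · show p.1 + 1 + p.2 ≠ 0
        have : p.1 + 1 + p.2 = 1 + p.1 + p.2 := by ring
        rw [this]
        exact h3
    · intro p _
      apply Prod.ext <;> simp
    · intro p _
      apply Prod.ext <;> simp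
  have h := hasE_union api S4set {p | p.1 ∈ Complex.slitPlane} {p | -p.1 ∈ Complex.slitPlane} _ _ _
    ?_ ?_ ?_ ?_ ?_ ?_ a1 a2 a3
  · have e : (S4set : Set (ℂ × ℂ)) ≃ₜ S4 := Homeomorph.refl _
    exact hasE_homeo api e (by simpa using h)
  · exact Complex.isOpen_slitPlane.preimage continuous_fst
  · exact Complex.isOpen_slitPlane.preimage (continuous_neg.comp continuous_fst)
  · intro p hp
    exact slit_or_neg hp.1
  · rfl
  · rfl
  · ext p
    constructor
    · rintro ⟨h1, h2⟩
      have := slit_and_neg.2 h2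
      exact ⟨⟨h1, this.1⟩, this.2⟩
    · rintro ⟨⟨h1, h2⟩, h3⟩
      exact ⟨h1, slit_and_neg.1 ⟨h2, h3⟩⟩

theorem e4 (api : EulerAPI) (ep : EPStatement) (e5 : E5Statement) : E4Statement :=
  (hasE_S4 api ep e5).2

end HoloConj.E4
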