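import Pool.Agent.Lib.MP_ed311f_ag.Pieces

/-!
# Tools for the local isotopies: a square root near `1` and a tube lemma
-/

open Topology

namespace HoloConj

/-- the principal square root -/
noncomputable def csq (z : ℂ) : ℂ := Complex.exp (Complex.log z / 2)

theorem csq_sq {z : ℂ} (hz : z ≠ 0) : csq z ^ 2 = z := by
  rw [csq, ← Complex.exp_nat_mul]
  have : ((2 : ℕ) : ℂ) * (Complex.log z / 2) = Complex.log z := by
    push_cast; ring
  rw [this, Complex.exp_log hz]

theorem csq_one : csq 1 = 1 := by simp [csq]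

theorem csq_ne_zero (z : ℂ) : csq z ≠ 0 := Complex.exp_ne_zero _

theorem continuousAt_csq {z : ℂ} (hz : z ∈ Complex.slitPlane) : ContinuousAt csq z := by
  unfold csq
  exact Complex.continuous_exp.continuousAt.comp ((continuousAt_clog hz).div_const 2)

theorem continuousAt_csq_comp {Y : Type*} [TopologicalSpace Y] {F : Y → ℂ} {a : Y}
    (hF : ContinuousAt F a) (h : ‖F a‖ < 1) : ContinuousAt (fun b => csq (1 + F b)) a :=
  ContinuousAt.comp (g := csq) (f := fun b => 1 + F b)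
    (continuousAt_csq (Complex.mem_slitPlane_of_norm_lt_one h)) (continuousAt_const.add hF)

theorem csq_sq' {z : ℂ} (hz : ‖z‖ < 1) : csq (1 + z) ^ 2 = 1 + z :=
  csq_sq (Complex.slitPlane_ne_zero (Complex.mem_slitPlane_of_norm_lt_one hz))

/-- `e(θ) = exp (2πiθ)` -/
noncomputable def ee (θ : ℝ) : ℂ := Complex.exp (2 * Real.pi * Complex.I * θ)

theorem ee_zero : ee 0 = 1 := by simp [ee]

theorem ee_one : ee 1 = 1 := by
  simp [ee, Complex.exp_two_pi_mul_I]

@[fun_prop]
theorem continuous_ee : Continuous ee := by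
  unfold ee
  fun_prop

theorem ee_eq_one (θ : ℝ) : Complex.exp (2 * Real.pi * Complex.I * (1 : ℕ) * θ) = ee θ := by
  simp [ee]

theorem ee_eq_two (θ : ℝ) : Complex.exp (2 * Real.pi * Complex.I * (2 : ℕ) * θ) = ee θ ^ 2 := by
  rw [ee, ← Complex.exp_nat_mul]
  congr 1
  push_cast
  ring

theorem tube_lt {X : Type} [TopologicalSpace X] (p : X) (H : ℝ × X → ℂ)
    (hc : ∀ θ ∈ Set.Icc (0 : ℝ) 1, ContinuousAt H (θ, p))
    (h0 : ∀ θ ∈ Set.Icc (0 : ℝ) 1, H (θ, p) = 0) :
    ∀ᶠ v in 𝓝 p, ∀ θ ∈ Set.Icc (0 : ℝ) 1, ‖H (θ, v)‖ < 1 / 2 := by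
  refine isCompact_Icc.eventually_forall_of_forall_eventually
    (P := fun v θ => ‖H (θ, v)‖ < 1 / 2) ?_
  intro θ hθ
  have h1 : ContinuousAt (fun z : X × ℝ => ‖H (z.2, z.1)‖) (p, θ) := by
    apply ContinuousAt.norm
    exact ContinuousAt.comp (g := H) (f := fun z : X × ℝ => (z.2, z.1)) (hc θ hθ)
      (continuous_swap.continuousAt)
  apply h1.eventually_lt continuousAt_const
  simp only
  rw [h0 θ hθ]
  norm_num

end HoloConj
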