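import Pool.Agent.Lib.MP_ed311f_ag.EulerAPI
import Pool.Agent.Lib.MP_ed311f_ag.M3lem

/-!
# Euler characteristics: tools for subsets
-/

open Topology ContinuousMap

namespace HoloConj.EC

/-- finite total homology and Euler characteristic `n` -/
def HasE (Z : Type) [TopologicalSpace Z] (n : ℤ) : Prop := Good Z ∧ topEuler Z = n

theorem hasE_equiv (api : EulerAPI) {Z Z' : Type} [TopologicalSpace Z] [TopologicalSpace Z']
    (e : Z ≃ₕ Z') {n : ℤ} (h : HasE Z n) : HasE Z' n := by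
  obtain ⟨h1, h2⟩ := api.equiv Z Z' ⟨e⟩ h.1
  exact ⟨h1, h2.trans h.2⟩

theorem hasE_homeo (api : EulerAPI) {Z Z' : Type} [TopologicalSpace Z] [TopologicalSpace Z']
    (e : Z ≃ₜ Z') {n : ℤ} (h : HasE Z n) : HasE Z' n :=
  hasE_equiv api e.toHomotopyEquiv h

theorem hasE_contr (api : EulerAPI) (Z : Type) [TopologicalSpace Z] [ContractibleSpace Z] :
    HasE Z 1 := api.contr Z

theorem hasE_contr_prod (api : EulerAPI) (A Z : Type) [TopologicalSpace A] [TopologicalSpace Z]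
    [ContractibleSpace A] {n : ℤ} (h : HasE Z n) : HasE (A × Z) n := by
  obtain ⟨e⟩ := ContractibleSpace.hequiv_unit A
  have e2 : (Unit × Z) ≃ₕ Z := (Homeomorph.punitProd Z).toHomotopyEquiv
  exact hasE_equiv api ((e.prodCongr (ContinuousMap.HomotopyEquiv.refl Z)).trans e2).symm h

/-- homeomorphism between subsets given by functions on the ambient spaces -/
def mkH {X Y : Type} [TopologicalSpace X] [TopologicalSpace Y] (s : Set X) (t : Set Y)
    (f : X → Y) (g : Y → X) (hf : Set.MapsTo f s t) (hg : Set.MapsTo g t s)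
    (hgf : ∀ x ∈ s, g (f x) = x) (hfg : ∀ y ∈ t, f (g y) = y)
    (cf : ContinuousOn f s) (cg : ContinuousOn g t) : s ≃ₜ t where
  toFun x := ⟨f x, hf x.2⟩
  invFun y := ⟨g y, hg y.2⟩
  left_inv x := Subtype.ext (hgf x x.2)
  right_inv y := Subtype.ext (hfg y y.2)
  continuous_toFun := (continuousOn_iff_continuous_domRestrict.1 cf).subtype_mk _
  continuous_invFun := (continuousOn_iff_continuous_domRestrict.1 cg).subtype_mk _

/-- nested subsets -/
def nest {X : Type} [TopologicalSpace X] (s u w : Set X) (hw : w = s ∩ u) :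
    w ≃ₜ ↥((Subtype.val : s → X) ⁻¹' u) where
  toFun x := ⟨⟨x.1, (hw ▸ x.2 : x.1 ∈ s ∩ u).1⟩, (hw ▸ x.2 : x.1 ∈ s ∩ u).2⟩
  invFun x := ⟨x.1.1, by rw [hw]; exact ⟨x.1.2, x.2⟩⟩
  left_inv _ := rfl
  right_inv _ := rfl
  continuous_toFun := by fun_prop
  continuous_invFun := by fun_prop

theorem hasE_union (api : EulerAPI) {X : Type} [TopologicalSpace X] (s u v a b c : Set X)
    (hu : IsOpen u) (hv : IsOpen v) (hs : s ⊆ u ∪ v) (ha : a = s ∩ u) (hb : b = s ∩ v)
    (hc : c = s ∩ u ∩ v) {l m n : ℤ} (h1 : HasE a l) (h2 : HasE b m) (h3 : HasE c n) :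
    HasE s (l + m - n) := by
  have e1 := hasE_homeo api (nest s u a ha) h1
  have e2 := hasE_homeo api (nest s v b hb) h2
  have e3 : HasE ↥((Subtype.val : s → X) ⁻¹' u ∩ (Subtype.val : s → X) ⁻¹' v) n :=
    hasE_homeo api (nest s (u ∩ v) c (by rw [hc, Set.inter_assoc])) h3
  obtain ⟨h4, h5⟩ := api.union s (Subtype.val ⁻¹' u) (Subtype.val ⁻¹' v)
    (hu.preimage continuous_subtype_val) (hv.preimage continuous_subtype_val)
    (by
      rw [← Set.preimage_union]
      exact Set.eq_univ_of_forall fun x => hs x.2) e1.1 e2.1 e3.1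
  exact ⟨h4, by rw [h5, e1.2, e2.2, e3.2]⟩

theorem hasE_disj (api : EulerAPI) {X : Type} [TopologicalSpace X] (s u v a b : Set X)
    (hu : IsOpen u) (hv : IsOpen v) (hs : s ⊆ u ∪ v) (ha : a = s ∩ u) (hb : b = s ∩ v)
    (hc : s ∩ u ∩ v = ∅) {l m : ℤ} (h1 : HasE a l) (h2 : HasE b m) :
    HasE s (l + m) := by
  have h3 : HasE (∅ : Set X) 0 := api.empty _ (by infer_instance)
  have := hasE_union api s u v a b ∅ hu hv hs ha hb hc.symm h1 h2 h3
  simpa using this

/-- the twice punctured line as a subset of `ℂ` -/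
def S5set : Set ℂ := {p | p ≠ 0 ∧ 1 + p ≠ 0}

/-- `ℂˣ` as a subset of `ℂ` -/
def Cset : Set ℂ := {p | p ≠ 0}

/-- `{(t,v) : v ≠ 0, t + v ≠ 0}` -/
def Tset : Set (ℂ × ℂ) := {p | p.2 ≠ 0 ∧ p.1 + p.2 ≠ 0}

theorem hasE_T (api : EulerAPI) (ep : EPStatement) : HasE Tset 0 := by
  have h1 : HasE Unit 1 := hasE_contr api Unit
  have h2 : HasE ({u : ℂ // u ≠ 0} × Unit) 0 := ep Unit h1.1
  have h3 : HasE {u : ℂ // u ≠ 0} 0 := hasE_homeo api (Homeomorph.prodPUnit _) h2
  have h4 : HasE ({u : ℂ // u ≠ 0} × {u : ℂ // u ≠ 0}) 0 := ep _ h3.1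
  have e : (Tset : Set (ℂ × ℂ)) ≃ₜ ({u : ℂ // u ≠ 0} × {u : ℂ // u ≠ 0}) :=
    { toFun := fun p => (⟨p.1.2, p.2.1⟩, ⟨p.1.1 + p.1.2, p.2.2⟩)
      invFun := fun q => ⟨(q.2.1 - q.1.1, q.1.1), q.1.2, by
        have := q.2.2
        simpa using this⟩
      left_inv := fun p => by
        apply Subtype.ext
        apply Prod.ext <;> simp
      right_inv := fun q => by
        apply Prod.ext <;> apply Subtype.ext <;> simp
      continuous_toFun := by fun_prop
      continuous_invFun := by fun_prop }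
  exact hasE_homeo api e.symm h4

/-- scaling: `{(t,v) : t ∈ A, v ≠ 0, t + v ≠ 0}` for `A` star-shaped about `0` and containing the
open unit ball. -/
theorem hasE_scale (api : EulerAPI) (ep : EPStatement) (A : Set ℂ) (hA : StarConvex ℝ 0 A)
    (hball : ∀ t : ℂ, ‖t‖ < 1 → t ∈ A) :
    HasE {p : ℂ × ℂ | p.1 ∈ A ∧ p.2 ≠ 0 ∧ p.1 + p.2 ≠ 0} 0 := by
  obtain ⟨P, hP⟩ : ∃ P, P = {p : ℂ × ℂ | p.1 ∈ A ∧ p.2 ≠ 0 ∧ p.1 + p.2 ≠ 0} := ⟨_, rfl⟩
  rw [← hP]
  have hsm : ∀ (σ : ℝ), 0 < σ → ∀ p : ℂ × ℂ, p ∈ Tset → ((σ : ℂ) * p.1, (σ : ℂ) * p.2) ∈ Tset := by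
    intro σ hσ p hp
    have hσ' : (σ : ℂ) ≠ 0 := by exact_mod_cast hσ.ne'
    refine ⟨mul_ne_zero hσ' hp.1, ?_⟩
    show (σ : ℂ) * p.1 + (σ : ℂ) * p.2 ≠ 0
    rw [← mul_add]
    exact mul_ne_zero hσ' hp.2
  have hPT : ∀ p ∈ P, p ∈ Tset := by
    intro p hp
    rw [hP] at hp
    exact hp.2
  have hAσ : ∀ (σ : ℝ), 0 ≤ σ → σ ≤ 1 → ∀ t ∈ A, (σ : ℂ) * t ∈ A := by
    intro σ h0 h1 t ht
    have := hA.smul_mem ht h0 h1
    simpa using this
  have hsmP : ∀ (σ : ℝ), 0 < σ → σ ≤ 1 → ∀ p : ℂ × ℂ, p ∈ P →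
      ((σ : ℂ) * p.1, (σ : ℂ) * p.2) ∈ P := by
    intro σ h0 h1 p hp
    have h2 := hsm σ h0 p (hPT p hp)
    rw [hP] at hp ⊢
    exact ⟨hAσ σ h0.le h1 _ hp.1, h2⟩
  -- the scaling factor
  obtain ⟨s, hs⟩ : ∃ s : ℂ × ℂ → ℝ, s = fun p => 1 / (1 + ‖p.1‖) := ⟨_, rfl⟩
  have hs0 : ∀ p, 0 < s p := by
    intro p; rw [hs]; positivity
  have hs1 : ∀ p, s p ≤ 1 := by
    intro p
    rw [hs]
    simp only
    rw [div_le_one (by positivity)]
    linarith [norm_nonneg p.1]
  have hsc : Continuous s := by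
    rw [hs]
    refine continuous_const.div (by fun_prop) ?_
    intro p
    positivity
  have hs2 : ∀ p : ℂ × ℂ, ‖(s p : ℂ) * p.1‖ < 1 := by
    intro p
    rw [norm_mul, Complex.norm_real, Real.norm_of_nonneg (hs0 p).le, hs]
    simp only
    rw [one_div, inv_mul_lt_one₀ (by positivity)]
    linarith
  let f : C(P, Tset) := ⟨fun p => ⟨p.1, hPT p.1 p.2⟩, by fun_prop⟩
  have hgm : ∀ p : ℂ × ℂ, p ∈ Tset → ((s p : ℂ) * p.1, (s p : ℂ) * p.2) ∈ P := by
    intro p hp
    have h2 := hsm (s p) (hs0 p) p hp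
    rw [hP]
    exact ⟨hball _ (hs2 p), h2⟩
  let g : C(Tset, P) := ⟨fun p => ⟨((s p.1 : ℂ) * p.1.1, (s p.1 : ℂ) * p.1.2), hgm p.1 p.2⟩, by
    refine Continuous.subtype_mk ?_ _
    have : Continuous fun p : Tset => (s p.1 : ℂ) :=
      Complex.continuous_ofReal.comp (hsc.comp continuous_subtype_val)
    fun_prop⟩
  -- interpolation of the factor
  have hσ0 : ∀ (θ : unitInterval) (p : ℂ × ℂ), 0 < (1 - (θ : ℝ)) * s p + (θ : ℝ) := by
    intro θ p
    have h1 := θ.2.1
    have h2 := θ.2.2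
    rcases eq_or_lt_of_le h1 with h | h
    · rw [← h]
      simpa using hs0 p
    · have := mul_nonneg (sub_nonneg.2 h2) (hs0 p).le
      linarith
  have hσ1 : ∀ (θ : unitInterval) (p : ℂ × ℂ), (1 - (θ : ℝ)) * s p + (θ : ℝ) ≤ 1 := by
    intro θ p
    have h2 := θ.2.2
    have := mul_le_mul_of_nonneg_left (hs1 p) (sub_nonneg.2 h2)
    linarith
  have e : P ≃ₕ Tset :=
    { toFun := f
      invFun := g
      left_inv := ⟨
        { toFun := fun q => ⟨((((1 - (q.1 : ℝ)) * s q.2.1 + (q.1 : ℝ) : ℝ) : ℂ) * q.2.1.1,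
            (((1 - (q.1 : ℝ)) * s q.2.1 + (q.1 : ℝ) : ℝ) : ℂ) * q.2.1.2),
            hsmP _ (hσ0 q.1 q.2.1) (hσ1 q.1 q.2.1) q.2.1 q.2.2⟩
          continuous_toFun := by
            refine Continuous.subtype_mk ?_ _
            have h1 : Continuous fun q : unitInterval × P => s q.2.1 :=
              hsc.comp (continuous_subtype_val.comp continuous_snd)
            have h2 : Continuous fun q : unitInterval × P =>
                (((1 - (q.1 : ℝ)) * s q.2.1 + (q.1 : ℝ) : ℝ) : ℂ) :=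
              Complex.continuous_ofReal.comp (by fun_prop)
            fun_prop
          map_zero_left := by
            intro p
            apply Subtype.ext
            apply Prod.ext <;> simp [f, g]
          map_one_left := by
            intro p
            apply Subtype.ext
            apply Prod.ext <;> simp }⟩
      right_inv := ⟨
        { toFun := fun q => ⟨((((1 - (q.1 : ℝ)) * s q.2.1 + (q.1 : ℝ) : ℝ) : ℂ) * q.2.1.1,
            (((1 - (q.1 : ℝ)) * s q.2.1 + (q.1 : ℝ) : ℝ) : ℂ) * q.2.1.2),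
            hsm _ (hσ0 q.1 q.2.1) q.2.1 q.2.2⟩
          continuous_toFun := by
            refine Continuous.subtype_mk ?_ _
            have h1 : Continuous fun q : unitInterval × Tset => s q.2.1 :=
              hsc.comp (continuous_subtype_val.comp continuous_snd)
            have h2 : Continuous fun q : unitInterval × Tset =>
                (((1 - (q.1 : ℝ)) * s q.2.1 + (q.1 : ℝ) : ℝ) : ℂ) :=
              Complex.continuous_ofReal.comp (by fun_prop)
            fun_prop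
          map_zero_left := by
            intro p
            apply Subtype.ext
            apply Prod.ext <;> simp [f, g]
          map_one_left := by
            intro p
            apply Subtype.ext
            apply Prod.ext <;> simp }⟩ }
  exact hasE_equiv api e.symm (hasE_T api ep)

/-! ### Contractible pieces -/

instance : ContractibleSpace Complex.slitPlane :=
  Complex.starConvex_one_slitPlane.contractibleSpace ⟨1, Complex.one_mem_slitPlane⟩

theorem contr_neg_slit : ContractibleSpace {u : ℂ | -u ∈ Complex.slitPlane} := by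
  have e : {u : ℂ | -u ∈ Complex.slitPlane} ≃ₜ Complex.slitPlane :=
    mkH _ _ (fun u => -u) (fun u => -u) (fun u hu => hu) (fun u hu => by
      show - -u ∈ Complex.slitPlane
      rwa [neg_neg]) (fun u _ => neg_neg u) (fun u _ => neg_neg u) (by fun_prop) (by fun_prop)
  exact e.contractibleSpace

theorem convex_im_gt (a : ℝ) : Convex ℝ {u : ℂ | a < u.im} :=
  convex_halfSpace_im_gt a

theorem convex_im_lt (a : ℝ) : Convex ℝ {u : ℂ | u.im < a} :=
  convex_halfSpace_im_lt a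

theorem contr_im_pos : ContractibleSpace {u : ℂ | 0 < u.im} :=
  (convex_im_gt 0).contractibleSpace ⟨Complex.I, by simp⟩

theorem contr_im_neg : ContractibleSpace {u : ℂ | u.im < 0} :=
  (convex_im_lt 0).contractibleSpace ⟨-Complex.I, by simp⟩

theorem slit_or_neg {u : ℂ} (hu : u ≠ 0) : u ∈ Complex.slitPlane ∨ -u ∈ Complex.slitPlane := by
  by_contra h
  push Not at h
  obtain ⟨h1, h2⟩ := h
  rw [Complex.mem_slitPlane_iff] at h1 h2
  push Not at h1 h2
  simp only [Complex.neg_re, Complex.neg_im] at h2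
  apply hu
  apply Complex.ext
  · simp only [Complex.zero_re]
    linarith [h1.1, h2.1]
  · simpa using h1.2

theorem slit_and_neg {u : ℂ} : (u ∈ Complex.slitPlane ∧ -u ∈ Complex.slitPlane) ↔ u.im ≠ 0 := by
  simp only [Complex.mem_slitPlane_iff, Complex.neg_re, Complex.neg_im]
  constructor
  · rintro ⟨h1, h2⟩ h3
    rw [h3] at h1 h2
    simp at h1 h2
    linarith
  · intro h
    exact ⟨Or.inr h, Or.inr (neg_ne_zero.2 h)⟩

end HoloConj.EC
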