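import Pool.Agent.Lib.MP_ed311f_ag.EulerAPI

/-!
# Euler characteristics of products and of the twice punctured line
-/

open Topology ContinuousMap

namespace HoloConj

namespace EP

/-- `Good` and Euler characteristic together -/
def Chi (Z : Type) [TopologicalSpace Z] (n : ℤ) : Prop := Good Z ∧ topEuler Z = n

lemma Chi.congr (api : EulerAPI) {Z Z' : Type} [TopologicalSpace Z] [TopologicalSpace Z']
    {n : ℤ} (h : Chi Z n) (e : Z ≃ₕ Z') : Chi Z' n := by
  obtain ⟨h1, h2⟩ := api.equiv Z Z' ⟨e⟩ h.1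
  exact ⟨h1, h2.trans h.2⟩

lemma Chi.homeo (api : EulerAPI) {Z Z' : Type} [TopologicalSpace Z] [TopologicalSpace Z']
    {n : ℤ} (h : Chi Z n) (e : Z ≃ₜ Z') : Chi Z' n := h.congr api e.toHomotopyEquiv

/-- products with contractible spaces -/
lemma Chi.prod_contr (api : EulerAPI) (A Z : Type) [TopologicalSpace A] [TopologicalSpace Z]
    [ContractibleSpace A] {n : ℤ} (h : Chi Z n) : Chi (A × Z) n := by
  obtain ⟨e⟩ := ContractibleSpace.hequiv_unit A
  have e1 : (A × Z) ≃ₕ (Unit × Z) := e.prodCongr (ContinuousMap.HomotopyEquiv.refl Z)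
  exact h.congr api ((Homeomorph.punitProd Z).toHomotopyEquiv.symm.trans e1.symm)

theorem good_prod_contr (api : EulerAPI) (A Z : Type) [TopologicalSpace A] [TopologicalSpace Z]
    [ContractibleSpace A] (h : Good Z) : Good (A × Z) ∧ topEuler (A × Z) = topEuler Z :=
  Chi.prod_contr api A Z (n := topEuler Z) ⟨h, rfl⟩

/-- subsets of subsets -/
def subHomeo {X : Type} [TopologicalSpace X] {S T : Set X} (h : S ⊆ T) :
    S ≃ₜ (Subtype.val ⁻¹' S : Set T) where
  toFun x := ⟨⟨x.1, h x.2⟩, x.2⟩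
  invFun x := ⟨x.1.1, x.2⟩
  left_inv _ := rfl
  right_inv _ := rfl
  continuous_toFun := by fun_prop
  continuous_invFun := by fun_prop

/-- the same for products -/
def prodHomeo {X Z : Type} [TopologicalSpace X] [TopologicalSpace Z] {S T : Set X} (h : S ⊆ T) :
    (S × Z) ≃ₜ ((fun p : T × Z => (p.1 : X)) ⁻¹' S : Set (T × Z)) where
  toFun x := ⟨⟨⟨x.1.1, h x.1.2⟩, x.2⟩, x.1.2⟩
  invFun x := ⟨⟨x.1.1.1, x.2⟩, x.1.2⟩
  left_inv _ := rfl
  right_inv _ := rfl
  continuous_toFun := by fun_prop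
  continuous_invFun := by fun_prop

lemma Chi.union_prod (api : EulerAPI) {X : Type} [TopologicalSpace X] (Z : Type)
    [TopologicalSpace Z] {A B C D : Set X} (hA : IsOpen A) (hB : IsOpen B) (hC : A ∩ B = C)
    (hD : A ∪ B = D) {a b c : ℤ} (h1 : Chi (A × Z) a) (h2 : Chi (B × Z) b)
    (h3 : Chi (C × Z) c) : Chi (D × Z) (a + b - c) := by
  subst hC hD
  set T : Set X := A ∪ B with hT
  have hAT : A ⊆ T := Set.subset_union_left
  have hBT : B ⊆ T := Set.subset_union_right
  have hCT : A ∩ B ⊆ T := Set.inter_subset_left.trans hAT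
  have k1 := h1.homeo api (prodHomeo (Z := Z) hAT)
  have k2 := h2.homeo api (prodHomeo (Z := Z) hBT)
  have k3 := h3.homeo api (prodHomeo (Z := Z) hCT)
  have hcont : Continuous (fun p : T × Z => (p.1 : X)) := by fun_prop
  have := api.union (T × Z) ((fun p : T × Z => (p.1 : X)) ⁻¹' A)
    ((fun p : T × Z => (p.1 : X)) ⁻¹' B) (hA.preimage hcont) (hB.preimage hcont)
    (by
      ext p
      simp only [Set.mem_union, Set.mem_preimage, Set.mem_univ, iff_true]
      exact p.1.2) k1.1 k2.1 k3.1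
  refine ⟨this.1, ?_⟩
  rw [this.2, k1.2, k2.2]
  have h3 := k3.2
  rw [Set.preimage_inter] at h3
  rw [h3]

lemma Chi.union (api : EulerAPI) {X : Type} [TopologicalSpace X]
    {A B C D : Set X} (hA : IsOpen A) (hB : IsOpen B) (hC : A ∩ B = C)
    (hD : A ∪ B = D) {a b c : ℤ} (h1 : Chi A a) (h2 : Chi B b)
    (h3 : Chi C c) : Chi D (a + b - c) := by
  have e : ∀ S : Set X, S ≃ₜ (S × Unit) := fun S => (Homeomorph.prodPUnit S).symm
  have := Chi.union_prod api Unit hA hB hC hD (h1.homeo api (e A)) (h2.homeo api (e B))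
    (h3.homeo api (e C))
  exact this.homeo api (e D).symm

/-- disjoint unions -/
lemma Chi.union_disj_prod (api : EulerAPI) {X : Type} [TopologicalSpace X] (Z : Type)
    [TopologicalSpace Z] {A B D : Set X} (hA : IsOpen A) (hB : IsOpen B) (hC : A ∩ B = ∅)
    (hD : A ∪ B = D) {a b : ℤ} (h1 : Chi (A × Z) a) (h2 : Chi (B × Z) b) :
    Chi (D × Z) (a + b) := by
  have h3 : Chi ((∅ : Set X) × Z) 0 := api.empty _ ⟨fun p => p.1.2⟩
  have := Chi.union_prod api Z hA hB hC hD h1 h2 h3
  rwa [sub_zero] at this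

lemma Chi.union_disj (api : EulerAPI) {X : Type} [TopologicalSpace X]
    {A B D : Set X} (hA : IsOpen A) (hB : IsOpen B) (hC : A ∩ B = ∅)
    (hD : A ∪ B = D) {a b : ℤ} (h1 : Chi A a) (h2 : Chi B b) :
    Chi D (a + b) := by
  have h3 : Chi (∅ : Set X) 0 := api.empty _ ⟨fun p => p.2⟩
  have := Chi.union api hA hB hC hD h1 h2 h3
  rwa [sub_zero] at this

/-- star-convex sets are contractible -/
lemma contr_of_star {S : Set ℂ} {x : ℂ} (h : StarConvex ℝ x S) (hx : x ∈ S) :
    ContractibleSpace S := h.contractibleSpace ⟨x, hx⟩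

lemma chi_of_star (api : EulerAPI) {S : Set ℂ} {x : ℂ} (h : StarConvex ℝ x S) (hx : x ∈ S) :
    Chi S 1 := by
  have := contr_of_star h hx
  exact api.contr S

lemma chi_prod_of_star (api : EulerAPI) {Z : Type} [TopologicalSpace Z] {n : ℤ} (hZ : Chi Z n)
    {S : Set ℂ} {x : ℂ} (h : StarConvex ℝ x S) (hx : x ∈ S) :
    Chi (S × Z) n := by
  have := contr_of_star h hx
  exact hZ.prod_contr api _ _

/-- the negative of the slit plane -/
lemma star_neg_slit {x : ℝ} (hx : 0 < x) : StarConvex ℝ (-(x : ℂ)) {u : ℂ | -u ∈ Complex.slitPlane} := by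
  intro y hy a b ha hb hab
  have := (Complex.starConvex_ofReal_slitPlane hx) hy ha hb hab
  change -(a • (-(x : ℂ)) + b • y) ∈ Complex.slitPlane
  have e : -(a • (-(x : ℂ)) + b • y) = a • (x : ℂ) + b • (-y) := by
    simp only [smul_neg, neg_add, neg_neg]
  rw [e]; exact this

lemma isOpen_neg_slit : IsOpen {u : ℂ | -u ∈ Complex.slitPlane} :=
  Complex.isOpen_slitPlane.preimage continuous_neg

lemma slit_union : Complex.slitPlane ∪ {u : ℂ | -u ∈ Complex.slitPlane} = {u : ℂ | u ≠ 0} := by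
  ext u
  simp only [Set.mem_union, Set.mem_ofPred_eq, Complex.mem_slitPlane_iff, Complex.neg_re,
    Complex.neg_im, ne_eq, Complex.ext_iff, Complex.zero_re, Complex.zero_im]
  constructor
  · rintro ((h | h) | (h | h)) ⟨h1, h2⟩
    · linarith
    · exact h h2
    · linarith
    · exact h (by rw [h2]; simp)
  · intro h
    by_cases h2 : u.im = 0
    · have h1 : u.re ≠ 0 := fun h1 => h ⟨h1, h2⟩
      rcases lt_or_gt_of_ne h1 with h3 | h3
      · right; left; linarith
      · left; left; exact h3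
    · left; right; exact h2

lemma slit_inter : Complex.slitPlane ∩ {u : ℂ | -u ∈ Complex.slitPlane} = {u : ℂ | u.im ≠ 0} := by
  ext u
  simp only [Set.mem_inter_iff, Set.mem_ofPred_eq, Complex.mem_slitPlane_iff, Complex.neg_re,
    Complex.neg_im, ne_eq, neg_eq_zero]
  constructor
  · rintro ⟨h1 | h1, h2 | h2⟩
    · linarith
    · exact h2
    · exact h1
    · exact h1
  · intro h
    exact ⟨Or.inr h, Or.inr h⟩

end EP

open EP

/-- EP: products with `ℂˣ` -/
theorem EP.ep (api : EulerAPI) : EPStatement := by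
  intro Z _ hZ
  have hZ' : Chi Z (topEuler Z) := ⟨hZ, rfl⟩
  have h1 : Chi (Complex.slitPlane × Z) (topEuler Z) :=
    chi_prod_of_star api hZ' Complex.starConvex_one_slitPlane (by simp)
  have h2 : Chi ({u : ℂ | -u ∈ Complex.slitPlane} × Z) (topEuler Z) :=
    chi_prod_of_star api hZ' (star_neg_slit one_pos) (by simp)
  have h3 : Chi ({u : ℂ | 0 < u.im} × Z) (topEuler Z) :=
    chi_prod_of_star api hZ' (x := Complex.I)
      ((convex_halfSpace_im_gt 0).starConvex (by simp)) (by simp)
  have h4 : Chi ({u : ℂ | u.im < 0} × Z) (topEuler Z) :=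
    chi_prod_of_star api hZ' (x := -Complex.I)
      ((convex_halfSpace_im_lt 0).starConvex (by simp)) (by simp)
  have h5 : Chi ({u : ℂ | u.im ≠ 0} × Z) (topEuler Z + topEuler Z) := by
    apply Chi.union_disj_prod api Z (isOpen_lt continuous_const Complex.continuous_im)
      (isOpen_lt Complex.continuous_im continuous_const) _ _ h3 h4
    · ext u
      simp only [Set.mem_inter_iff, Set.mem_ofPred_eq, Set.mem_empty_iff_false, iff_false, not_and]
      intro h
      linarith
    · ext u
      simp only [Set.mem_union, Set.mem_ofPred_eq]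
      constructor
      · rintro (h | h)
        · exact h.ne'
        · exact h.ne
      · intro h
        rcases lt_or_gt_of_ne h with h | h
        · exact Or.inr h
        · exact Or.inl h
  have h6 := Chi.union_prod api Z Complex.isOpen_slitPlane isOpen_neg_slit slit_inter slit_union
    h1 h2 h5
  refine ⟨h6.1, ?_⟩
  have := h6.2
  rw [sub_self] at this
  exact this

/-- the half planes of E5 -/
private lemma EP.chiA (api : EulerAPI) : Chi {z : ℂ | -(2 / 3 : ℝ) < z.re ∧ z ≠ 0} 0 := by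
  have hconv : Convex ℝ {z : ℂ | -(2 / 3 : ℝ) < z.re} := convex_halfSpace_re_gt _
  have hopen : IsOpen {z : ℂ | -(2 / 3 : ℝ) < z.re} :=
    isOpen_lt continuous_const Complex.continuous_re
  have h1 : Chi ↥({z : ℂ | -(2 / 3 : ℝ) < z.re} ∩ Complex.slitPlane) 1 := by
    apply chi_of_star api (x := 1)
    · exact (hconv.starConvex (by simp; norm_num)).inter Complex.starConvex_one_slitPlane
    · simp; norm_num
  have h2 : Chi ↥({z : ℂ | -(2 / 3 : ℝ) < z.re} ∩ {u : ℂ | -u ∈ Complex.slitPlane}) 1 := by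
    have h0 : -(2 / 3 : ℝ) < (-((1 / 3 : ℝ) : ℂ)).re := by
      rw [Complex.neg_re, Complex.ofReal_re]; norm_num
    apply chi_of_star api (x := -((1 / 3 : ℝ) : ℂ))
    · exact (hconv.starConvex h0).inter (star_neg_slit (by norm_num))
    · refine ⟨h0, ?_⟩
      change - -((1 / 3 : ℝ) : ℂ) ∈ Complex.slitPlane
      rw [neg_neg, Complex.mem_slitPlane_iff]
      left
      rw [Complex.ofReal_re]; norm_num
  have h3 : Chi ↥({z : ℂ | -(2 / 3 : ℝ) < z.re} ∩ {u : ℂ | 0 < u.im}) 1 :=
    chi_of_star api (x := Complex.I) ((hconv.inter (convex_halfSpace_im_gt 0)).starConvex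
      (by simp)) (by simp)
  have h4 : Chi ↥({z : ℂ | -(2 / 3 : ℝ) < z.re} ∩ {u : ℂ | u.im < 0}) 1 :=
    chi_of_star api (x := -Complex.I) ((hconv.inter (convex_halfSpace_im_lt 0)).starConvex
      (by simp)) (by simp)
  have h5 : Chi ↥({z : ℂ | -(2 / 3 : ℝ) < z.re} ∩ {u : ℂ | u.im ≠ 0}) (1 + 1) := by
    apply Chi.union_disj api
      (hopen.inter (isOpen_lt continuous_const Complex.continuous_im))
      (hopen.inter (isOpen_lt Complex.continuous_im continuous_const)) _ _ h3 h4
    · ext u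
      simp only [Set.mem_inter_iff, Set.mem_ofPred_eq, Set.mem_empty_iff_false, iff_false, not_and]
      intro h h'
      have := h.2
      linarith
    · ext u
      simp only [Set.mem_union, Set.mem_ofPred_eq, Set.mem_inter_iff]
      constructor
      · rintro (⟨h', h⟩ | ⟨h', h⟩)
        · exact ⟨h', h.ne'⟩
        · exact ⟨h', h.ne⟩
      · rintro ⟨h', h⟩
        rcases lt_or_gt_of_ne h with h | h
        · exact Or.inr ⟨h', h⟩
        · exact Or.inl ⟨h', h⟩
  have h6 := Chi.union api (hopen.inter Complex.isOpen_slitPlane) (hopen.inter isOpen_neg_slit)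
    (C := {z : ℂ | -(2 / 3 : ℝ) < z.re} ∩ {u : ℂ | u.im ≠ 0})
    (D := {z : ℂ | -(2 / 3 : ℝ) < z.re ∧ z ≠ 0})
    (by rw [← Set.inter_inter_distrib_left, slit_inter])
    (by rw [← Set.inter_union_distrib_left, slit_union]; rfl) h1 h2 h5
  have e : (1 : ℤ) + 1 - (1 + 1) = 0 := by norm_num
  rwa [e] at h6

private lemma EP.chiB (api : EulerAPI) : Chi {z : ℂ | z.re < -(1 / 3 : ℝ) ∧ 1 + z ≠ 0} 0 := by
  refine (EP.chiA api).homeo api ?_
  refine
    { toFun := fun z => ⟨-1 - z.1, ?_, ?_⟩
      invFun := fun z => ⟨-1 - z.1, ?_, ?_⟩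
      left_inv := fun z => Subtype.ext (by simp)
      right_inv := fun z => Subtype.ext (by simp)
      continuous_toFun := by fun_prop
      continuous_invFun := by fun_prop }
  · have := z.2.1
    simp only [Complex.sub_re, Complex.neg_re, Complex.one_re]
    linarith
  · have := z.2.2
    intro h
    apply this
    linear_combination -h
  · have := z.2.1
    simp only [Complex.sub_re, Complex.neg_re, Complex.one_re]
    linarith
  · have := z.2.2
    intro h
    apply this
    linear_combination -h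

theorem EP.chiS5 (api : EulerAPI) : Chi S5 (-1) := by
  have hopenA : IsOpen {z : ℂ | -(2 / 3 : ℝ) < z.re ∧ z ≠ 0} :=
    (isOpen_lt continuous_const Complex.continuous_re).inter isOpen_ne
  have hopenB : IsOpen {z : ℂ | z.re < -(1 / 3 : ℝ) ∧ 1 + z ≠ 0} :=
    (isOpen_lt Complex.continuous_re continuous_const).inter
      (isOpen_ne_fun (by fun_prop) continuous_const)
  have hC : Chi {z : ℂ | -(2 / 3 : ℝ) < z.re ∧ z.re < -(1 / 3 : ℝ)} 1 := by
    have h0 : (-((1 / 2 : ℝ) : ℂ)) ∈ {z : ℂ | -(2 / 3 : ℝ) < z.re ∧ z.re < -(1 / 3 : ℝ)} := by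
      simp only [Set.mem_ofPred_eq, Complex.neg_re, Complex.ofReal_re]
      norm_num
    exact chi_of_star api (((convex_halfSpace_re_gt _).inter
      (convex_halfSpace_re_lt _)).starConvex h0) h0
  have h := Chi.union api hopenA hopenB
    (C := {z : ℂ | -(2 / 3 : ℝ) < z.re ∧ z.re < -(1 / 3 : ℝ)})
    (D := {p : ℂ | p ≠ 0 ∧ 1 + p ≠ 0})
    (by
      ext z
      simp only [Set.mem_inter_iff, Set.mem_ofPred_eq]
      constructor
      · rintro ⟨⟨h1, -⟩, ⟨h2, -⟩⟩
        exact ⟨h1, h2⟩
      · rintro ⟨h1, h2⟩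
        refine ⟨⟨h1, ?_⟩, h2, ?_⟩
        · rintro rfl
          rw [Complex.zero_re] at h2
          norm_num at h2
        · intro h3
          have := congrArg Complex.re h3
          simp only [Complex.add_re, Complex.one_re, Complex.zero_re] at this
          linarith)
    (by
      ext z
      simp only [Set.mem_union, Set.mem_ofPred_eq]
      constructor
      · rintro (⟨h1, h2⟩ | ⟨h1, h2⟩)
        · refine ⟨h2, fun h3 => ?_⟩
          have := congrArg Complex.re h3
          simp only [Complex.add_re, Complex.one_re, Complex.zero_re] at this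
          linarith
        · refine ⟨?_, h2⟩
          rintro rfl
          rw [Complex.zero_re] at h1
          norm_num at h1
      · rintro ⟨h1, h2⟩
        by_cases h3 : -(2 / 3 : ℝ) < z.re
        · exact Or.inl ⟨h3, h1⟩
        · exact Or.inr ⟨by linarith, h2⟩)
    (EP.chiA api) (EP.chiB api) hC
  have e : (0 : ℤ) + 0 - 1 = -1 := by norm_num
  rw [e] at h
  exact h

/-- E5: the twice punctured line -/
theorem EP.e5 (api : EulerAPI) : E5Statement := EP.chiS5 api

/-- `S3` is the product of the line with the twice punctured line -/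
def EP.homeoS3 : (ℂ × S5) ≃ₜ S3 where
  toFun p := ⟨(p.1, p.2.1), p.2.2⟩
  invFun p := (p.1.1, ⟨p.1.2, p.2⟩)
  left_inv _ := rfl
  right_inv _ := rfl
  continuous_toFun := by fun_prop
  continuous_invFun := by fun_prop

/-- `S2` is the product of the punctured line with the twice punctured line -/
def EP.homeoS2 : ({u : ℂ // u ≠ 0} × S5) ≃ₜ S2 where
  toFun p := ⟨(p.2.1, p.1.1), p.2.2.1, p.1.2, p.2.2.2⟩
  invFun p := (⟨p.1.2, p.2.2.1⟩, ⟨p.1.1, p.2.1, p.2.2.2⟩)
  left_inv _ := rfl
  right_inv _ := rfl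
  continuous_toFun := by fun_prop
  continuous_invFun := by fun_prop

theorem EP.chiS3 (api : EulerAPI) : Chi S3 (-1) :=
  ((EP.chiS5 api).prod_contr api ℂ S5).homeo api EP.homeoS3

theorem EP.chiS2 (api : EulerAPI) : Chi S2 0 :=
  Chi.homeo api (EP.ep api S5 (EP.chiS5 api).1) EP.homeoS2

theorem EP.euler_S3 (api : EulerAPI) : Good S3 ∧ topEuler S3 = -1 := EP.chiS3 api

theorem EP.euler_S2 (api : EulerAPI) : Good S2 ∧ topEuler S2 = 0 := EP.chiS2 api

end HoloConj
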