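import Pool.Agent.Lib.MP_ed311f_ag.Defs

/-!
# Functoriality and homotopy invariance of `Hmap`
-/

open CategoryTheory AlgebraicTopology Topology

namespace HoloConj

variable (K : Type) [Field K] (q : ℕ) {Z Z' Z'' : Type} [TopologicalSpace Z] [TopologicalSpace Z']
  [TopologicalSpace Z'']

theorem Hmap_id : Hmap K q (ContinuousMap.id Z) = LinearMap.id := by
  have : TopCat.ofHom (ContinuousMap.id Z) = 𝟙 (TopCat.of Z) := rfl
  rw [Hmap, this, CategoryTheory.Functor.map_id]
  rfl

theorem Hmap_comp (g : C(Z', Z'')) (f : C(Z, Z')) :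
    Hmap K q (g.comp f) = Hmap K q g ∘ₗ Hmap K q f := by
  have : TopCat.ofHom (g.comp f) = TopCat.ofHom f ≫ TopCat.ofHom g := rfl
  rw [Hmap, this, CategoryTheory.Functor.map_comp]
  rfl

theorem Hmap_comp_apply (g : C(Z', Z'')) (f : C(Z, Z')) (c : Hq K q Z) :
    Hmap K q (g.comp f) c = Hmap K q g (Hmap K q f c) := by
  rw [Hmap_comp]; rfl

theorem Hmap_eq_of_homotopy {f g : C(Z, Z')} (h : ContinuousMap.Homotopy f g) :
    Hmap K q f = Hmap K q g := by
  have h' : TopCat.Homotopy (TopCat.ofHom f) (TopCat.ofHom g) := h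
  have := h'.congr_homologyMap_singularChainComplexFunctor (C := ModuleCat.{0} K)
    (ModuleCat.of K K) q
  exact congrArg ModuleCat.Hom.hom this

theorem Hmap_eq_of_homotopic {f g : C(Z, Z')} (h : ContinuousMap.Homotopic f g) :
    Hmap K q f = Hmap K q g := by
  obtain ⟨h⟩ := h
  exact Hmap_eq_of_homotopy K q h

end HoloConj
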