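import Pool.Agent.Lib.MP_ed311f_ag.Pieces
import Pool.Agent.Lib.MP_ed311f_ag.Hlem

/-!
# Interface for Euler characteristics (statements only)
-/

open Topology ContinuousMap

namespace HoloConj

/-- finite total rational homology -/
def Good (Z : Type) [TopologicalSpace Z] : Prop :=
  (∀ q, Module.Finite ℚ (Hq ℚ q Z)) ∧ ∃ n, ∀ q, n ≤ q → Subsingleton (Hq ℚ q Z)

/-- The facts on Euler characteristics which are used (proved by helper23's package). -/
structure EulerAPI : Prop where
  contr : ∀ (Z : Type) [TopologicalSpace Z] [ContractibleSpace Z], Good Z ∧ topEuler Z = 1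
  equiv : ∀ (Z Z' : Type) [TopologicalSpace Z] [TopologicalSpace Z'], Nonempty (Z ≃ₕ Z') →
    Good Z → Good Z' ∧ topEuler Z' = topEuler Z
  union : ∀ (Z : Type) [TopologicalSpace Z] (U V : Set Z), IsOpen U → IsOpen V →
    U ∪ V = Set.univ → Good U → Good V → Good ↥(U ∩ V) →
    Good Z ∧ topEuler Z = topEuler U + topEuler V - topEuler ↥(U ∩ V)
  empty : ∀ (Z : Type) [TopologicalSpace Z], IsEmpty Z → Good Z ∧ topEuler Z = 0
  homeo : ∀ (Z Z' : Type) [TopologicalSpace Z] [TopologicalSpace Z'], (Z ≃ₜ Z') →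
    topEuler Z = topEuler Z'

/-- E5: the twice punctured line. -/
def E5Statement : Prop := Good S5 ∧ topEuler S5 = -1

/-- EP: products with `ℂˣ`. -/
def EPStatement : Prop := ∀ (Z : Type) [TopologicalSpace Z], Good Z →
  Good ({u : ℂ // u ≠ 0} × Z) ∧ topEuler ({u : ℂ // u ≠ 0} × Z) = 0

/-- E4 -/
def E4Statement : Prop := topEuler S4 = 1

/-- E1 -/
def E1Statement : Prop := topEuler S1 = 0

end HoloConj
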