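import Pool.Agent.Lib.MP_ed311f_ag.EulerAPI

/-!
# `EulerStatement` from the pieces
-/

open Topology ContinuousMap

namespace HoloConj

/-- `S2 ≅ ℂˣ × S5` -/
def homeoS2 : ({u : ℂ // u ≠ 0} × S5) ≃ₜ S2 where
  toFun p := ⟨(p.2.1, p.1.1), p.2.2.1, p.1.2, p.2.2.2⟩
  invFun p := (⟨p.1.2, p.2.2.1⟩, ⟨p.1.1, p.2.1, p.2.2.2⟩)
  left_inv _ := rfl
  right_inv _ := rfl
  continuous_toFun := by
    refine Continuous.subtype_mk ?_ _
    exact (continuous_subtype_val.comp continuous_snd).prodMk
      (continuous_subtype_val.comp continuous_fst)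
  continuous_invFun := by
    refine Continuous.prodMk ?_ ?_
    · exact Continuous.subtype_mk (continuous_snd.comp continuous_subtype_val) _
    · exact Continuous.subtype_mk (continuous_fst.comp continuous_subtype_val) _

/-- `S3 ≅ ℂ × S5` -/
def homeoS3 : (ℂ × S5) ≃ₜ S3 where
  toFun p := ⟨(p.1, p.2.1), p.2.2⟩
  invFun p := (p.1.1, ⟨p.1.2, p.2⟩)
  left_inv _ := rfl
  right_inv _ := rfl
  continuous_toFun := by
    refine Continuous.subtype_mk ?_ _
    exact continuous_fst.prodMk (continuous_subtype_val.comp continuous_snd)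
  continuous_invFun := by
    refine Continuous.prodMk ?_ ?_
    · exact continuous_fst.comp continuous_subtype_val
    · exact Continuous.subtype_mk (continuous_snd.comp continuous_subtype_val) _

/-- `S5` is homotopy equivalent to `ℂ × S5` -/
noncomputable def equivS3 : S5 ≃ₕ (ℂ × S5) where
  toFun := ⟨fun p => (0, p), by fun_prop⟩
  invFun := ⟨Prod.snd, continuous_snd⟩
  left_inv := by
    have h : (⟨Prod.snd, continuous_snd⟩ : C(ℂ × S5, S5)).comp
        (⟨fun p => (0, p), by fun_prop⟩ : C(S5, ℂ × S5)) = ContinuousMap.id S5 := rfl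
    rw [h]
  right_inv := by
    refine ⟨{ toFun := fun a => ((a.1 : ℝ) • a.2.1, a.2.2), continuous_toFun := ?_,
              map_zero_left := ?_, map_one_left := ?_ }⟩
    · fun_prop
    · intro a
      simp
    · intro a
      simp

theorem euler_all (A : EulerAPI) (h5 : E5Statement) (hP : EPStatement) (h4 : E4Statement)
    (h1 : E1Statement) : EulerStatement := by
  refine ⟨h1, ?_, ?_, h4, h5.2, A.homeo, fun Z _ h => (A.empty Z h).2⟩
  · rw [← A.homeo _ _ homeoS2]
    exact (hP S5 h5.1).2
  · rw [← A.homeo _ _ homeoS3, (A.equiv _ _ ⟨equivS3⟩ h5.1).2]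
    exact h5.2

end HoloConj
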