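import Pool.Agent.Lib.MP_ed311f_ag.EulerAPI
import Pool.Agent.Lib.SingHom.MVExact

/-!
# Proof of the interface for Euler characteristics
-/

open CategoryTheory Limits AlgebraicTopology Topology Pool.Agent.Lib.SingHom

namespace HoloConj

namespace EulerProof

/-! ### Finite sums -/

theorem topEuler_eq_sum {Z : Type} [TopologicalSpace Z] {n : ℕ}
    (h : ∀ q, n ≤ q → Subsingleton (Hq ℚ q Z)) {m : ℕ} (hm : n ≤ m) :
    topEuler Z = ∑ q ∈ Finset.range m, (-1) ^ q * (Module.finrank ℚ (Hq ℚ q Z) : ℤ) := by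
  rw [topEuler]
  apply finsum_eq_sum_of_support_subset
  intro q hq
  rw [Finset.coe_range, Set.mem_Iio]
  by_contra hlt
  have := h q (by omega)
  apply hq
  show (-1 : ℤ) ^ q * (Module.finrank ℚ (Hq ℚ q Z) : ℤ) = 0
  rw [Module.finrank_zero_of_subsingleton]
  simp

/-! ### Homotopy equivalences -/

/-- the isomorphism on homology given by a homotopy equivalence -/
noncomputable def HqEquiv {Z Z' : Type} [TopologicalSpace Z] [TopologicalSpace Z']
    (e : ContinuousMap.HomotopyEquiv Z Z') (q : ℕ) : Hq ℚ q Z ≃ₗ[ℚ] Hq ℚ q Z' :=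
  LinearEquiv.ofLinearMap (Hmap ℚ q e.toFun) (Hmap ℚ q e.invFun)
    (by rw [← Hmap_comp, Hmap_eq_of_homotopic ℚ q e.right_inv, Hmap_id])
    (by rw [← Hmap_comp, Hmap_eq_of_homotopic ℚ q e.left_inv, Hmap_id])

theorem topEuler_congr {Z Z' : Type} [TopologicalSpace Z] [TopologicalSpace Z']
    (e : ContinuousMap.HomotopyEquiv Z Z') : topEuler Z = topEuler Z' := by
  rw [topEuler, topEuler]
  congr 1
  funext q
  rw [(HqEquiv e q).finrank_eq]

theorem good_congr {Z Z' : Type} [TopologicalSpace Z] [TopologicalSpace Z']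
    (e : ContinuousMap.HomotopyEquiv Z Z') (h : Good Z) : Good Z' := by
  refine ⟨fun q => ?_, ?_⟩
  · have := h.1 q
    exact Module.Finite.equiv (HqEquiv e q)
  · obtain ⟨n, hn⟩ := h.2
    refine ⟨n, fun q hq => ?_⟩
    have := hn q hq
    exact (HqEquiv e q).symm.injective.subsingleton

/-! ### The empty space -/

theorem subsingleton_of_isEmpty {Z : Type} [TopologicalSpace Z] [IsEmpty Z] (q : ℕ) :
    Subsingleton (Hq ℚ q Z) := by
  have h1 : Subsingleton (SC ℚ Z q) := by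
    have : IsEmpty C(Sx q, Z) := ⟨fun σ => isEmptyElim (σ (vx q 0))⟩
    infer_instance
  have h2 : Subsingleton (Zc ℚ Z q) := Subtype.val_injective.subsingleton
  exact (cls_surjective ℚ q).subsingleton

/-! ### Contractible spaces -/

theorem good_punit : Good Unit ∧ topEuler Unit = 1 := by
  have h1 : ∀ q, q ≠ 0 → Subsingleton (Hq ℚ q Unit) := by
    intro q hq
    exact ModuleCat.subsingleton_of_isZero
      (isZero_singularHomologyFunctor_of_totallyDisconnectedSpace (ModuleCat.{0} ℚ) q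
        (ModuleCat.of ℚ ℚ) (TopCat.of Unit) hq)
  have h2 : Hq ℚ 0 Unit ≃ₗ[ℚ] ℚ := by
    have : PathConnectedSpace (TopCat.of Unit) := inferInstanceAs (PathConnectedSpace Unit)
    exact (asIso ((TopCat.of Unit).singularHomology₀ε (ModuleCat.of ℚ ℚ))).toLinearEquiv
  have h3 : ∀ q, 1 ≤ q → Subsingleton (Hq ℚ q Unit) := fun q hq => h1 q (by omega)
  refine ⟨⟨?_, 1, h3⟩, ?_⟩
  · intro q
    rcases Nat.eq_zero_or_pos q with rfl | hq
    · exact Module.Finite.equiv h2.symm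
    · have := h3 q hq
      infer_instance
  · rw [topEuler_eq_sum h3 le_rfl, Finset.sum_range_one, h2.finrank_eq]
    simp

theorem good_contractible {Z : Type} [TopologicalSpace Z] [ContractibleSpace Z] :
    Good Z ∧ topEuler Z = 1 := by
  obtain ⟨e⟩ := ContractibleSpace.hequiv_unit Z
  exact ⟨good_congr e.symm good_punit.1, (topEuler_congr e).trans good_punit.2⟩

/-! ### Open covers -/

section cover

variable {Z : Type} [TopologicalSpace Z] {U V : Set Z}

theorem finrank_quot (hU : IsOpen U) (hV : IsOpen V) (hUV : U ∪ V = Set.univ) (q : ℕ) :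
    Module.finrank ℚ (Hq ℚ (q + 1) Z ⧸ LinearMap.range (mvβ ℚ U V (q + 1))) =
      Module.finrank ℚ (LinearMap.ker (mvα ℚ U V q)) := by
  obtain ⟨e⟩ := exists_mvConn (K := ℚ) hU hV hUV q
  exact e.finrank_eq.symm

theorem finite_succ (hU : IsOpen U) (hV : IsOpen V) (hUV : U ∪ V = Set.univ) (q : ℕ)
    [Module.Finite ℚ (Hq ℚ (q + 1) U)] [Module.Finite ℚ (Hq ℚ (q + 1) V)]
    [Module.Finite ℚ (Hq ℚ q ↥(U ∩ V))] : Module.Finite ℚ (Hq ℚ (q + 1) Z) := by
  obtain ⟨e⟩ := exists_mvConn (K := ℚ) hU hV hUV q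
  have : Module.Finite ℚ (Hq ℚ (q + 1) Z ⧸ LinearMap.range (mvβ ℚ U V (q + 1))) :=
    Module.Finite.equiv e
  exact Module.Finite.of_submodule_quotient (LinearMap.range (mvβ ℚ U V (q + 1)))

theorem finite_zero (hU : IsOpen U) (hV : IsOpen V) (hUV : U ∪ V = Set.univ)
    [Module.Finite ℚ (Hq ℚ 0 U)] [Module.Finite ℚ (Hq ℚ 0 V)] :
    Module.Finite ℚ (Hq ℚ 0 Z) :=
  Module.Finite.of_surjective (mvβ ℚ U V 0)
    (LinearMap.range_eq_top.1 (mvβ_zero_surjective hU hV hUV))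

theorem subsingleton_succ (hU : IsOpen U) (hV : IsOpen V) (hUV : U ∪ V = Set.univ) (q : ℕ)
    [Subsingleton (Hq ℚ (q + 1) U)] [Subsingleton (Hq ℚ (q + 1) V)]
    [Subsingleton (Hq ℚ q ↥(U ∩ V))] : Subsingleton (Hq ℚ (q + 1) Z) := by
  obtain ⟨e⟩ := exists_mvConn (K := ℚ) hU hV hUV q
  have h1 : Subsingleton (Hq ℚ (q + 1) Z ⧸ LinearMap.range (mvβ ℚ U V (q + 1))) :=
    e.symm.injective.subsingleton
  have h2 : Function.Surjective (mvβ ℚ U V (q + 1)) := by
    intro x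
    have h3 : (Submodule.Quotient.mk x :
        Hq ℚ (q + 1) Z ⧸ LinearMap.range (mvβ ℚ U V (q + 1))) = 0 := Subsingleton.elim _ _
    exact (Submodule.Quotient.mk_eq_zero _).1 h3
  exact h2.subsingleton

theorem rank_range (hU : IsOpen U) (hV : IsOpen V) (hUV : U ∪ V = Set.univ) (q : ℕ)
    [Module.Finite ℚ (Hq ℚ q U)] [Module.Finite ℚ (Hq ℚ q V)]
    [Module.Finite ℚ (Hq ℚ q ↥(U ∩ V))] :
    (Module.finrank ℚ (LinearMap.range (mvβ ℚ U V q)) : ℤ) =
      Module.finrank ℚ (Hq ℚ q U) + Module.finrank ℚ (Hq ℚ q V) -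
        Module.finrank ℚ (Hq ℚ q ↥(U ∩ V)) + Module.finrank ℚ (LinearMap.ker (mvα ℚ U V q)) := by
  have h1 := LinearMap.finrank_range_add_finrank_ker (mvα ℚ U V q)
  have h2 := LinearMap.finrank_range_add_finrank_ker (mvβ ℚ U V q)
  rw [Module.finrank_prod, ← range_mvα hU hV hUV] at h2
  omega

theorem rank_zero (hU : IsOpen U) (hV : IsOpen V) (hUV : U ∪ V = Set.univ)
    [Module.Finite ℚ (Hq ℚ 0 U)] [Module.Finite ℚ (Hq ℚ 0 V)]
    [Module.Finite ℚ (Hq ℚ 0 ↥(U ∩ V))] :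
    (Module.finrank ℚ (Hq ℚ 0 Z) : ℤ) =
      Module.finrank ℚ (Hq ℚ 0 U) + Module.finrank ℚ (Hq ℚ 0 V) -
        Module.finrank ℚ (Hq ℚ 0 ↥(U ∩ V)) + Module.finrank ℚ (LinearMap.ker (mvα ℚ U V 0)) := by
  have h1 := rank_range hU hV hUV 0
  rw [mvβ_zero_surjective hU hV hUV, finrank_top] at h1
  exact h1

theorem rank_succ (hU : IsOpen U) (hV : IsOpen V) (hUV : U ∪ V = Set.univ) (q : ℕ)
    [Module.Finite ℚ (Hq ℚ (q + 1) U)] [Module.Finite ℚ (Hq ℚ (q + 1) V)]
    [Module.Finite ℚ (Hq ℚ (q + 1) ↥(U ∩ V))] [Module.Finite ℚ (Hq ℚ q ↥(U ∩ V))] :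
    (Module.finrank ℚ (Hq ℚ (q + 1) Z) : ℤ) =
      Module.finrank ℚ (Hq ℚ (q + 1) U) + Module.finrank ℚ (Hq ℚ (q + 1) V) -
        Module.finrank ℚ (Hq ℚ (q + 1) ↥(U ∩ V)) +
        Module.finrank ℚ (LinearMap.ker (mvα ℚ U V (q + 1))) +
        Module.finrank ℚ (LinearMap.ker (mvα ℚ U V q)) := by
  have := finite_succ hU hV hUV q
  have h1 := rank_range hU hV hUV (q + 1)
  have h2 := (LinearMap.range (mvβ ℚ U V (q + 1))).finrank_quotient_add_finrank
  rw [finrank_quot hU hV hUV q] at h2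
  omega

theorem good_union (hU : IsOpen U) (hV : IsOpen V) (hUV : U ∪ V = Set.univ)
    (gU : Good U) (gV : Good V) (gW : Good ↥(U ∩ V)) :
    Good Z ∧ topEuler Z = topEuler U + topEuler V - topEuler ↥(U ∩ V) := by
  obtain ⟨fU, nU, sU⟩ := gU
  obtain ⟨fV, nV, sV⟩ := gV
  obtain ⟨fW, nW, sW⟩ := gW
  let N := nU + nV + nW
  have sZ : ∀ q, N + 1 ≤ q → Subsingleton (Hq ℚ q Z) := by
    intro q hq
    obtain ⟨q, rfl⟩ : ∃ q', q = q' + 1 := ⟨q - 1, by omega⟩
    have := sU (q + 1) (by omega)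
    have := sV (q + 1) (by omega)
    have := sW q (by omega)
    exact subsingleton_succ hU hV hUV q
  have gZ : Good Z := by
    refine ⟨fun q => ?_, N + 1, sZ⟩
    cases q with
    | zero => exact finite_zero hU hV hUV
    | succ q => exact finite_succ hU hV hUV q
  refine ⟨gZ, ?_⟩
  have key : ∀ m : ℕ, ∑ q ∈ Finset.range (m + 1), (-1) ^ q * (Module.finrank ℚ (Hq ℚ q Z) : ℤ) =
      ∑ q ∈ Finset.range (m + 1), (-1) ^ q * (Module.finrank ℚ (Hq ℚ q U) : ℤ) +
      ∑ q ∈ Finset.range (m + 1), (-1) ^ q * (Module.finrank ℚ (Hq ℚ q V) : ℤ) -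
      ∑ q ∈ Finset.range (m + 1), (-1) ^ q * (Module.finrank ℚ (Hq ℚ q ↥(U ∩ V)) : ℤ) +
      (-1) ^ m * (Module.finrank ℚ (LinearMap.ker (mvα ℚ U V m)) : ℤ) := by
    intro m
    induction m with
    | zero =>
      rw [Finset.sum_range_one, Finset.sum_range_one, Finset.sum_range_one, Finset.sum_range_one,
        rank_zero hU hV hUV]
      ring
    | succ m ih =>
      rw [Finset.sum_range_succ, ih, Finset.sum_range_succ _ (m + 1),
        Finset.sum_range_succ _ (m + 1), Finset.sum_range_succ _ (m + 1), rank_succ hU hV hUV m]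
      ring
  rw [topEuler_eq_sum sZ le_rfl, key N,
    topEuler_eq_sum sU (m := N + 1) (by omega), topEuler_eq_sum sV (m := N + 1) (by omega),
    topEuler_eq_sum sW (m := N + 1) (by omega)]
  have := sW N (by omega)
  rw [Module.finrank_zero_of_subsingleton (M := LinearMap.ker (mvα ℚ U V N))]
  simp

end cover

end EulerProof

open EulerProof in
theorem eulerAPI : EulerAPI where
  contr _ _ _ := good_contractible
  equiv _ _ _ _ h g := by
    obtain ⟨e⟩ := h
    exact ⟨good_congr e g, (topEuler_congr e).symm⟩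
  union _ _ _ _ hU hV hUV gU gV gW := good_union hU hV hUV gU gV gW
  empty Z _ h := by
    have h1 : ∀ q, 0 ≤ q → Subsingleton (Hq ℚ q Z) := fun q _ => subsingleton_of_isEmpty q
    refine ⟨⟨fun q => ?_, 0, h1⟩, ?_⟩
    · have := h1 q (Nat.zero_le q)
      infer_instance
    · rw [topEuler_eq_sum h1 le_rfl]
      rfl
  homeo _ _ _ _ e := topEuler_congr e.toHomotopyEquiv

end HoloConj
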