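import Mathlib

/-!
# The fan of the toric resolution (data)

18 rays, 48 unimodular cones of dimension 4 (each a sorted 4-tuple of ray indices), a strictly
convex support function. Monomials of `fpoly`: `A = x²y`, `E = y z² w`, `H = y² w²`, `B = y⁴ w`.
-/

namespace HoloConj

/-- primitive generators of the rays -/
def ray : Fin 18 → Fin 4 → ℤ :=
  ![![1, 0, 0, 0],
    ![0, 1, 0, 0],
    ![0, 0, 1, 0],
    ![0, 0, 0, 1],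
    ![1, 0, 0, 1],
    ![1, 1, 1, 0],
    ![1, 0, 0, 2],
    ![1, 2, 1, 0],
    ![1, 1, 1, 1],
    ![2, 1, 1, 1],
    ![1, 2, 2, 0],
    ![2, 1, 1, 2],
    ![2, 2, 2, 1],
    ![3, 1, 2, 2],
    ![3, 2, 2, 2],
    ![3, 1, 2, 3],
    ![4, 2, 3, 3],
    ![5, 2, 3, 4]]

/-- the maximal cones -/
def cone : Fin 48 → Fin 4 → Fin 18 :=
  ![![0, 1, 4, 11],
    ![0, 1, 7, 9],
    ![0, 1, 9, 11],
    ![0, 2, 4, 13],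
    ![0, 2, 5, 9],
    ![0, 2, 9, 13],
    ![0, 4, 11, 17],
    ![0, 4, 13, 17],
    ![0, 5, 7, 9],
    ![0, 9, 11, 17],
    ![0, 9, 13, 17],
    ![1, 2, 3, 8],
    ![1, 2, 8, 14],
    ![1, 2, 10, 12],
    ![1, 2, 12, 14],
    ![1, 3, 6, 11],
    ![1, 3, 8, 14],
    ![1, 3, 11, 14],
    ![1, 4, 6, 11],
    ![1, 7, 9, 14],
    ![1, 7, 10, 12],
    ![1, 7, 12, 14],
    ![1, 9, 11, 14],
    ![2, 3, 6, 11],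
    ![2, 3, 8, 14],
    ![2, 3, 11, 14],
    ![2, 4, 6, 15],
    ![2, 4, 13, 17],
    ![2, 4, 15, 17],
    ![2, 5, 9, 14],
    ![2, 5, 10, 12],
    ![2, 5, 12, 14],
    ![2, 6, 11, 15],
    ![2, 9, 13, 17],
    ![2, 9, 14, 16],
    ![2, 9, 16, 17],
    ![2, 11, 14, 16],
    ![2, 11, 15, 17],
    ![2, 11, 16, 17],
    ![4, 6, 11, 17],
    ![4, 6, 15, 17],
    ![5, 7, 9, 14],
    ![5, 7, 10, 12],
    ![5, 7, 12, 14],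
    ![6, 11, 15, 17],
    ![9, 11, 14, 17],
    ![9, 14, 16, 17],
    ![11, 14, 16, 17]]

/-- dual bases: `dual σ k` is the linear form which is `1` on the `k`-th ray of `σ` and `0` on the
other rays of `σ` -/
def dual : Fin 48 → Fin 4 → Fin 4 → ℤ :=
  ![![![1, 0, 0, -1], ![0, 1, -1, 0], ![0, 0, -2, 1], ![0, 0, 1, 0]],
    ![![1, 0, -1, -1], ![0, 1, -2, 1], ![0, 0, 1, -1], ![0, 0, 0, 1]],
    ![![1, 0, -2, 0], ![0, 1, -1, 0], ![0, 0, 2, -1], ![0, 0, -1, 1]],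
    ![![1, -1, 0, -1], ![0, -2, 1, 0], ![0, -2, 0, 1], ![0, 1, 0, 0]],
    ![![1, -1, 0, -1], ![0, -1, 1, 0], ![0, 1, 0, -1], ![0, 0, 0, 1]],
    ![![1, -1, 0, -1], ![0, 0, 1, -1], ![0, 2, 0, -1], ![0, -1, 0, 1]],
    ![![1, 1, -1, -1], ![0, -2, 0, 1], ![0, 3, -2, 0], ![0, -1, 1, 0]],
    ![![1, 1, -1, -1], ![0, -2, 0, 1], ![0, -3, 2, 0], ![0, 2, -1, 0]],
    ![![1, 0, -1, -1], ![0, -1, 2, -1], ![0, 1, -1, 0], ![0, 0, 0, 1]],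
    ![![1, -1, -1, 0], ![0, 2, 0, -1], ![0, 1, -2, 1], ![0, -1, 1, 0]],
    ![![1, -1, -1, 0], ![0, 2, 0, -1], ![0, -1, 2, -1], ![0, 0, -1, 1]],
    ![![-1, 1, 0, 0], ![-1, 0, 1, 0], ![-1, 0, 0, 1], ![1, 0, 0, 0]],
    ![![0, 1, 0, -1], ![0, 0, 1, -1], ![-2, 0, 0, 3], ![1, 0, 0, -1]],
    ![![-2, 1, 0, 2], ![-2, 0, 1, 2], ![1, 0, 0, -2], ![0, 0, 0, 1]],
    ![![-2, 1, 0, 2], ![-2, 0, 1, 2], ![2, 0, 0, -3], ![-1, 0, 0, 2]],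
    ![![0, 1, -1, 0], ![-2, 0, 2, 1], ![1, 0, -2, 0], ![0, 0, 1, 0]],
    ![![0, 1, -1, 0], ![0, 0, -1, 1], ![-2, 0, 3, 0], ![1, 0, -1, 0]],
    ![![0, 1, -1, 0], ![-2, 0, 2, 1], ![2, 0, -3, 0], ![-1, 0, 2, 0]],
    ![![0, 1, -1, 0], ![2, 0, -2, -1], ![-1, 0, 0, 1], ![0, 0, 1, 0]],
    ![![0, 1, -2, 1], ![0, 0, 1, -1], ![2, 0, -2, -1], ![-1, 0, 1, 1]],
    ![![-2, 1, 0, 2], ![2, 0, -1, -2], ![-1, 0, 1, 0], ![0, 0, 0, 1]],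
    ![![-2, 1, 0, 2], ![2, 0, -1, -2], ![-2, 0, 2, 1], ![1, 0, -1, 0]],
    ![![0, 1, -1, 0], ![2, 0, -2, -1], ![0, 0, -1, 1], ![-1, 0, 2, 0]],
    ![![0, -1, 1, 0], ![-2, 2, 0, 1], ![1, -2, 0, 0], ![0, 1, 0, 0]],
    ![![0, -1, 1, 0], ![0, -1, 0, 1], ![-2, 3, 0, 0], ![1, -1, 0, 0]],
    ![![0, -1, 1, 0], ![-2, 2, 0, 1], ![2, -3, 0, 0], ![-1, 2, 0, 0]],
    ![![0, -2, 1, 0], ![2, -3, 0, -1], ![-1, 0, 0, 1], ![0, 1, 0, 0]],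
    ![![-1, -1, 1, 1], ![0, -2, 0, 1], ![2, -1, 0, -2], ![-1, 1, 0, 1]],
    ![![1, -2, 1, -1], ![2, -3, 0, -1], ![-2, 1, 0, 2], ![1, 0, 0, -1]],
    ![![0, -1, 1, 0], ![0, 1, 0, -1], ![2, -2, 0, -1], ![-1, 1, 0, 1]],
    ![![0, -1, 1, 0], ![2, -1, 0, -2], ![-1, 1, 0, 0], ![0, 0, 0, 1]],
    ![![0, -1, 1, 0], ![2, -1, 0, -2], ![-2, 2, 0, 1], ![1, -1, 0, 0]],
    ![![-2, 1, 1, 1], ![-1, 0, 0, 1], ![-2, 3, 0, 1], ![2, -2, 0, -1]],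
    ![![-1, 1, 1, 0], ![0, 2, 0, -1], ![2, -3, 0, -1], ![-1, 1, 0, 1]],
    ![![0, 0, 1, -1], ![2, -1, 0, -2], ![-1, 2, 0, 0], ![0, -1, 0, 1]],
    ![![1, -2, 1, -1], ![2, -1, 0, -2], ![-2, 3, 0, 1], ![1, -2, 0, 0]],
    ![![-2, 1, 1, 1], ![-2, 1, 0, 2], ![-1, 2, 0, 0], ![2, -2, 0, -1]],
    ![![-1, 1, 1, 0], ![-2, 3, 0, 1], ![0, -2, 0, 1], ![1, 0, 0, -1]],
    ![![-1, -1, 1, 1], ![-2, 1, 0, 2], ![0, 2, 0, -1], ![1, -2, 0, 0]],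
    ![![2, 0, -2, -1], ![-1, -1, 1, 1], ![0, 3, -2, 0], ![0, -1, 1, 0]],
    ![![2, -3, 0, -1], ![-1, 2, -1, 1], ![0, -3, 2, 0], ![0, 2, -1, 0]],
    ![![0, -1, 2, -1], ![0, 1, -1, 0], ![2, 0, -2, -1], ![-1, 0, 1, 1]],
    ![![2, -1, 0, -2], ![0, 1, -1, 0], ![-1, 0, 1, 0], ![0, 0, 0, 1]],
    ![![2, -1, 0, -2], ![0, 1, -1, 0], ![-2, 0, 2, 1], ![1, 0, -1, 0]],
    ![![1, -1, -1, 0], ![-2, 3, 0, 1], ![-2, 0, 2, 1], ![2, -1, -1, -1]],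
    ![![2, 0, -2, -1], ![0, 1, -2, 1], ![-1, 1, 1, 0], ![0, -1, 1, 0]],
    ![![2, -1, 0, -2], ![-1, 2, -1, 1], ![0, -1, 2, -1], ![0, 0, -1, 1]],
    ![![-2, 1, 0, 2], ![1, 1, -1, -1], ![-2, 0, 2, 1], ![2, -1, -1, -1]]]

/-- values of the support function on the rays -/
def supp : Fin 18 → ℤ := ![0, 0, 0, 0, 7, 10, 10, 11, 23, 36, 12, 44, 41, 48, 68, 53, 82, 95]

/-- exponents of the four monomials of `fpoly` -/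
def expo : Fin 4 → Fin 4 → ℤ := ![![2, 1, 0, 0], ![0, 1, 2, 1], ![0, 2, 0, 2], ![0, 4, 0, 1]]

/-- multiplicity of `f ∘ h` along the divisor of a ray -/
def rN : Fin 18 → ℕ := ![0, 1, 0, 0, 1, 2, 2, 4, 3, 4, 4, 5, 6, 6, 8, 7, 10, 12]

/-- `ν` of the divisor of a ray -/
def rnu : Fin 18 → ℕ := ![1, 1, 1, 1, 2, 3, 3, 4, 4, 5, 5, 6, 7, 8, 9, 9, 12, 14]

def pair (m v : Fin 4 → ℤ) : ℤ := m 0 * v 0 + m 1 * v 1 + m 2 * v 2 + m 3 * v 3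

/-- the linear form of the support function on the cone `σ` -/
def lin (σ : Fin 48) (i : Fin 4) : ℤ :=
  supp (cone σ 0) * dual σ 0 i + supp (cone σ 1) * dual σ 1 i + supp (cone σ 2) * dual σ 2 i +
    supp (cone σ 3) * dual σ 3 i

theorem dual_ray : ∀ (σ : Fin 48) (k l : Fin 4), pair (dual σ k) (ray (cone σ l)) =
    if k = l then 1 else 0 := by decide +kernel

theorem supp_strict : ∀ (σ : Fin 48) (ρ : Fin 18), (∀ k, cone σ k ≠ ρ) →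
    supp ρ < pair (lin σ) (ray ρ) := by decide +kernel

theorem wall : ∀ (σ : Fin 48) (k : Fin 4),
    (∃ i : Fin 4, ∀ j : Fin 4, dual σ k j = if j = i then 1 else 0) ∨
    ∃ τ : Fin 48, τ ≠ σ ∧ ∀ l, l ≠ k → ∃ l', cone τ l' = cone σ l := by decide +kernel

theorem rN_eq : ∀ ρ : Fin 18, (∀ j, (rN ρ : ℤ) ≤ pair (expo j) (ray ρ)) ∧
    ∃ j, (rN ρ : ℤ) = pair (expo j) (ray ρ) := by decide +kernel

theorem rnu_eq : ∀ ρ : Fin 18, (rnu ρ : ℤ) = ray ρ 0 + ray ρ 1 + ray ρ 2 + ray ρ 3 := by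
  decide +kernel

theorem newton : ∀ σ : Fin 48, ∃ j, ∀ k, pair (expo j) (ray (cone σ k)) = rN (cone σ k) := by
  decide +kernel

end HoloConj
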