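import Pool.Agent.Lib.MP_ed311f_ag.Pieces

/-!
# Assembly
-/

namespace HoloConj

theorem fpoly_ne_C (c : ℂ) : fpoly ≠ MvPolynomial.C c := by
  intro h
  have h0 : MvPolynomial.eval (0 : Fin 4 → ℂ) fpoly = c := by rw [h, MvPolynomial.eval_C]
  have h1 : MvPolynomial.eval (![1, 1, 0, 0] : Fin 4 → ℂ) fpoly = c := by
    rw [h, MvPolynomial.eval_C]
  rw [eval_fpoly] at h0 h1
  rw [← h0] at h1
  simp [ff] at h1

theorem final (hM : MonodromyStatement) (hR : ResolutionStatement) :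
    ∃ f : MvPolynomial (Fin 4) ℂ, (∀ c : ℂ, f ≠ MvPolynomial.C c) ∧
    (∀ x : Fin 4 → ℂ, MvPolynomial.eval x f = 0 → ∀ (q : ℕ) (μ : ℂ),
      IsMonodromyEigenvalue (fun v => MvPolynomial.eval v f) x q μ → ¬ 4 ∣ orderOf μ) ∧
    ∃ R : EmbeddedResolution f,
      ¬ ∃ p : Polynomial ℚ, algebraMap (Polynomial ℚ) (RatFunc ℚ) p = R.twistedZeta 4 := by
  refine ⟨fpoly, fpoly_ne_C, ?_, hR⟩
  intro x hx q μ hμ h4
  have hf : (fun v => MvPolynomial.eval v fpoly) = ff := funext eval_fpoly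
  rw [hf] at hμ
  rw [eval_fpoly] at hx
  have h6 : orderOf μ ∣ 6 := orderOf_dvd_of_pow_eq_one (hM x hx q μ hμ)
  have : 4 ∣ 6 := h4.trans h6
  norm_num at this

end HoloConj
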