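import Pool.Agent.Lib.MP_ed311f_ag.Pieces
import Pool.Agent.Lib.MP_ed311f_ag.Hlem

/-!
# M1: eigenvalues of the monodromy at points where `T^k` is unipotent
-/

open Topology

namespace HoloConj

section

variable {X : Type} [TopologicalSpace X] (f : X → ℂ)

theorem deck_incl {W' W : Set X} (h : W' ⊆ W) :
    (deck f W).comp (Tube.incl f h) = (Tube.incl f h).comp (deck f W') := rfl

theorem incl_incl {W'' W' W : Set X} (h' : W'' ⊆ W') (h : W' ⊆ W) :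
    (Tube.incl f h).comp (Tube.incl f h') = Tube.incl f (h'.trans h) := rfl

theorem Hmap_deck_incl (q : ℕ) {W' W : Set X} (h : W' ⊆ W) :
    Hmap ℂ q (deck f W) ∘ₗ Hmap ℂ q (Tube.incl f h) =
      Hmap ℂ q (Tube.incl f h) ∘ₗ Hmap ℂ q (deck f W') := by
  rw [← Hmap_comp, ← Hmap_comp, deck_incl]

end

/-- abstract linear algebra: if `ξ ∘ T = μ ξ` on the image of `ι` (which is `T`-stable) then
`ξ ∘ P(T) = P(μ) ξ` there. -/
theorem eig_pow {V U : Type*} [AddCommGroup V] [Module ℂ V] [AddCommGroup U] [Module ℂ U]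
    (T : Module.End ℂ V) (T' : Module.End ℂ U) (ι : U →ₗ[ℂ] V) (hι : T ∘ₗ ι = ι ∘ₗ T')
    (ξ : V →ₗ[ℂ] ℂ) (μ : ℂ) (hξ : (ξ ∘ₗ T - μ • ξ) ∘ₗ ι = 0) (k m : ℕ) :
    (ξ ∘ₗ ((T ^ k - 1) ^ m : Module.End ℂ V)) ∘ₗ ι = ((μ ^ k - 1) ^ m) • (ξ ∘ₗ ι) := by
  have hι' : ∀ u, T (ι u) = ι (T' u) := fun u => LinearMap.congr_fun hι u
  have h1 : ∀ u, ξ (T (ι u)) = μ * ξ (ι u) := by
    intro u
    have := LinearMap.congr_fun hξ u
    simp only [LinearMap.comp_apply, LinearMap.sub_apply, LinearMap.smul_apply, smul_eq_mul,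
      LinearMap.zero_apply] at this
    linear_combination this
  have h2 : ∀ (n : ℕ) u, (T ^ n) (ι u) = ι ((T' ^ n) u) := by
    intro n
    induction n with
    | zero => intro u; rfl
    | succ n ih =>
      intro u
      rw [pow_succ, pow_succ]
      show (T ^ n) (T (ι u)) = ι ((T' ^ n) (T' u))
      rw [hι', ih]
  have h3 : ∀ (n : ℕ) u, ξ ((T ^ n) (ι u)) = μ ^ n * ξ (ι u) := by
    intro n
    induction n with
    | zero => intro u; simp
    | succ n ih =>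
      intro u
      rw [pow_succ]
      show ξ ((T ^ n) (T (ι u))) = _
      rw [hι', ih, ← hι', h1, pow_succ]
      ring
  have h4 : ∀ u, (T ^ k - 1 : Module.End ℂ V) (ι u) = ι ((T' ^ k - 1 : Module.End ℂ U) u) := by
    intro u
    simp only [LinearMap.sub_apply, Module.End.one_apply, map_sub, h2]
  have h5 : ∀ (n : ℕ) u, ξ (((T ^ k - 1) ^ n : Module.End ℂ V) (ι u)) =
      (μ ^ k - 1) ^ n * ξ (ι u) := by
    intro n
    induction n with
    | zero => intro u; simp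
    | succ n ih =>
      intro u
      rw [pow_succ]
      show ξ (((T ^ k - 1) ^ n : Module.End ℂ V) ((T ^ k - 1 : Module.End ℂ V) (ι u))) = _
      rw [h4, ih, ← h4]
      simp only [LinearMap.sub_apply, Module.End.one_apply, map_sub, h3]
      ring
  ext u
  simp only [LinearMap.comp_apply, LinearMap.smul_apply, smul_eq_mul]
  exact h5 m u

theorem m1 : M1Statement := by
  intro X _ f x k q μ hU hE
  obtain ⟨W, hW, ξ, hne, W₁, hW₁, h₁, hξ⟩ := hE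
  obtain ⟨W₂, hW₂, h₂, hk⟩ := hU W hW
  obtain ⟨m, hm⟩ := hk q
  -- common neighbourhood
  have hW₃ : W₁ ∩ W₂ ∈ 𝓝 x := Filter.inter_mem hW₁ hW₂
  have h₃₁ : W₁ ∩ W₂ ⊆ W₁ := Set.inter_subset_left
  have h₃₂ : W₁ ∩ W₂ ⊆ W₂ := Set.inter_subset_right
  have h₃ : W₁ ∩ W₂ ⊆ W := h₃₁.trans h₁
  have e1 : Hmap ℂ q (Tube.incl f h₃) = Hmap ℂ q (Tube.incl f h₁) ∘ₗ
      Hmap ℂ q (Tube.incl f h₃₁) := by
    rw [← Hmap_comp, incl_incl]
  have e2 : Hmap ℂ q (Tube.incl f h₃) = Hmap ℂ q (Tube.incl f h₂) ∘ₗ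
      Hmap ℂ q (Tube.incl f h₃₂) := by
    rw [← Hmap_comp, incl_incl]
  have a1 : (ξ ∘ₗ Hmap ℂ q (deck f W) - μ • ξ) ∘ₗ Hmap ℂ q (Tube.incl f h₃) = 0 := by
    rw [e1, ← LinearMap.comp_assoc, hξ, LinearMap.zero_comp]
  have a2 := eig_pow (Hmap ℂ q (deck f W)) (Hmap ℂ q (deck f (W₁ ∩ W₂)))
    (Hmap ℂ q (Tube.incl f h₃)) (Hmap_deck_incl f q h₃) ξ μ a1 k m
  have a3 : (ξ ∘ₗ ((Hmap ℂ q (deck f W) ^ k - 1) ^ m : Module.End ℂ _)) ∘ₗ
      Hmap ℂ q (Tube.incl f h₃) = 0 := by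
    rw [e2, LinearMap.comp_assoc, ← LinearMap.comp_assoc _ _ ((Hmap ℂ q (deck f W) ^ k - 1) ^ m),
      hm, LinearMap.zero_comp, LinearMap.comp_zero]
  rw [a3] at a2
  have a4 := hne _ hW₃ h₃
  rcases smul_eq_zero.1 a2.symm with h | h
  · have h' : μ ^ k - 1 = 0 := by
      by_contra hc
      exact (pow_ne_zero m hc) h
    linear_combination h'
  · exact absurd h a4

end HoloConj
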