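import Pool.Agent.Lib.MP_ed311f_ag.Pieces
import Pool.Agent.Lib.MP_ed311f_ag.Hlem

/-!
# M2: the isotopy criterion for `LocUnip`
-/

open CategoryTheory AlgebraicTopology Topology

namespace HoloConj

/-- The powers of the map induced by a self-map. -/
theorem Hmap_pow (K : Type) [Field K] (q : ℕ) {Z : Type} [TopologicalSpace Z] (g : C(Z, Z))
    (n : ℕ) (g' : C(Z, Z)) (hg' : ∀ z, g' z = g^[n] z) :
    (Hmap K q g : Module.End K (Hq K q Z)) ^ n = Hmap K q g' := by
  induction n generalizing g' with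
  | zero =>
    have : g' = ContinuousMap.id Z := by
      ext z
      simpa using hg' z
    rw [this, Hmap_id, pow_zero]
    rfl
  | succ n ih =>
    have hc : Continuous (g^[n]) := g.continuous.iterate n
    have h1 : g' = g.comp ⟨g^[n], hc⟩ := by
      ext z
      rw [hg' z, Function.iterate_succ_apply']
      rfl
    rw [h1, Hmap_comp, pow_succ', ih ⟨g^[n], hc⟩ (fun z => rfl)]
    rfl

/-- A point of `Tube f W` -/
def Tube.mk {X : Type} {f : X → ℂ} {W : Set X} (x : X) (u : ℂ) (h : x ∈ W)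
    (h' : f x = Complex.exp u) : Tube f W := ⟨(x, u), h, h'⟩

theorem Tube.continuous_mk {X Z : Type} [TopologicalSpace X] [TopologicalSpace Z] {f : X → ℂ}
    {W : Set X} {a : Z → X} {b : Z → ℂ} (ha : Continuous a) (hb : Continuous b)
    (h : ∀ z, a z ∈ W) (h' : ∀ z, f (a z) = Complex.exp (b z)) :
    Continuous (fun z => (Tube.mk (a z) (b z) (h z) (h' z) : Tube f W)) :=
  Continuous.subtype_mk (ha.prodMk hb) _

theorem Tube.continuous_pt {X : Type} [TopologicalSpace X] {f : X → ℂ} {W : Set X} :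
    Continuous (fun z : Tube f W => z.1.1) :=
  continuous_fst.comp continuous_subtype_val

theorem Tube.continuous_log {X : Type} [TopologicalSpace X] {f : X → ℂ} {W : Set X} :
    Continuous (fun z : Tube f W => z.1.2) :=
  continuous_snd.comp continuous_subtype_val

theorem Tube.ext' {X : Type} {f : X → ℂ} {W : Set X} {z z' : Tube f W} (h : z.1.1 = z'.1.1)
    (h' : z.1.2 = z'.1.2) : z = z' :=
  Subtype.ext (Prod.ext h h')

/-- The `k`-th power of the deck transformation. -/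
noncomputable def deckPow {X : Type} [TopologicalSpace X] (f : X → ℂ) (W : Set X) (k : ℕ) :
    C(Tube f W, Tube f W) where
  toFun p := Tube.mk p.1.1 (p.1.2 + k * (2 * Real.pi * Complex.I)) p.2.1 (by
    rw [Complex.exp_add, Complex.exp_nat_mul_two_pi_mul_I, mul_one]; exact p.2.2)
  continuous_toFun := Tube.continuous_mk Tube.continuous_pt
    (Tube.continuous_log.add continuous_const) _ _

theorem deckPow_apply_fst {X : Type} [TopologicalSpace X] (f : X → ℂ) (W : Set X) (k : ℕ)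
    (z : Tube f W) : (deckPow f W k z).1.1 = z.1.1 := rfl

theorem deckPow_apply_snd {X : Type} [TopologicalSpace X] (f : X → ℂ) (W : Set X) (k : ℕ)
    (z : Tube f W) : (deckPow f W k z).1.2 = z.1.2 + k * (2 * Real.pi * Complex.I) := rfl

theorem deck_apply_fst {X : Type} [TopologicalSpace X] (f : X → ℂ) (W : Set X)
    (z : Tube f W) : (deck f W z).1.1 = z.1.1 := rfl

theorem deck_apply_snd {X : Type} [TopologicalSpace X] (f : X → ℂ) (W : Set X)
    (z : Tube f W) : (deck f W z).1.2 = z.1.2 + 2 * Real.pi * Complex.I := rfl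

theorem deck_iterate {X : Type} [TopologicalSpace X] (f : X → ℂ) (W : Set X) (k : ℕ)
    (z : Tube f W) : deckPow f W k z = (deck f W)^[k] z := by
  induction k with
  | zero =>
    refine Tube.ext' rfl ?_
    rw [deckPow_apply_snd]
    simp
  | succ n ih =>
    rw [Function.iterate_succ_apply', ← ih]
    refine Tube.ext' rfl ?_
    rw [deckPow_apply_snd, deck_apply_snd, deckPow_apply_snd]
    push_cast
    ring

/-- The monodromy to the `k` acts on homology through `deckPow`. -/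
theorem Hmap_deck_pow {X : Type} [TopologicalSpace X] (f : X → ℂ) (W : Set X) (k q : ℕ) :
    (Hmap ℂ q (deck f W) : Module.End ℂ (Hq ℂ q (Tube f W))) ^ k = Hmap ℂ q (deckPow f W k) :=
  Hmap_pow ℂ q _ _ _ (deck_iterate f W k)

/-- If `deckPow ∘ incl` is homotopic to `incl` then `(T^k - 1) ∘ incl = 0`. -/
theorem deck_pow_sub_one_comp {X : Type} [TopologicalSpace X] (f : X → ℂ) {W' W : Set X}
    (h : W' ⊆ W) (k q : ℕ)
    (H : ContinuousMap.Homotopic (Tube.incl f h) ((deckPow f W k).comp (Tube.incl f h))) :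
    (((Hmap ℂ q (deck f W)) ^ k - 1 : Module.End ℂ (Hq ℂ q (Tube f W))) ∘ₗ
      Hmap ℂ q (Tube.incl f h)) = 0 := by
  have h1 := Hmap_eq_of_homotopic ℂ q H
  rw [Hmap_comp] at h1
  rw [Hmap_deck_pow, LinearMap.sub_comp, ← h1, sub_eq_zero]
  rfl

/-- An isotopy of `Tube f W'` in `Tube f W` between the inclusion and the `k`-th power of the
monodromy. -/
theorem deckPow_homotopic {X : Type} [TopologicalSpace X] (f : X → ℂ) {W' W : Set X}
    (h : W' ⊆ W) (k : ℕ) (Γ : ℝ → X → X)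
    (hΓ : ContinuousOn (fun a : ℝ × X => Γ a.1 a.2) (Set.Icc 0 1 ×ˢ W'))
    (h0 : ∀ v ∈ W', Γ 0 v = v) (h1 : ∀ v ∈ W', Γ 1 v = v)
    (hW : ∀ θ ∈ Set.Icc (0 : ℝ) 1, ∀ v ∈ W', Γ θ v ∈ W)
    (hf : ∀ θ ∈ Set.Icc (0 : ℝ) 1, ∀ v ∈ W',
      f (Γ θ v) = Complex.exp (2 * Real.pi * Complex.I * k * θ) * f v) :
    ContinuousMap.Homotopic (Tube.incl f h) ((deckPow f W k).comp (Tube.incl f h)) := by
  have hb : ∀ z : unitInterval × Tube f W', f (Γ z.1 z.2.1.1) =
      Complex.exp (z.2.1.2 + 2 * Real.pi * Complex.I * k * ((z.1 : ℝ) : ℂ)) := by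
    intro z
    rw [hf z.1 z.1.2 z.2.1.1 z.2.2.1, z.2.2.2, Complex.exp_add, mul_comm]
  refine ⟨⟨⟨fun z => Tube.mk (Γ z.1 z.2.1.1)
      (z.2.1.2 + 2 * Real.pi * Complex.I * k * ((z.1 : ℝ) : ℂ))
      (hW z.1 z.1.2 z.2.1.1 z.2.2.1) (hb z), ?_⟩, ?_, ?_⟩⟩
  · refine Tube.continuous_mk ?_ ?_ _ _
    · have hc : Continuous (fun z : unitInterval × Tube f W' => ((z.1 : ℝ), z.2.1.1)) :=
        (continuous_subtype_val.comp continuous_fst).prodMk
          (Tube.continuous_pt.comp continuous_snd)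
      exact hΓ.comp_continuous hc (fun z => ⟨z.1.2, z.2.2.1⟩)
    · refine (Tube.continuous_log.comp continuous_snd).add (continuous_const.mul ?_)
      exact Complex.continuous_ofReal.comp (continuous_subtype_val.comp continuous_fst)
  · intro z
    refine Tube.ext' ?_ ?_
    · change Γ ((0 : unitInterval) : ℝ) z.1.1 = z.1.1
      rw [Set.Icc.coe_zero]
      exact h0 _ z.2.1
    · change z.1.2 + 2 * Real.pi * Complex.I * k * (((0 : unitInterval) : ℝ) : ℂ) = z.1.2
      rw [Set.Icc.coe_zero, Complex.ofReal_zero, mul_zero, add_zero]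
  · intro z
    refine Tube.ext' ?_ ?_
    · change Γ ((1 : unitInterval) : ℝ) z.1.1 = z.1.1
      rw [Set.Icc.coe_one]
      exact h1 _ z.2.1
    · change z.1.2 + 2 * Real.pi * Complex.I * k * (((1 : unitInterval) : ℝ) : ℂ) =
        z.1.2 + k * (2 * Real.pi * Complex.I)
      rw [Set.Icc.coe_one, Complex.ofReal_one]
      ring

theorem m2 : M2Statement := by
  intro X _ f p k W₀ Γ hW₀ hΓ hp h0 h1 hf W hW
  -- a neighbourhood which stays in `W`
  have hev : ∀ᶠ v in 𝓝 p, ∀ θ ∈ Set.Icc (0 : ℝ) 1,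
      (θ ∈ Set.Icc (0 : ℝ) 1 → v ∈ W₀ → Γ θ v ∈ W) := by
    refine isCompact_Icc.eventually_forall_of_forall_eventually
      (P := fun v θ => (θ ∈ Set.Icc (0 : ℝ) 1 → v ∈ W₀ → Γ θ v ∈ W)) ?_
    intro θ hθ
    have hpW₀ : p ∈ W₀ := mem_of_mem_nhds hW₀
    have hc : ContinuousWithinAt (fun a : ℝ × X => Γ a.1 a.2) (Set.Icc 0 1 ×ˢ W₀) (θ, p) :=
      hΓ (θ, p) ⟨hθ, hpW₀⟩
    have hc' : ∀ᶠ a in 𝓝[Set.Icc (0 : ℝ) 1 ×ˢ W₀] (θ, p), Γ a.1 a.2 ∈ W := by
      have : W ∈ 𝓝 (Γ θ p) := by rw [hp θ hθ]; exact hW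
      exact hc this
    rw [eventually_nhdsWithin_iff] at hc'
    have hsw : Filter.Tendsto (fun z : X × ℝ => (z.2, z.1)) (𝓝 (p, θ)) (𝓝 (θ, p)) :=
      continuous_swap.tendsto (p, θ)
    exact (hsw.eventually hc').mono (fun z hz h1 h2 => hz ⟨h1, h2⟩)
  have hsub : W ∩ (W₀ ∩ {v | ∀ θ ∈ Set.Icc (0 : ℝ) 1,
      (θ ∈ Set.Icc (0 : ℝ) 1 → v ∈ W₀ → Γ θ v ∈ W)}) ⊆ W := Set.inter_subset_left
  refine ⟨_, Filter.inter_mem hW (Filter.inter_mem hW₀ hev), hsub, fun q => ⟨1, ?_⟩⟩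
  rw [pow_one]
  refine deck_pow_sub_one_comp f hsub k q (deckPow_homotopic f hsub k Γ ?_ ?_ ?_ ?_ ?_)
  · exact hΓ.mono (Set.prod_mono subset_rfl (fun v hv => hv.2.1))
  · exact fun v hv => h0 v hv.2.1
  · exact fun v hv => h1 v hv.2.1
  · exact fun θ hθ v hv => hv.2.2 θ hθ hθ hv.2.1
  · exact fun θ hθ v hv => hf θ hθ v hv.2.1

end HoloConj
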