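import Pool.Agent.Lib.MP_ed311f_ag.M3lem

/-!
# Local isotopies at `y₀ = 0`, `x₀ ≠ 0` or `z₀ ≠ 0`
-/

open Topology

namespace HoloConj

theorem m3a (hM : M2Statement) : M3aStatement := by
  intro p hy hx
  obtain ⟨H, hH⟩ : ∃ H : ℝ × (Fin 4 → ℂ) → ℂ, H = fun a =>
    (a.2 3 ^ 2 * (a.2 1 - ee a.1 * a.2 1) + a.2 3 * (a.2 1 ^ 3 - (ee a.1 * a.2 1) ^ 3)) /
      a.2 0 ^ 2 := ⟨_, rfl⟩
  have hHc : ∀ a : ℝ × (Fin 4 → ℂ), a.2 0 ≠ 0 → ContinuousAt H a := by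
    intro a ha
    rw [hH]
    refine ContinuousAt.div ?_ ?_ (pow_ne_zero 2 ha) <;> fun_prop
  have hH0 : ∀ θ, H (θ, p) = 0 := by
    intro θ
    simp [hH, hy]
  have hev : ∀ᶠ v in 𝓝 p, (∀ θ ∈ Set.Icc (0 : ℝ) 1, ‖H (θ, v)‖ < 1 / 2) ∧ v 0 ≠ 0 := by
    refine (tube_lt p H (fun θ _ => hHc _ hx) (fun θ _ => hH0 θ)).and ?_
    exact (continuous_apply (0 : Fin 4)).continuousAt.eventually_ne hx
  refine hM _ ff p 1 {v | (∀ θ ∈ Set.Icc (0 : ℝ) 1, ‖H (θ, v)‖ < 1 / 2) ∧ v 0 ≠ 0}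
    (fun θ v => ![v 0 * csq (1 + H (θ, v)), ee θ * v 1, v 2, v 3]) hev ?_ ?_ ?_ ?_ ?_
  · rintro ⟨θ, v⟩ ⟨hθ, hv1, hv2⟩
    apply ContinuousAt.continuousWithinAt
    refine continuousAt_pi.2 fun i => ?_
    have h1 : ContinuousAt (fun a : ℝ × (Fin 4 → ℂ) => csq (1 + H a)) (θ, v) :=
      continuousAt_csq_comp (hHc _ hv2) ((hv1 θ hθ).trans (by norm_num))
    fin_cases i
    · exact ContinuousAt.mul (f := fun a : ℝ × (Fin 4 → ℂ) => a.2 0) (by fun_prop) h1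
    · show ContinuousAt (fun a : ℝ × (Fin 4 → ℂ) => ee a.1 * a.2 1) (θ, v)
      fun_prop
    · show ContinuousAt (fun a : ℝ × (Fin 4 → ℂ) => a.2 2) (θ, v)
      fun_prop
    · show ContinuousAt (fun a : ℝ × (Fin 4 → ℂ) => a.2 3) (θ, v)
      fun_prop
  · intro θ _
    simp only [hH0, add_zero, csq_one, mul_one, hy, mul_zero]
    funext i
    fin_cases i <;> simp [hy]
  · rintro v ⟨_, hv2⟩
    have : H (0, v) = 0 := by simp [hH, ee_zero]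
    simp only [this, add_zero, csq_one, mul_one, ee_zero, one_mul]
    funext i
    fin_cases i <;> simp
  · rintro v ⟨_, hv2⟩
    have : H (1, v) = 0 := by simp [hH, ee_one]
    simp only [this, add_zero, csq_one, mul_one, ee_one, one_mul]
    funext i
    fin_cases i <;> simp
  · rintro θ hθ v ⟨hv1, hv2⟩
    rw [ee_eq_one]
    have h1 : csq (1 + H (θ, v)) ^ 2 = 1 + H (θ, v) :=
      csq_sq' ((hv1 θ hθ).trans (by norm_num))
    have h2 : v 0 ^ 2 * H (θ, v) = v 3 ^ 2 * (v 1 - ee θ * v 1) +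
        v 3 * (v 1 ^ 3 - (ee θ * v 1) ^ 3) := by
      rw [hH]
      field_simp
    simp only [ff, Matrix.cons_val_zero, Matrix.cons_val_one, Matrix.cons_val]
    rw [mul_pow, h1]
    linear_combination (ee θ * v 1) * h2

theorem m3b (hM : M2Statement) : M3bStatement := by
  intro p hy hz
  obtain ⟨H, hH⟩ : ∃ H : ℝ × (Fin 4 → ℂ) → ℂ, H = fun a =>
    (a.2 3 * (a.2 1 - ee a.1 * a.2 1) + (a.2 1 ^ 3 - (ee a.1 * a.2 1) ^ 3)) /
      a.2 2 ^ 2 := ⟨_, rfl⟩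
  have hHc : ∀ a : ℝ × (Fin 4 → ℂ), a.2 2 ≠ 0 → ContinuousAt H a := by
    intro a ha
    rw [hH]
    refine ContinuousAt.div ?_ ?_ (pow_ne_zero 2 ha) <;> fun_prop
  have hH0 : ∀ θ, H (θ, p) = 0 := by
    intro θ
    simp [hH, hy]
  have hev : ∀ᶠ v in 𝓝 p, (∀ θ ∈ Set.Icc (0 : ℝ) 1, ‖H (θ, v)‖ < 1 / 2) ∧ v 2 ≠ 0 := by
    refine (tube_lt p H (fun θ _ => hHc _ hz) (fun θ _ => hH0 θ)).and ?_
    exact (continuous_apply (2 : Fin 4)).continuousAt.eventually_ne hz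
  refine hM _ ff p 1 {v | (∀ θ ∈ Set.Icc (0 : ℝ) 1, ‖H (θ, v)‖ < 1 / 2) ∧ v 2 ≠ 0}
    (fun θ v => ![v 0, ee θ * v 1, v 2 * csq (1 + H (θ, v)), v 3]) hev ?_ ?_ ?_ ?_ ?_
  · rintro ⟨θ, v⟩ ⟨hθ, hv1, hv2⟩
    apply ContinuousAt.continuousWithinAt
    refine continuousAt_pi.2 fun i => ?_
    have h1 : ContinuousAt (fun a : ℝ × (Fin 4 → ℂ) => csq (1 + H a)) (θ, v) :=
      continuousAt_csq_comp (hHc _ hv2) ((hv1 θ hθ).trans (by norm_num))
    fin_cases i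
    · show ContinuousAt (fun a : ℝ × (Fin 4 → ℂ) => a.2 0) (θ, v)
      fun_prop
    · show ContinuousAt (fun a : ℝ × (Fin 4 → ℂ) => ee a.1 * a.2 1) (θ, v)
      fun_prop
    · exact ContinuousAt.mul (f := fun a : ℝ × (Fin 4 → ℂ) => a.2 2) (by fun_prop) h1
    · show ContinuousAt (fun a : ℝ × (Fin 4 → ℂ) => a.2 3) (θ, v)
      fun_prop
  · intro θ _
    simp only [hH0, add_zero, csq_one, mul_one, hy, mul_zero]
    funext i
    fin_cases i <;> simp [hy]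
  · rintro v ⟨_, hv2⟩
    have : H (0, v) = 0 := by simp [hH, ee_zero]
    simp only [this, add_zero, csq_one, mul_one, ee_zero, one_mul]
    funext i
    fin_cases i <;> simp
  · rintro v ⟨_, hv2⟩
    have : H (1, v) = 0 := by simp [hH, ee_one]
    simp only [this, add_zero, csq_one, mul_one, ee_one, one_mul]
    funext i
    fin_cases i <;> simp
  · rintro θ hθ v ⟨hv1, hv2⟩
    rw [ee_eq_one]
    have h1 : csq (1 + H (θ, v)) ^ 2 = 1 + H (θ, v) :=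
      csq_sq' ((hv1 θ hθ).trans (by norm_num))
    have h2 : v 2 ^ 2 * H (θ, v) = v 3 * (v 1 - ee θ * v 1) +
        (v 1 ^ 3 - (ee θ * v 1) ^ 3) := by
      rw [hH]
      field_simp
    simp only [ff, Matrix.cons_val_zero, Matrix.cons_val_one, Matrix.cons_val]
    rw [mul_pow, h1]
    linear_combination (ee θ * v 1 * v 3) * h2

end HoloConj
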