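import Pool.Agent.Lib.MP_ed311f_ag.M3lem

/-!
# Local isotopies at smooth points with `y₀ ≠ 0`
-/

open Topology

namespace HoloConj

/-- the factor `g` of `ff = y g` -/
def gg (v : Fin 4 → ℂ) : ℂ := v 0 ^ 2 + v 3 * (v 2 ^ 2 + v 1 * v 3 + v 1 ^ 3)

theorem ff_eq_gg (v : Fin 4 → ℂ) : ff v = v 1 * gg v := by
  simp only [ff, gg]; ring

theorem gg_zero {p : Fin 4 → ℂ} (h : ff p = 0) (hy : p 1 ≠ 0) : gg p = 0 := by
  rw [ff_eq_gg] at h
  exact (mul_eq_zero.1 h).resolve_left hy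

theorem m3c (hM : M2Statement) : M3cStatement := by
  intro p hp hy hx
  have hg := gg_zero hp hy
  obtain ⟨H, hH⟩ : ∃ H : ℝ × (Fin 4 → ℂ) → ℂ, H = fun a =>
    (ee a.1 - 1) * gg a.2 / a.2 0 ^ 2 := ⟨_, rfl⟩
  have hHc : ∀ a : ℝ × (Fin 4 → ℂ), a.2 0 ≠ 0 → ContinuousAt H a := by
    intro a ha
    rw [hH]
    unfold gg
    refine ContinuousAt.div ?_ ?_ (pow_ne_zero 2 ha) <;> fun_prop
  have hH0 : ∀ θ, H (θ, p) = 0 := by
    intro θ
    simp [hH, hg]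
  have hev : ∀ᶠ v in 𝓝 p, (∀ θ ∈ Set.Icc (0 : ℝ) 1, ‖H (θ, v)‖ < 1 / 2) ∧ v 0 ≠ 0 := by
    refine (tube_lt p H (fun θ _ => hHc _ hx) (fun θ _ => hH0 θ)).and ?_
    exact (continuous_apply (0 : Fin 4)).continuousAt.eventually_ne hx
  refine hM _ ff p 1 {v | (∀ θ ∈ Set.Icc (0 : ℝ) 1, ‖H (θ, v)‖ < 1 / 2) ∧ v 0 ≠ 0}
    (fun θ v => ![v 0 * csq (1 + H (θ, v)), v 1, v 2, v 3]) hev ?_ ?_ ?_ ?_ ?_
  · rintro ⟨θ, v⟩ ⟨hθ, hv1, hv2⟩
    apply ContinuousAt.continuousWithinAt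
    refine continuousAt_pi.2 fun i => ?_
    have h1 : ContinuousAt (fun a : ℝ × (Fin 4 → ℂ) => csq (1 + H a)) (θ, v) :=
      continuousAt_csq_comp (hHc _ hv2) ((hv1 θ hθ).trans (by norm_num))
    fin_cases i
    · exact ContinuousAt.mul (f := fun a : ℝ × (Fin 4 → ℂ) => a.2 0) (by fun_prop) h1
    · show ContinuousAt (fun a : ℝ × (Fin 4 → ℂ) => a.2 1) (θ, v)
      fun_prop
    · show ContinuousAt (fun a : ℝ × (Fin 4 → ℂ) => a.2 2) (θ, v)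
      fun_prop
    · show ContinuousAt (fun a : ℝ × (Fin 4 → ℂ) => a.2 3) (θ, v)
      fun_prop
  · intro θ _
    simp only [hH0, add_zero, csq_one, mul_one]
    funext i
    fin_cases i <;> simp
  · rintro v ⟨_, hv2⟩
    have : H (0, v) = 0 := by simp [hH, ee_zero]
    simp only [this, add_zero, csq_one, mul_one]
    funext i
    fin_cases i <;> simp
  · rintro v ⟨_, hv2⟩
    have : H (1, v) = 0 := by simp [hH, ee_one]
    simp only [this, add_zero, csq_one, mul_one]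
    funext i
    fin_cases i <;> simp
  · rintro θ hθ v ⟨hv1, hv2⟩
    rw [ee_eq_one]
    have h1 : csq (1 + H (θ, v)) ^ 2 = 1 + H (θ, v) :=
      csq_sq' ((hv1 θ hθ).trans (by norm_num))
    have h2 : v 0 ^ 2 * H (θ, v) = (ee θ - 1) * gg v := by
      rw [hH]
      field_simp
    simp only [ff, Matrix.cons_val_zero, Matrix.cons_val_one, Matrix.cons_val]
    rw [mul_pow, h1]
    simp only [gg] at h2
    linear_combination (v 1) * h2

theorem m3d (hM : M2Statement) : M3dStatement := by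
  intro p hp hy hδ
  have hg := gg_zero hp hy
  obtain ⟨δ, hδd⟩ : ∃ δ : (Fin 4 → ℂ) → ℂ, δ = fun v => v 2 ^ 2 + v 1 ^ 3 + 2 * v 1 * v 3 :=
    ⟨_, rfl⟩
  have hδc : Continuous δ := by rw [hδd]; fun_prop
  have hδp : δ p ≠ 0 := by rw [hδd]; exact hδ
  obtain ⟨H, hH⟩ : ∃ H : ℝ × (Fin 4 → ℂ) → ℂ, H = fun a =>
    4 * a.2 1 * (ee a.1 - 1) * gg a.2 / δ a.2 ^ 2 := ⟨_, rfl⟩
  have hHc : ∀ a : ℝ × (Fin 4 → ℂ), δ a.2 ≠ 0 → ContinuousAt H a := by
    intro a ha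
    rw [hH]
    unfold gg
    refine ContinuousAt.div ?_ ?_ (pow_ne_zero 2 ha) <;> fun_prop
  have hH0 : ∀ θ, H (θ, p) = 0 := by
    intro θ
    simp [hH, hg]
  have hev : ∀ᶠ v in 𝓝 p, (∀ θ ∈ Set.Icc (0 : ℝ) 1, ‖H (θ, v)‖ < 1 / 2) ∧ δ v ≠ 0 ∧
      v 1 ≠ 0 := by
    refine (tube_lt p H (fun θ _ => hHc _ hδp) (fun θ _ => hH0 θ)).and (.and ?_ ?_)
    · exact hδc.continuousAt.eventually_ne hδp
    · exact (continuous_apply (1 : Fin 4)).continuousAt.eventually_ne hy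
  refine hM _ ff p 1 {v | (∀ θ ∈ Set.Icc (0 : ℝ) 1, ‖H (θ, v)‖ < 1 / 2) ∧ δ v ≠ 0 ∧ v 1 ≠ 0}
    (fun θ v => ![v 0, v 1, v 2, v 3 + (δ v / (2 * v 1)) * (csq (1 + H (θ, v)) - 1)]) hev
    ?_ ?_ ?_ ?_ ?_
  · rintro ⟨θ, v⟩ ⟨hθ, hv1, hv2, hv3⟩
    apply ContinuousAt.continuousWithinAt
    refine continuousAt_pi.2 fun i => ?_
    have h1 : ContinuousAt (fun a : ℝ × (Fin 4 → ℂ) => csq (1 + H a)) (θ, v) :=
      continuousAt_csq_comp (hHc _ hv2) ((hv1 θ hθ).trans (by norm_num))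
    fin_cases i
    · show ContinuousAt (fun a : ℝ × (Fin 4 → ℂ) => a.2 0) (θ, v)
      fun_prop
    · show ContinuousAt (fun a : ℝ × (Fin 4 → ℂ) => a.2 1) (θ, v)
      fun_prop
    · show ContinuousAt (fun a : ℝ × (Fin 4 → ℂ) => a.2 2) (θ, v)
      fun_prop
    · show ContinuousAt (fun a : ℝ × (Fin 4 → ℂ) => a.2 3 + (δ a.2 / (2 * a.2 1)) *
        (csq (1 + H a) - 1)) (θ, v)
      have h3 : (2 : ℂ) * v 1 ≠ 0 := mul_ne_zero two_ne_zero hv3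
      have h2 : ContinuousAt (fun a : ℝ × (Fin 4 → ℂ) => δ a.2 / (2 * a.2 1)) (θ, v) := by
        refine ContinuousAt.div ?_ ?_ h3 <;> fun_prop
      exact ContinuousAt.add (f := fun a : ℝ × (Fin 4 → ℂ) => a.2 3) (by fun_prop)
        (h2.mul (h1.sub continuousAt_const))
  · intro θ _
    simp only [hH0, add_zero, csq_one, sub_self, mul_zero]
    funext i
    fin_cases i <;> simp
  · rintro v ⟨_, hv2⟩
    have : H (0, v) = 0 := by simp [hH, ee_zero]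
    simp only [this, add_zero, csq_one, sub_self, mul_zero]
    funext i
    fin_cases i <;> simp
  · rintro v ⟨_, hv2⟩
    have : H (1, v) = 0 := by simp [hH, ee_one]
    simp only [this, add_zero, csq_one, sub_self, mul_zero]
    funext i
    fin_cases i <;> simp
  · rintro θ hθ v ⟨hv1, hv2, hv3⟩
    rw [ee_eq_one]
    have h1 : csq (1 + H (θ, v)) ^ 2 = 1 + H (θ, v) :=
      csq_sq' ((hv1 θ hθ).trans (by norm_num))
    have h2 : δ v ^ 2 * H (θ, v) = 4 * v 1 * (ee θ - 1) * gg v := by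
      rw [hH]
      field_simp
    obtain ⟨s, hs⟩ : ∃ s, s = csq (1 + H (θ, v)) := ⟨_, rfl⟩
    obtain ⟨w', hw'⟩ : ∃ w', w' = v 3 + (δ v / (2 * v 1)) * (s - 1) := ⟨_, rfl⟩
    rw [← hs] at h1 ⊢
    rw [← hw']
    have h3 : 2 * v 1 * w' + v 2 ^ 2 + v 1 ^ 3 = δ v * s := by
      rw [hw']
      field_simp
      simp only [hδd]
      ring
    simp only [ff, Matrix.cons_val_zero, Matrix.cons_val_one, Matrix.cons_val]
    have h4 : (2 * v 1 * w' + v 2 ^ 2 + v 1 ^ 3) ^ 2 = δ v ^ 2 + 4 * v 1 * (ee θ - 1) * gg v := by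
      rw [h3, mul_pow, h1]
      linear_combination h2
    have h5 : (4 : ℂ) ≠ 0 := by norm_num
    apply mul_left_cancel₀ h5
    simp only [gg, hδd] at h4
    linear_combination h4

end HoloConj
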