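import Pool.Agent.Lib.MP_ed311f_ag.M3lem

/-!
# Local isotopies at `x₀ = y₀ = z₀ = 0`, `w₀ ≠ 0`
-/

open Topology

namespace HoloConj

theorem m3f (hM : M2Statement) : M3fStatement := by
  intro p hy hx hz hw
  -- the argument of the first root
  obtain ⟨H, hH⟩ : ∃ H : ℝ × (Fin 4 → ℂ) → ℂ, H = fun a =>
    ((ee a.1 * a.2 1) ^ 4 - a.2 1 ^ 4) / (4 * (a.2 3 + a.2 1 ^ 2 / 2) ^ 2) := ⟨_, rfl⟩
  have hHc : ∀ a : ℝ × (Fin 4 → ℂ), a.2 3 + a.2 1 ^ 2 / 2 ≠ 0 → ContinuousAt H a := by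
    intro a ha
    rw [hH]
    refine ContinuousAt.div ?_ ?_ (mul_ne_zero (by norm_num) (pow_ne_zero 2 ha)) <;> fun_prop
  have hH0 : ∀ θ, H (θ, p) = 0 := by
    intro θ
    simp [hH, hy]
  -- the new `w`
  obtain ⟨w', hw'⟩ : ∃ w' : ℝ × (Fin 4 → ℂ) → ℂ, w' = fun a =>
    -(ee a.1 * a.2 1) ^ 2 / 2 + (a.2 3 + a.2 1 ^ 2 / 2) * csq (1 + H a) := ⟨_, rfl⟩
  have hwc : ∀ a : ℝ × (Fin 4 → ℂ), a.2 3 + a.2 1 ^ 2 / 2 ≠ 0 → ‖H a‖ < 1 →
      ContinuousAt w' a := by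
    intro a ha ha2
    rw [hw']
    have h1 : ContinuousAt (fun a : ℝ × (Fin 4 → ℂ) => csq (1 + H a)) a :=
      continuousAt_csq_comp (hHc _ ha) ha2
    exact ContinuousAt.add (f := fun a : ℝ × (Fin 4 → ℂ) => -(ee a.1 * a.2 1) ^ 2 / 2)
      (by fun_prop)
      (ContinuousAt.mul (f := fun a : ℝ × (Fin 4 → ℂ) => a.2 3 + a.2 1 ^ 2 / 2) (by fun_prop) h1)
  have hw0 : ∀ θ, w' (θ, p) = p 3 := by
    intro θ
    simp only [hw', hH0, hy]
    simp [csq_one]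
  -- a branch of the square root of `w` near `w₀`
  obtain ⟨s0, hs0⟩ : ∃ s0 : ℂ, s0 ^ 2 = p 3 := ⟨csq (p 3), csq_sq hw⟩
  have hs00 : s0 ≠ 0 := by
    rintro rfl
    apply hw
    rw [← hs0]
    simp
  obtain ⟨r, hr⟩ : ∃ r : ℂ → ℂ, r = fun w => s0 * csq (1 + (w / p 3 - 1)) := ⟨_, rfl⟩
  have hr2 : ∀ w, ‖w / p 3 - 1‖ < 1 → r w ^ 2 = w := by
    intro w h
    rw [hr]
    simp only
    rw [mul_pow, hs0, csq_sq' h]
    field_simp
    ring
  have hr0 : ∀ w, r w ≠ 0 := by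
    intro w
    rw [hr]
    exact mul_ne_zero hs00 (csq_ne_zero _)
  have hrc : ∀ w, ‖w / p 3 - 1‖ < 1 → ContinuousAt r w := by
    intro w h
    rw [hr]
    refine ContinuousAt.mul continuousAt_const ?_
    refine continuousAt_csq_comp (F := fun w => w / p 3 - 1) ?_ h
    fun_prop
  have hp3 : p 3 + p 1 ^ 2 / 2 ≠ 0 := by
    rw [hy]
    simpa using hw
  -- the neighbourhood
  have hev : ∀ᶠ v in 𝓝 p, (∀ θ ∈ Set.Icc (0 : ℝ) 1, ‖H (θ, v)‖ < 1 / 2) ∧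
      (∀ θ ∈ Set.Icc (0 : ℝ) 1, ‖w' (θ, v) / p 3 - 1‖ < 1 / 2) ∧
      v 3 + v 1 ^ 2 / 2 ≠ 0 ∧ ‖v 3 / p 3 - 1‖ < 1 / 2 := by
    refine (tube_lt p H (fun θ _ => hHc _ hp3) (fun θ _ => hH0 θ)).and
      ((tube_lt p (fun a => w' a / p 3 - 1) (fun θ _ => ?_) (fun θ _ => ?_)).and (.and ?_ ?_))
    · exact ((hwc (θ, p) hp3 (by rw [hH0]; simp)).div_const _).sub continuousAt_const
    · simp only [hw0]
      field_simp
      ring
    · have : Continuous (fun v : Fin 4 → ℂ => v 3 + v 1 ^ 2 / 2) := by fun_prop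
      exact this.continuousAt.eventually_ne hp3
    · have : Continuous (fun v : Fin 4 → ℂ => ‖v 3 / p 3 - 1‖) := by fun_prop
      apply this.continuousAt.eventually_lt continuousAt_const
      rw [div_self hw]
      norm_num
  -- the new `x`, `z`
  refine hM _ ff p 2 {v | (∀ θ ∈ Set.Icc (0 : ℝ) 1, ‖H (θ, v)‖ < 1 / 2) ∧
      (∀ θ ∈ Set.Icc (0 : ℝ) 1, ‖w' (θ, v) / p 3 - 1‖ < 1 / 2) ∧
      v 3 + v 1 ^ 2 / 2 ≠ 0 ∧ ‖v 3 / p 3 - 1‖ < 1 / 2}
    (fun θ v => ![v 0 * (ee θ + 1) / 2 + Complex.I * r (v 3) * v 2 * (ee θ - 1) / 2,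
      ee θ * v 1,
      (v 0 * (ee θ - 1) + Complex.I * r (v 3) * v 2 * (ee θ + 1)) / (2 * Complex.I * r (v 3)) *
        (r (v 3) / r (w' (θ, v))),
      w' (θ, v)]) hev ?_ ?_ ?_ ?_ ?_
  · rintro ⟨θ, v⟩ ⟨hθ, hv1, hv2, hv3, hv4⟩
    apply ContinuousAt.continuousWithinAt
    have hc1 : ContinuousAt (fun a : ℝ × (Fin 4 → ℂ) => r (a.2 3)) (θ, v) :=
      ContinuousAt.comp (g := r) (f := fun a : ℝ × (Fin 4 → ℂ) => a.2 3)
        (hrc _ (hv4.trans (by norm_num))) (by fun_prop)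
    have hc2 : ContinuousAt w' (θ, v) := hwc _ hv3 ((hv1 θ hθ).trans (by norm_num))
    have hc3 : ContinuousAt (fun a : ℝ × (Fin 4 → ℂ) => r (w' a)) (θ, v) :=
      ContinuousAt.comp (g := r) (f := w') (hrc _ ((hv2 θ hθ).trans (by norm_num))) hc2
    have hI : (2 : ℂ) * Complex.I * r (v 3) ≠ 0 :=
      mul_ne_zero (mul_ne_zero two_ne_zero Complex.I_ne_zero) (hr0 _)
    refine continuousAt_pi.2 fun i => ?_
    fin_cases i
    · show ContinuousAt (fun a : ℝ × (Fin 4 → ℂ) => a.2 0 * (ee a.1 + 1) / 2 +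
        Complex.I * r (a.2 3) * a.2 2 * (ee a.1 - 1) / 2) (θ, v)
      have hc5 : ContinuousAt (fun a : ℝ × (Fin 4 → ℂ) => a.2 0 * (ee a.1 + 1) / 2) (θ, v) := by
        fun_prop
      have hc6 : ContinuousAt (fun a : ℝ × (Fin 4 → ℂ) => a.2 2) (θ, v) := by fun_prop
      have hc7 : ContinuousAt (fun a : ℝ × (Fin 4 → ℂ) => ee a.1 - 1) (θ, v) := by fun_prop
      exact hc5.add ((((continuousAt_const.mul hc1).mul hc6).mul hc7).div_const 2)
    · show ContinuousAt (fun a : ℝ × (Fin 4 → ℂ) => ee a.1 * a.2 1) (θ, v)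
      fun_prop
    · show ContinuousAt (fun a : ℝ × (Fin 4 → ℂ) =>
        (a.2 0 * (ee a.1 - 1) + Complex.I * r (a.2 3) * a.2 2 * (ee a.1 + 1)) /
          (2 * Complex.I * r (a.2 3)) * (r (a.2 3) / r (w' a))) (θ, v)
      have hc4 : ContinuousAt (fun a : ℝ × (Fin 4 → ℂ) =>
          a.2 0 * (ee a.1 - 1) + Complex.I * r (a.2 3) * a.2 2 * (ee a.1 + 1)) (θ, v) := by
        have hc5 : ContinuousAt (fun a : ℝ × (Fin 4 → ℂ) => a.2 0 * (ee a.1 - 1)) (θ, v) := by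
          fun_prop
        have hc6 : ContinuousAt (fun a : ℝ × (Fin 4 → ℂ) => a.2 2) (θ, v) := by fun_prop
        have hc7 : ContinuousAt (fun a : ℝ × (Fin 4 → ℂ) => ee a.1 + 1) (θ, v) := by fun_prop
        exact hc5.add (((continuousAt_const.mul hc1).mul hc6).mul hc7)
      exact (hc4.div (continuousAt_const.mul hc1) hI).mul (hc1.div hc3 (hr0 _))
    · exact hc2
  · intro θ _
    simp only [hw0, hx, hy, hz]
    funext i
    fin_cases i <;> simp [hx, hy, hz]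
  · rintro v ⟨_, _, hv3, hv4⟩
    have h0 : H (0, v) = 0 := by simp [hH, ee_zero]
    have h1 : w' (0, v) = v 3 := by
      simp only [hw', h0, ee_zero]
      simp [csq_one]
      ring
    have hI := Complex.I_ne_zero
    have h2 := hr0 (v 3)
    simp only [h1, ee_zero]
    funext i
    fin_cases i
    · simp
      ring
    · simp
    · show (v 0 * (1 - 1) + Complex.I * r (v 3) * v 2 * (1 + 1)) / (2 * Complex.I * r (v 3)) *
        (r (v 3) / r (v 3)) = v 2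
      field_simp
      ring
    · rfl
  · rintro v ⟨_, _, hv3, hv4⟩
    have h0 : H (1, v) = 0 := by simp [hH, ee_one]
    have h1 : w' (1, v) = v 3 := by
      simp only [hw', h0, ee_one]
      simp [csq_one]
      ring
    have hI := Complex.I_ne_zero
    have h2 := hr0 (v 3)
    simp only [h1, ee_one]
    funext i
    fin_cases i
    · simp
      ring
    · simp
    · show (v 0 * (1 - 1) + Complex.I * r (v 3) * v 2 * (1 + 1)) / (2 * Complex.I * r (v 3)) *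
        (r (v 3) / r (v 3)) = v 2
      field_simp
      ring
    · rfl
  · rintro θ hθ v ⟨hv1, hv2, hv3, hv4⟩
    rw [ee_eq_two]
    obtain ⟨s, hs⟩ : ∃ s, s = csq (1 + H (θ, v)) := ⟨_, rfl⟩
    have h1 : s ^ 2 = 1 + H (θ, v) := by
      rw [hs]
      exact csq_sq' ((hv1 θ hθ).trans (by norm_num))
    have h2 : 4 * (v 3 + v 1 ^ 2 / 2) ^ 2 * H (θ, v) = (ee θ * v 1) ^ 4 - v 1 ^ 4 := by
      have h20 : (4 : ℂ) * (v 3 + v 1 ^ 2 / 2) ^ 2 ≠ 0 :=
        mul_ne_zero (by norm_num) (pow_ne_zero 2 hv3)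
      rw [hH]
      simp only
      rw [mul_div_assoc', mul_div_cancel_left₀ _ h20]
    have h3 : w' (θ, v) = -(ee θ * v 1) ^ 2 / 2 + (v 3 + v 1 ^ 2 / 2) * s := by
      rw [hs, hw']
    obtain ⟨W, hW⟩ : ∃ W, W = w' (θ, v) := ⟨_, rfl⟩
    have h4 : W ^ 2 + W * (ee θ * v 1) ^ 2 = v 3 ^ 2 + v 3 * v 1 ^ 2 := by
      rw [hW, h3]
      have h5 : (v 3 + v 1 ^ 2 / 2) ^ 2 * s ^ 2 =
          (v 3 + v 1 ^ 2 / 2) ^ 2 + ((ee θ * v 1) ^ 4 - v 1 ^ 4) / 4 := by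
        rw [h1]
        linear_combination (1 / 4) * h2
      linear_combination h5
    have h5 : r (v 3) ^ 2 = v 3 := hr2 _ (hv4.trans (by norm_num))
    have h6 : r W ^ 2 = W := by
      rw [hW]
      exact hr2 _ ((hv2 θ hθ).trans (by norm_num))
    obtain ⟨R, hR⟩ : ∃ R, R = r (v 3) := ⟨_, rfl⟩
    obtain ⟨R', hR'⟩ : ∃ R', R' = r W := ⟨_, rfl⟩
    have hR0 : R ≠ 0 := by rw [hR]; exact hr0 _
    have hR'0 : R' ≠ 0 := by rw [hR']; exact hr0 _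
    rw [← hW]
    simp only [ff, Matrix.cons_val_zero, Matrix.cons_val_one, Matrix.cons_val]
    rw [← hR, ← hR']
    rw [← hR] at h5
    rw [← hR'] at h6
    have hI := Complex.I_ne_zero
    have hI2 : Complex.I ^ 2 = -1 := Complex.I_sq
    obtain ⟨e, he⟩ : ∃ e, e = ee θ := ⟨_, rfl⟩
    rw [← he] at h4 ⊢
    have h7 : W * ((v 0 * (e - 1) + Complex.I * R * v 2 * (e + 1)) / (2 * Complex.I * R) *
        (R / R')) ^ 2 = -((v 0 * (e - 1) + Complex.I * R * v 2 * (e + 1)) / 2) ^ 2 := by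
      have h8 : (v 0 * (e - 1) + Complex.I * R * v 2 * (e + 1)) / (2 * Complex.I * R) *
        (R / R') = (v 0 * (e - 1) + Complex.I * R * v 2 * (e + 1)) / 2 / (Complex.I * R') := by
        field_simp
      rw [h8, div_pow _ (Complex.I * R'), mul_pow, hI2, h6]
      have hW0 : W ≠ 0 := by
        rw [← h6]
        exact pow_ne_zero 2 hR'0
      field_simp
    rw [h7]
    have h9 : (v 0 * (e + 1) / 2 + Complex.I * R * v 2 * (e - 1) / 2) ^ 2 -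
        ((v 0 * (e - 1) + Complex.I * R * v 2 * (e + 1)) / 2) ^ 2 =
        e * (v 0 ^ 2 + v 3 * v 2 ^ 2) := by
      rw [← h5]
      linear_combination (-(e * R ^ 2 * v 2 ^ 2)) * hI2
    linear_combination (e * v 1) * h9 + (e * v 1) * (e * v 1) * h4

end HoloConj
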