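import Pool.Agent.Lib.MP_ed311f_ag.Pieces
import Pool.Agent.Lib.MP_ed311f_ag.Hlem
import Pool.Agent.Lib.MP_ed311f_ag.M1

/-!
# M4: unipotence of `T^6` at the origin
-/

open Topology Complex

namespace HoloConj

/-- Mayer–Vietoris for unipotence. -/
def MVUnip : Prop := ∀ (X : Type) [TopologicalSpace X] (U V : Set X), IsOpen U → IsOpen V →
  U ∪ V = Set.univ →
  ∀ (S : C(X, X)) (SU : C(U, U)) (SV : C(V, V)) (SW : C(↥(U ∩ V), ↥(U ∩ V))),
  (∀ x, (SU x : X) = S x) → (∀ x, (SV x : X) = S x) → (∀ x, (SW x : X) = S x) →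
  ∀ a b : ℕ, (∀ q, (Hmap ℂ q SU - 1 : Module.End ℂ _) ^ a = 0) →
  (∀ q, (Hmap ℂ q SV - 1 : Module.End ℂ _) ^ a = 0) →
  (∀ q, (Hmap ℂ q SW - 1 : Module.End ℂ _) ^ b = 0) →
  ∀ q, (Hmap ℂ q S - 1 : Module.End ℂ _) ^ (a + b) = 0

namespace Origin

/-- lifting homotopies through embeddings -/
theorem homotopic_of_embedding {Z E : Type} [TopologicalSpace Z] [TopologicalSpace E]
    {val : Z → E} (hval : IsEmbedding val) (S₀ S₁ : C(Z, Z)) (Λ : unitInterval × Z → E)
    (hΛ : Continuous Λ) (hr : ∀ a, Λ a ∈ Set.range val) (h0 : ∀ z, Λ (0, z) = val (S₀ z))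
    (h1 : ∀ z, Λ (1, z) = val (S₁ z)) : ContinuousMap.Homotopic S₀ S₁ := by
  choose G hG using hr
  have hGc : Continuous G := by
    rw [hval.continuous_iff]
    have : val ∘ G = Λ := funext hG
    rw [this]
    exact hΛ
  exact ⟨{
    toFun := G
    continuous_toFun := hGc
    map_zero_left := fun z => hval.injective (by rw [hG, h0])
    map_one_left := fun z => hval.injective (by rw [hG, h1]) }⟩

/-- the vector `(x, y, z, w)` -/
def vec (x y z w : ℂ) : Fin 4 → ℂ := ![x, y, z, w]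

@[simp] theorem vec_zero (x y z w : ℂ) : vec x y z w 0 = x := rfl
@[simp] theorem vec_one (x y z w : ℂ) : vec x y z w 1 = y := rfl
@[simp] theorem vec_two (x y z w : ℂ) : vec x y z w 2 = z := rfl
@[simp] theorem vec_three (x y z w : ℂ) : vec x y z w 3 = w := rfl

theorem ff_vec (x y z w : ℂ) : ff (vec x y z w) =
    y * (x ^ 2 + w * z ^ 2 + y * w ^ 2 + y ^ 3 * w) := rfl

theorem vec_eta (v : Fin 4 → ℂ) : vec (v 0) (v 1) (v 2) (v 3) = v := by
  funext i
  fin_cases i <;> rfl

theorem continuous_vec {Z : Type*} [TopologicalSpace Z] {a b c d : Z → ℂ} (ha : Continuous a)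
    (hb : Continuous b) (hc : Continuous c) (hd : Continuous d) :
    Continuous fun z => vec (a z) (b z) (c z) (d z) := by
  refine continuous_pi fun i => ?_
  fin_cases i
  · exact ha
  · exact hb
  · exact hc
  · exact hd

/-- the global tube -/
abbrev GT : Type := Tube ff (Set.univ : Set (Fin 4 → ℂ))

/-- build a point of the global tube -/
def mkGT (a : (Fin 4 → ℂ) × ℂ) (h : ff a.1 = exp a.2) : GT := ⟨a, trivial, h⟩

theorem isEmbedding_val (W : Set (Fin 4 → ℂ)) :
    IsEmbedding (fun z : Tube ff W => (z.1 : (Fin 4 → ℂ) × ℂ)) := IsEmbedding.subtypeVal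

/-- the involution `S = (-x, y, -z, w)` -/
def Sv (v : Fin 4 → ℂ) : Fin 4 → ℂ := vec (-v 0) (v 1) (-v 2) (v 3)

theorem ff_Sv (v : Fin 4 → ℂ) : ff (Sv v) = ff v := by
  rw [Sv, ff_vec, ff]
  ring

theorem continuous_Sv : Continuous Sv :=
  continuous_vec (continuous_apply 0).neg (continuous_apply 1) (continuous_apply 2).neg
    (continuous_apply 3)

/-- `S` on the global tube -/
def SGT : C(GT, GT) where
  toFun z := mkGT (Sv z.1.1, z.1.2) (by rw [ff_Sv]; exact z.2.2)
  continuous_toFun := by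
    refine Continuous.subtype_mk ?_ _
    exact (continuous_Sv.comp (continuous_fst.comp continuous_subtype_val)).prodMk
      (continuous_snd.comp continuous_subtype_val)

/-! ### `T^6` is homotopic to `S` on the global tube -/

/-- iterates of the deck transformation -/
theorem deck_pow_apply (W : Set (Fin 4 → ℂ)) (n : ℕ) (z : Tube ff W) :
    ((deck ff W)^[n] z).1 = (z.1.1, z.1.2 + n * (2 * Real.pi * I)) := by
  induction n generalizing z with
  | zero => simp
  | succ n ih =>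
    rw [Function.iterate_succ_apply, ih]
    refine Prod.ext rfl ?_
    show z.1.2 + 2 * Real.pi * I + n * (2 * Real.pi * I) = _
    push_cast
    ring

/-- `T^n` as a continuous map -/
noncomputable def deckPow (W : Set (Fin 4 → ℂ)) (n : ℕ) : C(Tube ff W, Tube ff W) where
  toFun := (deck ff W)^[n]
  continuous_toFun := (deck ff W).continuous.iterate n

theorem Hmap_deckPow (q : ℕ) (W : Set (Fin 4 → ℂ)) (n : ℕ) :
    Hmap ℂ q (deckPow W n) = (Hmap ℂ q (deck ff W)) ^ n := by
  induction n with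
  | zero =>
    have : deckPow W 0 = ContinuousMap.id _ := rfl
    rw [this, Hmap_id]
    rfl
  | succ n ih =>
    have : deckPow W (n + 1) = (deckPow W n).comp (deck ff W) := rfl
    rw [this, Hmap_comp, ih, pow_succ]
    rfl

theorem exp_cong {a b : ℂ} (n : ℤ) (h : a = b + n * (2 * Real.pi * I)) : exp a = exp b := by
  rw [h, Complex.exp_add, Complex.exp_int_mul_two_pi_mul_I, mul_one]

theorem homotopic_S_T6 : ContinuousMap.Homotopic SGT (deckPow Set.univ 6) := by
  have hc : Continuous fun a : unitInterval × GT => ((a.1 : ℝ) : ℂ) :=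
    continuous_ofReal.comp (continuous_subtype_val.comp continuous_fst)
  have hv : ∀ i : Fin 4, Continuous fun a : unitInterval × GT => a.2.1.1 i := fun i =>
    (continuous_apply i).comp (continuous_fst.comp (continuous_subtype_val.comp continuous_snd))
  have hu : Continuous fun a : unitInterval × GT => a.2.1.2 :=
    continuous_snd.comp (continuous_subtype_val.comp continuous_snd)
  have he : ∀ k : ℂ, Continuous fun a : unitInterval × GT =>
      exp (k * (Real.pi * I * ((a.1 : ℝ) : ℂ))) := fun k =>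
    Complex.continuous_exp.comp (continuous_const.mul (continuous_const.mul hc))
  refine homotopic_of_embedding (isEmbedding_val _) _ _
    (fun a => (vec (-(exp (5 * (Real.pi * I * ((a.1 : ℝ) : ℂ))) * a.2.1.1 0))
      (exp (2 * (Real.pi * I * ((a.1 : ℝ) : ℂ))) * a.2.1.1 1)
      (-(exp (3 * (Real.pi * I * ((a.1 : ℝ) : ℂ))) * a.2.1.1 2))
      (exp (4 * (Real.pi * I * ((a.1 : ℝ) : ℂ))) * a.2.1.1 3),
      a.2.1.2 + 12 * (Real.pi * I * ((a.1 : ℝ) : ℂ)))) ?_ ?_ ?_ ?_
  · refine (continuous_vec ((he 5).mul (hv 0)).neg ((he 2).mul (hv 1)) ((he 3).mul (hv 2)).neg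
      ((he 4).mul (hv 3))).prodMk (hu.add (continuous_const.mul (continuous_const.mul hc)))
  · intro a
    refine ⟨mkGT _ ?_, rfl⟩
    show ff (vec _ _ _ _) = exp (_ + _)
    rw [ff_vec, Complex.exp_add, ← a.2.2.2, ff]
    set t : ℂ := Real.pi * I * ((a.1 : ℝ) : ℂ) with ht
    have e : ∀ n : ℕ, exp ((n : ℂ) * t) = exp t ^ n := fun n => Complex.exp_nat_mul t n
    have e5 := e 5
    have e2 := e 2
    have e3 := e 3
    have e4 := e 4
    have e12 := e 12
    push_cast at e5 e2 e3 e4 e12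
    rw [e5, e2, e3, e4, e12]
    ring
  · intro z
    show (_, _) = (Sv z.1.1, z.1.2)
    simp [Sv]
  · intro z
    show _ = ((deck ff Set.univ)^[6] z).1
    rw [deck_pow_apply]
    have h1 : ∀ n : ℤ, exp ((2 * n : ℂ) * (Real.pi * I * 1)) = 1 := by
      intro n
      rw [show (2 * n : ℂ) * (Real.pi * I * 1) = n * (2 * Real.pi * I) by ring]
      exact Complex.exp_int_mul_two_pi_mul_I n
    have h2 : ∀ n : ℤ, exp ((2 * n + 1 : ℂ) * (Real.pi * I * 1)) = -1 := by
      intro n
      rw [show (2 * n + 1 : ℂ) * (Real.pi * I * 1) = n * (2 * Real.pi * I) + Real.pi * I by ring,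
        Complex.exp_add, Complex.exp_int_mul_two_pi_mul_I, Complex.exp_pi_mul_I, one_mul]
    have a5 := h2 2
    have a2 := h1 1
    have a3 := h2 1
    have a4 := h1 2
    norm_num at a5 a2 a3 a4
    refine Prod.ext ?_ ?_
    · show vec _ _ _ _ = z.1.1
      conv_rhs => rw [← vec_eta z.1.1]
      have e1 : (((1 : unitInterval) : ℝ) : ℂ) = 1 := by simp
      rw [e1, mul_one, a5, a2, a3, a4]
      congr 1 <;> ring
    · show z.1.2 + 12 * (Real.pi * I * (((1 : unitInterval) : ℝ) : ℂ)) = _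
      have e1 : (((1 : unitInterval) : ℝ) : ℂ) = 1 := by simp
      rw [e1]
      push_cast
      ring

theorem Hmap_T6 (q : ℕ) : (Hmap ℂ q (deck ff (Set.univ : Set (Fin 4 → ℂ)))) ^ 6 =
    Hmap ℂ q SGT := by
  rw [← Hmap_deckPow]
  exact (Hmap_eq_of_homotopic ℂ q homotopic_S_T6).symm

/-! ### Rotation over a region with a square root of `w` -/

theorem homotopic_rot {Z : Type} [TopologicalSpace Z] {val : Z → (Fin 4 → ℂ) × ℂ}
    (hval : IsEmbedding val) (hf : ∀ z, ff (val z).1 = exp (val z).2)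
    (hr : ∀ z a, ff a.1 = exp a.2 → a.1 3 = (val z).1 3 → a ∈ Set.range val)
    (SZ : C(Z, Z)) (hS : ∀ z, val (SZ z) = (Sv (val z).1, (val z).2))
    (r : Z → ℂ) (hrc : Continuous r) (hr0 : ∀ z, r z ≠ 0) (hr2 : ∀ z, r z ^ 2 = (val z).1 3) :
    ContinuousMap.Homotopic (ContinuousMap.id Z) SZ := by
  have hc : Continuous fun a : unitInterval × Z => ((a.1 : ℝ) : ℂ) :=
    continuous_ofReal.comp (continuous_subtype_val.comp continuous_fst)
  have hv : ∀ i : Fin 4, Continuous fun a : unitInterval × Z => (val a.2).1 i := fun i =>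
    (continuous_apply i).comp (continuous_fst.comp (hval.continuous.comp continuous_snd))
  have hu : Continuous fun a : unitInterval × Z => (val a.2).2 :=
    continuous_snd.comp (hval.continuous.comp continuous_snd)
  have hcos : Continuous fun a : unitInterval × Z => cos (Real.pi * ((a.1 : ℝ) : ℂ)) :=
    Complex.continuous_cos.comp (continuous_const.mul hc)
  have hsin : Continuous fun a : unitInterval × Z => sin (Real.pi * ((a.1 : ℝ) : ℂ)) :=
    Complex.continuous_sin.comp (continuous_const.mul hc)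
  have hrr : Continuous fun a : unitInterval × Z => r a.2 := hrc.comp continuous_snd
  refine homotopic_of_embedding hval _ _
    (fun a => (vec
      (cos (Real.pi * ((a.1 : ℝ) : ℂ)) * (val a.2).1 0 -
        sin (Real.pi * ((a.1 : ℝ) : ℂ)) * r a.2 * (val a.2).1 2)
      ((val a.2).1 1)
      (sin (Real.pi * ((a.1 : ℝ) : ℂ)) * (val a.2).1 0 / r a.2 +
        cos (Real.pi * ((a.1 : ℝ) : ℂ)) * (val a.2).1 2)
      ((val a.2).1 3), (val a.2).2)) ?_ ?_ ?_ ?_
  · exact (continuous_vec ((hcos.mul (hv 0)).sub ((hsin.mul hrr).mul (hv 2))) (hv 1)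
      (((hsin.mul (hv 0)).div hrr fun a => hr0 _).add (hcos.mul (hv 2))) (hv 3)).prodMk hu
  · intro a
    refine hr a.2 _ ?_ rfl
    show ff (vec _ _ _ _) = exp ((val a.2).2)
    rw [← hf, ff_vec, ff, ← hr2]
    have h0 := hr0 a.2
    have hcs := Complex.sin_sq_add_cos_sq (Real.pi * ((a.1 : ℝ) : ℂ))
    set c := cos (Real.pi * ((a.1 : ℝ) : ℂ))
    set s := sin (Real.pi * ((a.1 : ℝ) : ℂ))
    have key : (c * (val a.2).1 0 - s * r a.2 * (val a.2).1 2) ^ 2 +
        r a.2 ^ 2 * (s * (val a.2).1 0 / r a.2 + c * (val a.2).1 2) ^ 2 =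
        (val a.2).1 0 ^ 2 + r a.2 ^ 2 * (val a.2).1 2 ^ 2 := by
      field_simp
      linear_combination ((val a.2).1 0 ^ 2 + r a.2 ^ 2 * (val a.2).1 2 ^ 2) * hcs
    rw [key]
  · intro z
    have e0 : (((0 : unitInterval) : ℝ) : ℂ) = 0 := by simp
    show (vec _ _ _ _, _) = val z
    refine Prod.ext ?_ rfl
    show vec _ _ _ _ = (val z).1
    rw [e0, mul_zero, Complex.cos_zero, Complex.sin_zero]
    conv_rhs => rw [← vec_eta (val z).1]
    congr 1 <;> ring
  · intro z
    have e1 : (((1 : unitInterval) : ℝ) : ℂ) = 1 := by simp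
    rw [hS]
    refine Prod.ext ?_ rfl
    show vec _ _ _ _ = Sv _
    rw [e1, mul_one, Complex.cos_pi, Complex.sin_pi, Sv]
    congr 1 <;> ring

/-! ### Rotation on the region `|g'| < |f|` -/

/-- `g' = f - y x²` -/
def gp (v : Fin 4 → ℂ) : ℂ := v 1 * (v 3 * v 2 ^ 2 + v 1 * v 3 ^ 2 + v 1 ^ 3 * v 3)

theorem continuous_gp : Continuous gp := by
  unfold gp
  fun_prop

theorem ff_eq_gp (v : Fin 4 → ℂ) : ff v = v 1 * v 0 ^ 2 + gp v := by
  rw [ff, gp]; ring

theorem re_pos_of_norm_lt {κ : ℂ} (h : ‖κ‖ < 1) : 0 < (1 - κ).re := by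
  have := Complex.re_le_norm κ
  simp only [Complex.sub_re, Complex.one_re]
  linarith

theorem homotopic_L {Z : Type} [TopologicalSpace Z] {val : Z → (Fin 4 → ℂ) × ℂ}
    (hval : IsEmbedding val) (hf : ∀ z, ff (val z).1 = exp (val z).2)
    (hV : ∀ z, ‖gp (val z).1‖ < ‖exp (val z).2‖)
    (hr : ∀ z a, ff a.1 = exp a.2 → ‖gp a.1‖ = ‖gp (val z).1‖ → ‖a.1 3‖ = ‖(val z).1 3‖ →
      a.2 = (val z).2 → a ∈ Set.range val)
    (SZ : C(Z, Z)) (hS : ∀ z, val (SZ z) = (Sv (val z).1, (val z).2)) :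
    ContinuousMap.Homotopic (ContinuousMap.id Z) SZ := by
  have hc : Continuous fun a : unitInterval × Z => ((a.1 : ℝ) : ℂ) :=
    continuous_ofReal.comp (continuous_subtype_val.comp continuous_fst)
  have hv : ∀ i : Fin 4, Continuous fun a : unitInterval × Z => (val a.2).1 i := fun i =>
    (continuous_apply i).comp (continuous_fst.comp (hval.continuous.comp continuous_snd))
  have hu : Continuous fun a : unitInterval × Z => (val a.2).2 :=
    continuous_snd.comp (hval.continuous.comp continuous_snd)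
  have hexp : Continuous fun a : unitInterval × Z => exp (val a.2).2 :=
    Complex.continuous_exp.comp hu
  have hg : Continuous fun a : unitInterval × Z => gp (val a.2).1 :=
    continuous_gp.comp (continuous_fst.comp (hval.continuous.comp continuous_snd))
  -- `κ`
  let κ : Z → ℂ := fun z => gp (val z).1 / exp (val z).2
  have hκc : Continuous fun a : unitInterval × Z => κ a.2 :=
    hg.div hexp fun a => Complex.exp_ne_zero _
  have hκ : ∀ z, ‖κ z‖ < 1 := by
    intro z
    show ‖gp (val z).1 / exp (val z).2‖ < 1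
    rw [norm_div, div_lt_one (norm_pos_iff.2 (Complex.exp_ne_zero _))]
    exact hV z
  let E : ℤ → unitInterval × Z → ℂ := fun n a =>
    exp (n * (Real.pi * ((a.1 : ℝ) : ℂ) * I))
  have hE : ∀ n, Continuous (E n) := fun n => Complex.continuous_exp.comp
    (continuous_const.mul ((continuous_const.mul hc).mul continuous_const))
  have hEn : ∀ n a, ‖E n a‖ = 1 := by
    intro n a
    show ‖exp _‖ = 1
    have : ((n : ℂ) * (Real.pi * ((a.1 : ℝ) : ℂ) * I)) =
        (((n : ℝ) * (Real.pi * (a.1 : ℝ)) : ℝ) : ℂ) * I := by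
      push_cast; ring
    rw [this, Complex.norm_exp_ofReal_mul_I]
  have hEm : ∀ n m a, E n a * E m a = E (n + m) a := by
    intro n m a
    show exp _ * exp _ = exp _
    rw [← Complex.exp_add]
    congr 1
    push_cast
    ring
  have hE0 : ∀ a, E 0 a = 1 := by
    intro a
    show exp _ = 1
    simp
  -- the square roots
  have hsl : ∀ a : unitInterval × Z, 1 - E (-12) a * κ a.2 ∈ slitPlane := by
    intro a
    left
    apply re_pos_of_norm_lt
    rw [norm_mul, hEn, one_mul]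
    exact hκ _
  have hsl' : ∀ z, 1 - κ z ∈ slitPlane := fun z => Or.inl (re_pos_of_norm_lt (hκ z))
  let c : unitInterval × Z → ℂ := fun a =>
    (1 - E (-12) a * κ a.2) ^ ((1 : ℂ) / 2) / (1 - κ a.2) ^ ((1 : ℂ) / 2)
  have hne : ∀ a : unitInterval × Z, (1 - κ a.2) ^ ((1 : ℂ) / 2) ≠ 0 := by
    intro a
    rw [Ne, Complex.cpow_eq_zero_iff]
    rintro ⟨h, -⟩
    exact slitPlane_ne_zero (hsl' a.2) h
  have hcc : Continuous c := by
    refine Continuous.div ?_ ?_ hne
    · exact (continuous_const.sub ((hE _).mul hκc)).cpow continuous_const hsl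
    · exact (continuous_const.sub hκc).cpow continuous_const fun a => hsl' a.2
  have hc2 : ∀ a, c a ^ 2 * (1 - κ a.2) = 1 - E (-12) a * κ a.2 := by
    intro a
    have h1 : ((1 - E (-12) a * κ a.2) ^ ((1 : ℂ) / 2)) ^ 2 = 1 - E (-12) a * κ a.2 := by
      rw [← Complex.cpow_nat_mul]
      norm_num
    have h2 : ((1 - κ a.2) ^ ((1 : ℂ) / 2)) ^ 2 = 1 - κ a.2 := by
      rw [← Complex.cpow_nat_mul]
      norm_num
    show ((1 - E (-12) a * κ a.2) ^ ((1 : ℂ) / 2) / (1 - κ a.2) ^ ((1 : ℂ) / 2)) ^ 2 *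
      (1 - κ a.2) = _
    rw [div_pow, h1, h2, div_mul_cancel₀]
    exact slitPlane_ne_zero (hsl' a.2)
  refine homotopic_of_embedding hval _ _
    (fun a => (vec (E 1 a * c a * (val a.2).1 0) (E (-2) a * (val a.2).1 1)
      (E (-3) a * (val a.2).1 2) (E (-4) a * (val a.2).1 3), (val a.2).2)) ?_ ?_ ?_ ?_
  · exact (continuous_vec (((hE _).mul hcc).mul (hv 0)) ((hE _).mul (hv 1)) ((hE _).mul (hv 2))
      ((hE _).mul (hv 3))).prodMk hu
  · intro a
    -- powers of `E`
    have p2 : E (-2) a = (E (-1) a) ^ 2 := by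
      rw [pow_two, hEm]; rfl
    have p3 : E (-3) a = (E (-1) a) ^ 3 := by
      rw [pow_succ, ← p2, hEm]; rfl
    have p4 : E (-4) a = (E (-1) a) ^ 4 := by
      rw [pow_succ, ← p3, hEm]; rfl
    have p12 : E (-12) a = (E (-1) a) ^ 12 := by
      rw [show (12 : ℕ) = 4 * 3 by norm_num, pow_mul, ← p4, pow_succ, pow_two, hEm, hEm]; rfl
    have p1 : E 1 a * E (-1) a = 1 := by
      rw [hEm]; exact hE0 a
    have hgp : gp (vec (E 1 a * c a * (val a.2).1 0) (E (-2) a * (val a.2).1 1)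
      (E (-3) a * (val a.2).1 2) (E (-4) a * (val a.2).1 3)) = E (-12) a * gp (val a.2).1 := by
      rw [gp, gp]
      simp only [vec_one, vec_two, vec_three]
      rw [p2, p3, p4, p12]
      ring
    refine hr a.2 _ ?_ ?_ ?_ rfl
    · show ff (vec _ _ _ _) = exp ((val a.2).2)
      rw [ff_eq_gp, hgp, vec_zero, vec_one]
      have h1 := hf a.2
      rw [ff_eq_gp] at h1
      have hx : exp (val a.2).2 ≠ 0 := Complex.exp_ne_zero _
      have h2 : gp (val a.2).1 = κ a.2 * exp (val a.2).2 := by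
        show _ = gp (val a.2).1 / exp (val a.2).2 * _
        rw [div_mul_cancel₀ _ hx]
      rw [h2] at h1 ⊢
      have h3 := hc2 a
      have h4 : E (-2) a * (val a.2).1 1 * (E 1 a * c a * (val a.2).1 0) ^ 2 =
          (E 1 a * E (-1) a) ^ 2 * (c a ^ 2 * ((val a.2).1 1 * (val a.2).1 0 ^ 2)) := by
        rw [p2]; ring
      rw [h4, p1, one_pow, one_mul]
      linear_combination (c a ^ 2) * h1 + exp (val a.2).2 * h3
    · show ‖gp (vec _ _ _ _)‖ = _
      rw [hgp, norm_mul, hEn, one_mul]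
    · show ‖E (-4) a * (val a.2).1 3‖ = _
      rw [norm_mul, hEn, one_mul]
  · intro z
    have e0 : (((0 : unitInterval) : ℝ) : ℂ) = 0 := by simp
    have hEz : ∀ n, E n (0, z) = 1 := by
      intro n
      show exp _ = 1
      rw [e0]
      simp
    have hcz : c (0, z) = 1 := by
      show (1 - E (-12) (0, z) * κ z) ^ ((1 : ℂ) / 2) / (1 - κ z) ^ ((1 : ℂ) / 2) = 1
      rw [hEz, one_mul]
      exact div_self (hne (0, z))
    refine Prod.ext ?_ rfl
    show vec _ _ _ _ = (val z).1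
    rw [hEz, hEz, hEz, hEz, hcz]
    conv_rhs => rw [← vec_eta (val z).1]
    congr 1 <;> ring
  · intro z
    have e1 : (((1 : unitInterval) : ℝ) : ℂ) = 1 := by simp
    have hEe : ∀ n : ℤ, E (2 * n) (1, z) = 1 := by
      intro n
      show exp _ = 1
      rw [e1, show ((2 * n : ℤ) : ℂ) * (Real.pi * 1 * I) = n * (2 * Real.pi * I) by
        push_cast; ring]
      exact Complex.exp_int_mul_two_pi_mul_I n
    have hEo : ∀ n : ℤ, E (2 * n + 1) (1, z) = -1 := by
      intro n
      show exp _ = -1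
      rw [e1, show ((2 * n + 1 : ℤ) : ℂ) * (Real.pi * 1 * I) =
        n * (2 * Real.pi * I) + Real.pi * I by push_cast; ring, Complex.exp_add,
        Complex.exp_int_mul_two_pi_mul_I, Complex.exp_pi_mul_I, one_mul]
    have a12 : E (-12) (1, z) = 1 := by have := hEe (-6); norm_num at this; exact this
    have a2 : E (-2) (1, z) = 1 := by have := hEe (-1); norm_num at this; exact this
    have a4 : E (-4) (1, z) = 1 := by have := hEe (-2); norm_num at this; exact this
    have a1 : E 1 (1, z) = -1 := hEo 0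
    have a3 : E (-3) (1, z) = -1 := by have := hEo (-2); norm_num at this; exact this
    have hcz : c (1, z) = 1 := by
      show (1 - E (-12) (1, z) * κ z) ^ ((1 : ℂ) / 2) / (1 - κ z) ^ ((1 : ℂ) / 2) = 1
      rw [a12, one_mul]
      exact div_self (hne (1, z))
    rw [hS]
    refine Prod.ext ?_ rfl
    show vec _ _ _ _ = Sv (val z).1
    rw [a1, a2, a3, a4, hcz, Sv]
    congr 1 <;> ring

/-! ### Unipotence of `S` on the global tube -/

/-- restriction of a self-map to a stable subset -/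
def resMap {X : Type} [TopologicalSpace X] (S : C(X, X)) (A : Set X) (h : ∀ z ∈ A, S z ∈ A) :
    C(A, A) where
  toFun z := ⟨S z, h z z.2⟩
  continuous_toFun := (S.continuous.comp continuous_subtype_val).subtype_mk _

theorem Hmap_sub_one_eq_zero {Z : Type} [TopologicalSpace Z] {S : C(Z, Z)}
    (h : ContinuousMap.Homotopic (ContinuousMap.id Z) S) (q : ℕ) :
    (Hmap ℂ q S - 1 : Module.End ℂ (Hq ℂ q Z)) = 0 := by
  rw [← Hmap_eq_of_homotopic ℂ q h, Hmap_id]
  exact sub_self _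

theorem Hmap_sub_one_pow {Z : Type} [TopologicalSpace Z] {S : C(Z, Z)}
    (h : ContinuousMap.Homotopic (ContinuousMap.id Z) S) (a : ℕ) (ha : a ≠ 0) (q : ℕ) :
    (Hmap ℂ q S - 1 : Module.End ℂ (Hq ℂ q Z)) ^ a = 0 := by
  rw [Hmap_sub_one_eq_zero h, zero_pow ha]

/-- `w ≠ 0` -/
def Uset : Set GT := {z | z.1.1 3 ≠ 0}
/-- `|g'| < |f|` -/
def Vset : Set GT := {z | ‖gp z.1.1‖ < ‖exp z.1.2‖}

theorem continuous_GT_fst : Continuous fun z : GT => z.1.1 :=
  continuous_fst.comp continuous_subtype_val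

theorem continuous_GT_snd : Continuous fun z : GT => z.1.2 :=
  continuous_snd.comp continuous_subtype_val

theorem isOpen_Uset : IsOpen Uset :=
  isOpen_ne_fun ((continuous_apply 3).comp continuous_GT_fst) continuous_const

theorem isOpen_Vset : IsOpen Vset :=
  isOpen_lt ((continuous_gp.comp continuous_GT_fst).norm)
    ((Complex.continuous_exp.comp continuous_GT_snd).norm)

theorem Uset_union_Vset : Uset ∪ Vset = Set.univ := by
  ext z
  simp only [Set.mem_union, Set.mem_univ, iff_true]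
  by_cases h : z.1.1 3 = 0
  · right
    show ‖gp z.1.1‖ < ‖exp z.1.2‖
    rw [gp, h]
    simp
  · exact Or.inl h

theorem SGT_mem_U (z : GT) (h : z ∈ Uset) : SGT z ∈ Uset := h

theorem gp_Sv (v : Fin 4 → ℂ) : gp (Sv v) = gp v := by
  rw [gp, gp, Sv]
  simp only [vec_one, vec_two, vec_three]
  ring

theorem SGT_mem_V (z : GT) (h : z ∈ Vset) : SGT z ∈ Vset := by
  show ‖gp (Sv z.1.1)‖ < ‖exp z.1.2‖
  rw [gp_Sv]
  exact h

theorem SGT_mem_UV (z : GT) (h : z ∈ Uset ∩ Vset) : SGT z ∈ Uset ∩ Vset :=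
  ⟨SGT_mem_U z h.1, SGT_mem_V z h.2⟩

theorem homotopic_V : ContinuousMap.Homotopic (ContinuousMap.id _)
    (resMap SGT Vset SGT_mem_V) := by
  refine homotopic_L (val := fun z : Vset => z.1.1)
    ((isEmbedding_val _).comp IsEmbedding.subtypeVal) (fun z => z.1.2.2) (fun z => z.2) ?_ _
    (fun z => rfl)
  intro z a ha hg _ hu
  refine ⟨⟨mkGT a ha, ?_⟩, rfl⟩
  show ‖gp a.1‖ < ‖exp a.2‖
  rw [hg, hu]
  exact z.2

theorem homotopic_UV : ContinuousMap.Homotopic (ContinuousMap.id _)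
    (resMap SGT (Uset ∩ Vset) SGT_mem_UV) := by
  refine homotopic_L (val := fun z : ↥(Uset ∩ Vset) => z.1.1)
    ((isEmbedding_val _).comp IsEmbedding.subtypeVal) (fun z => z.1.2.2) (fun z => z.2.2) ?_ _
    (fun z => rfl)
  intro z a ha hg hw hu
  refine ⟨⟨mkGT a ha, ?_, ?_⟩, rfl⟩
  · show a.1 3 ≠ 0
    rw [← norm_ne_zero_iff, hw, norm_ne_zero_iff]
    exact z.2.1
  · show ‖gp a.1‖ < ‖exp a.2‖
    rw [hg, hu]
    exact z.2.2

/-- `w` is not a negative real number -/
def U1 : Set Uset := {z | z.1.1.1 3 ∈ slitPlane}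
/-- `w` is not a positive real number -/
def U2 : Set Uset := {z | -z.1.1.1 3 ∈ slitPlane}

theorem continuous_w : Continuous fun z : Uset => z.1.1.1 3 :=
  (continuous_apply 3).comp (continuous_GT_fst.comp continuous_subtype_val)

theorem isOpen_U1 : IsOpen U1 := Complex.isOpen_slitPlane.preimage continuous_w
theorem isOpen_U2 : IsOpen U2 := Complex.isOpen_slitPlane.preimage continuous_w.neg

theorem U1_union_U2 : U1 ∪ U2 = Set.univ := by
  ext z
  simp only [Set.mem_union, Set.mem_univ, iff_true]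
  have h0 : z.1.1.1 3 ≠ 0 := z.2
  show z.1.1.1 3 ∈ slitPlane ∨ -z.1.1.1 3 ∈ slitPlane
  by_contra hc
  push Not at hc
  obtain ⟨h1, h2⟩ := hc
  rw [Complex.mem_slitPlane_iff] at h1 h2
  push Not at h1 h2
  simp only [Complex.neg_re, Complex.neg_im] at h1 h2
  exact h0 (Complex.ext (by simp; linarith [h1.1, h2.1]) (by simp; exact h1.2))

/-- `S` on `U` -/
noncomputable def SU : C(Uset, Uset) := resMap SGT Uset SGT_mem_U

theorem isEmbedding_val3 (A : Set Uset) : IsEmbedding (fun z : A => z.1.1.1) :=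
  ((isEmbedding_val _).comp IsEmbedding.subtypeVal).comp IsEmbedding.subtypeVal

theorem SU_unip (mv : MVUnip) (q : ℕ) : (Hmap ℂ q SU - 1 : Module.End ℂ _) ^ 2 = 0 := by
  have hS1 : ∀ z ∈ U1, SU z ∈ U1 := fun z hz => hz
  have hS2 : ∀ z ∈ U2, SU z ∈ U2 := fun z hz => hz
  have hS12 : ∀ z ∈ U1 ∩ U2, SU z ∈ U1 ∩ U2 := fun z hz => hz
  have H1 : ContinuousMap.Homotopic (ContinuousMap.id _) (resMap SU U1 hS1) := by
    refine homotopic_rot (val := fun z : U1 => z.1.1.1) (isEmbedding_val3 _)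
      (fun z => z.1.1.2.2) ?_ _ (fun z => rfl) (fun z => (z.1.1.1.1 3) ^ ((1 : ℂ) / 2)) ?_ ?_ ?_
    · intro z a ha hw
      refine ⟨⟨⟨mkGT a ha, ?_⟩, ?_⟩, rfl⟩
      · show a.1 3 ≠ 0
        rw [hw]
        exact z.1.2
      · show a.1 3 ∈ slitPlane
        rw [hw]
        exact z.2
    · exact (continuous_w.comp continuous_subtype_val).cpow continuous_const fun z => z.2
    · intro z
      rw [Ne, Complex.cpow_eq_zero_iff]
      rintro ⟨h, -⟩
      exact z.1.2 h
    · intro z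
      rw [← Complex.cpow_nat_mul]
      norm_num
  have H12 : ContinuousMap.Homotopic (ContinuousMap.id _) (resMap SU (U1 ∩ U2) hS12) := by
    refine homotopic_rot (val := fun z : ↥(U1 ∩ U2) => z.1.1.1) (isEmbedding_val3 _)
      (fun z => z.1.1.2.2) ?_ _ (fun z => rfl) (fun z => (z.1.1.1.1 3) ^ ((1 : ℂ) / 2)) ?_ ?_ ?_
    · intro z a ha hw
      refine ⟨⟨⟨mkGT a ha, ?_⟩, ?_, ?_⟩, rfl⟩
      · show a.1 3 ≠ 0
        rw [hw]
        exact z.1.2
      · show a.1 3 ∈ slitPlane
        rw [hw]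
        exact z.2.1
      · show -a.1 3 ∈ slitPlane
        rw [hw]
        exact z.2.2
    · exact (continuous_w.comp continuous_subtype_val).cpow continuous_const fun z => z.2.1
    · intro z
      rw [Ne, Complex.cpow_eq_zero_iff]
      rintro ⟨h, -⟩
      exact z.1.2 h
    · intro z
      rw [← Complex.cpow_nat_mul]
      norm_num
  have H2 : ContinuousMap.Homotopic (ContinuousMap.id _) (resMap SU U2 hS2) := by
    refine homotopic_rot (val := fun z : U2 => z.1.1.1) (isEmbedding_val3 _)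
      (fun z => z.1.1.2.2) ?_ _ (fun z => rfl)
      (fun z => I * (-(z.1.1.1.1 3)) ^ ((1 : ℂ) / 2)) ?_ ?_ ?_
    · intro z a ha hw
      refine ⟨⟨⟨mkGT a ha, ?_⟩, ?_⟩, rfl⟩
      · show a.1 3 ≠ 0
        rw [hw]
        exact z.1.2
      · show -a.1 3 ∈ slitPlane
        rw [hw]
        exact z.2
    · exact continuous_const.mul
        ((continuous_w.comp continuous_subtype_val).neg.cpow continuous_const fun z => z.2)
    · intro z
      rw [Ne, mul_eq_zero, Complex.cpow_eq_zero_iff]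
      rintro (h | ⟨h, -⟩)
      · exact Complex.I_ne_zero h
      · exact z.1.2 (neg_eq_zero.1 h)
    · intro z
      rw [mul_pow, ← Complex.cpow_nat_mul]
      norm_num
  exact mv Uset U1 U2 isOpen_U1 isOpen_U2 U1_union_U2 SU (resMap SU U1 hS1) (resMap SU U2 hS2)
    (resMap SU (U1 ∩ U2) hS12) (fun _ => rfl) (fun _ => rfl) (fun _ => rfl) 1 1
    (Hmap_sub_one_pow H1 1 one_ne_zero) (Hmap_sub_one_pow H2 1 one_ne_zero)
    (Hmap_sub_one_pow H12 1 one_ne_zero) q

theorem SGT_unip (mv : MVUnip) (q : ℕ) : (Hmap ℂ q SGT - 1 : Module.End ℂ _) ^ 3 = 0 :=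
  mv GT Uset Vset isOpen_Uset isOpen_Vset Uset_union_Vset SGT SU (resMap SGT Vset SGT_mem_V)
    (resMap SGT (Uset ∩ Vset) SGT_mem_UV) (fun _ => rfl) (fun _ => rfl) (fun _ => rfl) 2 1
    (SU_unip mv) (Hmap_sub_one_pow homotopic_V 2 two_ne_zero)
    (Hmap_sub_one_pow homotopic_UV 1 one_ne_zero) q

/-! ### Contraction of the global tube into small tubes -/

/-- the `ℝ_{>0}`-action -/
noncomputable def act (s : ℝ) (v : Fin 4 → ℂ) : Fin 4 → ℂ :=
  vec ((s : ℂ) ^ 5 * v 0) ((s : ℂ) ^ 2 * v 1) ((s : ℂ) ^ 3 * v 2) ((s : ℂ) ^ 4 * v 3)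

theorem ff_act (s : ℝ) (v : Fin 4 → ℂ) : ff (act s v) = (s : ℂ) ^ 12 * ff v := by
  rw [act, ff_vec, ff]
  ring

theorem norm_act_le {s : ℝ} (h0 : 0 ≤ s) (h1 : s ≤ 1) (v : Fin 4 → ℂ) :
    ‖act s v‖ ≤ s * ‖v‖ := by
  rw [pi_norm_le_iff_of_nonneg (by positivity)]
  have key : ∀ (n : ℕ) (i : Fin 4), ‖(s : ℂ) ^ (n + 1) * v i‖ ≤ s * ‖v‖ := by
    intro n i
    rw [norm_mul, norm_pow, Complex.norm_real, Real.norm_of_nonneg h0]
    refine mul_le_mul ?_ (norm_le_pi_norm v i) (norm_nonneg _) h0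
    calc s ^ (n + 1) = s ^ n * s := pow_succ _ _
      _ ≤ 1 * s := mul_le_mul_of_nonneg_right (pow_le_one₀ h0 h1) h0
      _ = s := one_mul s
  intro i
  fin_cases i
  · exact key 4 0
  · exact key 1 1
  · exact key 2 2
  · exact key 3 3

theorem exp_act {s : ℝ} (hs : 0 < s) (v : Fin 4 → ℂ) (u : ℂ) (h : ff v = exp u) :
    ff (act s v) = exp (u + 12 * ((Real.log s : ℝ) : ℂ)) := by
  rw [ff_act, Complex.exp_add, h, mul_comm]
  congr 1
  have : exp (12 * ((Real.log s : ℝ) : ℂ)) = exp ((Real.log s : ℝ) : ℂ) ^ 12 := by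
    have := Complex.exp_nat_mul ((Real.log s : ℝ) : ℂ) 12
    push_cast at this
    exact this
  rw [this, ← Complex.ofReal_exp, Real.exp_log hs]

section Retract

variable (ε : ℝ)

/-- the scaling factor -/
noncomputable def sfac (v : Fin 4 → ℂ) : ℝ := ε / (ε + ‖v‖)

theorem sfac_pos {ε : ℝ} (hε : 0 < ε) (v : Fin 4 → ℂ) : 0 < sfac ε v := by
  unfold sfac
  positivity

theorem sfac_le_one {ε : ℝ} (hε : 0 < ε) (v : Fin 4 → ℂ) : sfac ε v ≤ 1 := by
  unfold sfac
  rw [div_le_one (by positivity)]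
  linarith [norm_nonneg v]

theorem sfac_mul_lt {ε : ℝ} (hε : 0 < ε) (v : Fin 4 → ℂ) : sfac ε v * ‖v‖ < ε := by
  unfold sfac
  rw [div_mul_eq_mul_div, div_lt_iff₀ (by positivity)]
  nlinarith [norm_nonneg v]

theorem continuous_sfac {ε : ℝ} (hε : 0 < ε) : Continuous (sfac ε) := by
  unfold sfac
  refine continuous_const.div (continuous_const.add continuous_norm) fun v => ?_
  positivity

theorem continuous_act {Z : Type} [TopologicalSpace Z] {s : Z → ℝ} {v : Z → Fin 4 → ℂ}
    (hs : Continuous s) (hv : Continuous v) : Continuous fun z => act (s z) (v z) := by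
  have hs' : Continuous fun z => ((s z : ℝ) : ℂ) := continuous_ofReal.comp hs
  have hv' : ∀ i, Continuous fun z => v z i := fun i => (continuous_apply i).comp hv
  exact continuous_vec ((hs'.pow 5).mul (hv' 0)) ((hs'.pow 2).mul (hv' 1))
    ((hs'.pow 3).mul (hv' 2)) ((hs'.pow 4).mul (hv' 3))

/-- retraction of the global tube to the tube over the ball of radius `ε` -/
noncomputable def retr {ε : ℝ} (hε : 0 < ε) : C(GT, Tube ff (Metric.ball 0 ε)) where
  toFun z := ⟨(act (sfac ε z.1.1) z.1.1, z.1.2 + 12 * ((Real.log (sfac ε z.1.1) : ℝ) : ℂ)), by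
    rw [mem_ball_zero_iff]
    exact (norm_act_le (sfac_pos hε _).le (sfac_le_one hε _) _).trans_lt (sfac_mul_lt hε _),
    exp_act (sfac_pos hε _) _ _ z.2.2⟩
  continuous_toFun := by
    refine Continuous.subtype_mk ?_ _
    have h1 : Continuous fun z : GT => sfac ε z.1.1 := (continuous_sfac hε).comp continuous_GT_fst
    refine (continuous_act h1 continuous_GT_fst).prodMk (continuous_GT_snd.add
      (continuous_const.mul (continuous_ofReal.comp (h1.log fun z => (sfac_pos hε _).ne'))))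

theorem homotopic_retr {ε : ℝ} (hε : 0 < ε) : ContinuousMap.Homotopic
    (ContinuousMap.id (Tube ff (Metric.ball 0 ε)))
    ((retr hε).comp (Tube.incl ff (Set.subset_univ (Metric.ball 0 ε)))) := by
  have hc : Continuous fun a : unitInterval × Tube ff (Metric.ball 0 ε) => (a.1 : ℝ) :=
    continuous_subtype_val.comp continuous_fst
  have hv : Continuous fun a : unitInterval × Tube ff (Metric.ball 0 ε) => a.2.1.1 :=
    continuous_fst.comp (continuous_subtype_val.comp continuous_snd)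
  have hu : Continuous fun a : unitInterval × Tube ff (Metric.ball 0 ε) => a.2.1.2 :=
    continuous_snd.comp (continuous_subtype_val.comp continuous_snd)
  let s : unitInterval × Tube ff (Metric.ball 0 ε) → ℝ := fun a =>
    1 - (a.1 : ℝ) + (a.1 : ℝ) * sfac ε a.2.1.1
  have hs : Continuous s :=
    (continuous_const.sub hc).add (hc.mul ((continuous_sfac hε).comp hv))
  have hs0 : ∀ a, 0 < s a := by
    intro a
    show 0 < 1 - (a.1 : ℝ) + (a.1 : ℝ) * sfac ε a.2.1.1
    have h1 := sfac_pos hε a.2.1.1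
    have h2 := a.1.2.1
    have h3 := a.1.2.2
    rcases h3.lt_or_eq with h | h
    · nlinarith
    · rw [h]; linarith
  have hs1 : ∀ a, s a ≤ 1 := by
    intro a
    show 1 - (a.1 : ℝ) + (a.1 : ℝ) * sfac ε a.2.1.1 ≤ 1
    have h1 := sfac_le_one hε a.2.1.1
    have h2 := a.1.2.1
    nlinarith
  refine homotopic_of_embedding (isEmbedding_val _) _ _
    (fun a => (act (s a) a.2.1.1, a.2.1.2 + 12 * ((Real.log (s a) : ℝ) : ℂ))) ?_ ?_ ?_ ?_
  · exact (continuous_act hs hv).prodMk (hu.add (continuous_const.mul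
      (continuous_ofReal.comp (hs.log fun a => (hs0 a).ne'))))
  · intro a
    refine ⟨⟨(act (s a) a.2.1.1, a.2.1.2 + 12 * ((Real.log (s a) : ℝ) : ℂ)), ?_, ?_⟩, rfl⟩
    · rw [mem_ball_zero_iff]
      refine (norm_act_le (hs0 a).le (hs1 a) _).trans_lt ?_
      have h1 : ‖a.2.1.1‖ < ε := mem_ball_zero_iff.1 a.2.2.1
      calc s a * ‖a.2.1.1‖ ≤ 1 * ‖a.2.1.1‖ :=
            mul_le_mul_of_nonneg_right (hs1 a) (norm_nonneg _)
        _ < ε := by rw [one_mul]; exact h1
    · exact exp_act (hs0 a) _ _ a.2.2.2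
  · intro z
    have : s (0, z) = 1 := by
      show 1 - ((0 : unitInterval) : ℝ) + ((0 : unitInterval) : ℝ) * _ = 1
      simp
    show (act (s (0, z)) z.1.1, z.1.2 + 12 * ((Real.log (s (0, z)) : ℝ) : ℂ)) = z.1
    rw [this]
    refine Prod.ext ?_ ?_
    · show act 1 z.1.1 = z.1.1
      rw [act]
      conv_rhs => rw [← vec_eta z.1.1]
      congr 1 <;> simp
    · simp
  · intro z
    have : s (1, z) = sfac ε z.1.1 := by
      show 1 - ((1 : unitInterval) : ℝ) + ((1 : unitInterval) : ℝ) * _ = _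
      simp
    show (act (s (1, z)) z.1.1, z.1.2 + 12 * ((Real.log (s (1, z)) : ℝ) : ℂ)) = _
    rw [this]
    rfl

end Retract

theorem m4_aux (mv : MVUnip) : M4Statement := by
  intro W hW
  obtain ⟨ε, hε, hb⟩ := Metric.mem_nhds_iff.1 hW
  refine ⟨Metric.ball 0 ε, Metric.ball_mem_nhds _ hε, hb, fun q => ⟨3, ?_⟩⟩
  set B : Set (Fin 4 → ℂ) := Metric.ball 0 ε with hB
  -- on the tube over the ball
  have hinj : Function.Injective (Hmap ℂ q (Tube.incl ff (Set.subset_univ B))) := by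
    have h1 : Hmap ℂ q (retr hε) ∘ₗ Hmap ℂ q (Tube.incl ff (Set.subset_univ B)) =
        LinearMap.id := by
      rw [← Hmap_comp, ← Hmap_eq_of_homotopic ℂ q (homotopic_retr hε), Hmap_id]
    intro c c' hcc
    have h2 := congrArg (Hmap ℂ q (retr hε)) hcc
    have h3 := fun c => LinearMap.congr_fun h1 c
    simp only [LinearMap.comp_apply, LinearMap.id_apply] at h3
    rwa [h3, h3] at h2
  have hcomm : ∀ {A B' : Set (Fin 4 → ℂ)} (h : A ⊆ B') (c : Hq ℂ q (Tube ff A)),
      ((Hmap ℂ q (deck ff B')) ^ 6 - 1 : Module.End ℂ _) (Hmap ℂ q (Tube.incl ff h) c) =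
      Hmap ℂ q (Tube.incl ff h) (((Hmap ℂ q (deck ff A)) ^ 6 - 1 : Module.End ℂ _) c) := by
    intro A B' h c
    have e : (deckPow B' 6).comp (Tube.incl ff h) = (Tube.incl ff h).comp (deckPow A 6) := rfl
    have e' := congrArg (Hmap ℂ q) e
    rw [Hmap_comp, Hmap_comp, Hmap_deckPow, Hmap_deckPow] at e'
    have e'' := LinearMap.congr_fun e' c
    simp only [LinearMap.comp_apply] at e''
    simp only [LinearMap.sub_apply, Module.End.one_apply, map_sub]
    rw [e'']
  have hcomm3 : ∀ {A B' : Set (Fin 4 → ℂ)} (h : A ⊆ B') (c : Hq ℂ q (Tube ff A)),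
      (((Hmap ℂ q (deck ff B')) ^ 6 - 1) ^ 3 : Module.End ℂ _)
        (Hmap ℂ q (Tube.incl ff h) c) =
      Hmap ℂ q (Tube.incl ff h)
        ((((Hmap ℂ q (deck ff A)) ^ 6 - 1) ^ 3 : Module.End ℂ _) c) := by
    intro A B' h c
    simp only [pow_succ, pow_zero, one_mul, Module.End.mul_apply] at hcomm ⊢
    rw [hcomm, hcomm, hcomm]
  have hkill : ∀ c : Hq ℂ q (Tube ff B),
      ((((Hmap ℂ q (deck ff B)) ^ 6 - 1) ^ 3 : Module.End ℂ _) c) = 0 := by
    intro c
    apply hinj
    rw [← hcomm3, Hmap_T6, SGT_unip mv, map_zero]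
    rfl
  ext c
  show (((Hmap ℂ q (deck ff W)) ^ 6 - 1) ^ 3 : Module.End ℂ _)
    (Hmap ℂ q (Tube.incl ff hb) c) = 0
  rw [hcomm3, hkill, map_zero]

end Origin

theorem m4 (mv : MVUnip) : M4Statement := Origin.m4_aux mv

end HoloConj
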