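import Pool.Agent.Lib.MP_ed311f_ag.M4
import Pool.Agent.Lib.SingHom.KillsIff

/-!
# Proof of `MVUnip`
-/

namespace HoloConj

theorem mvUnip : MVUnip := by
  intro X _ U V hU hV hUV S SU SV SW hSU hSV hSW a b HU HV HW q
  exact Pool.Agent.Lib.SingHom.unip_mv ℂ hU hV hUV S SU SV SW hSU hSV hSW a b HU HV HW q

end HoloConj
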