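import Pool.Agent.Lib.MP_ed311f_ag.Defs
import Pool.Agent.Lib.MP_ed311f_ag.FanData

/-!
# Statements of the pieces
-/

open Topology

namespace HoloConj

/-! ### Monodromy side -/

/-- `T^k` is unipotent on the germ of tubes at `x`. -/
def LocUnip {X : Type} [TopologicalSpace X] (f : X → ℂ) (x : X) (k : ℕ) : Prop :=
  ∀ W ∈ 𝓝 x, ∃ W' ∈ 𝓝 x, ∃ h : W' ⊆ W, ∀ q : ℕ, ∃ m : ℕ,
    ((((Hmap ℂ q (deck f W)) ^ k - 1) ^ m : Module.End ℂ (Hq ℂ q (Tube f W))) ∘ₗ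
      Hmap ℂ q (Tube.incl f h)) = 0

/-- M1 -/
def M1Statement : Prop := ∀ (X : Type) [TopologicalSpace X] (f : X → ℂ) (x : X) (k q : ℕ) (μ : ℂ),
  LocUnip f x k → IsMonodromyEigenvalue f x q μ → μ ^ k = 1

/-- M2: isotopy criterion. -/
def M2Statement : Prop := ∀ (X : Type) [TopologicalSpace X] (f : X → ℂ) (p : X) (k : ℕ)
  (W₀ : Set X) (Γ : ℝ → X → X), W₀ ∈ 𝓝 p →
  ContinuousOn (fun a : ℝ × X => Γ a.1 a.2) (Set.Icc 0 1 ×ˢ W₀) →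
  (∀ θ ∈ Set.Icc (0 : ℝ) 1, Γ θ p = p) →
  (∀ v ∈ W₀, Γ 0 v = v) → (∀ v ∈ W₀, Γ 1 v = v) →
  (∀ θ ∈ Set.Icc (0 : ℝ) 1, ∀ v ∈ W₀,
    f (Γ θ v) = Complex.exp (2 * Real.pi * Complex.I * k * θ) * f v) →
  LocUnip f p k

/-- M3a: `y₀ = 0, x₀ ≠ 0` (`k = 1`). -/
def M3aStatement : Prop := ∀ p : Fin 4 → ℂ, p 1 = 0 → p 0 ≠ 0 → LocUnip ff p 1
/-- M3b: `y₀ = 0, z₀ ≠ 0` (`k = 1`). -/
def M3bStatement : Prop := ∀ p : Fin 4 → ℂ, p 1 = 0 → p 2 ≠ 0 → LocUnip ff p 1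
/-- M3c: `y₀ ≠ 0, x₀ ≠ 0` (`k = 1`). -/
def M3cStatement : Prop := ∀ p : Fin 4 → ℂ, ff p = 0 → p 1 ≠ 0 → p 0 ≠ 0 → LocUnip ff p 1
/-- M3d: `y₀ ≠ 0, z₀² + y₀³ + 2 y₀ w₀ ≠ 0` (`k = 1`). -/
def M3dStatement : Prop := ∀ p : Fin 4 → ℂ, ff p = 0 → p 1 ≠ 0 →
  p 2 ^ 2 + p 1 ^ 3 + 2 * p 1 * p 3 ≠ 0 → LocUnip ff p 1
/-- M3e: `y₀ ≠ 0, x₀ = w₀ = 0, z₀² + y₀³ = 0` (`k = 2`). -/
def M3eStatement : Prop := ∀ p : Fin 4 → ℂ, p 1 ≠ 0 → p 0 = 0 → p 3 = 0 →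
  p 2 ^ 2 + p 1 ^ 3 = 0 → LocUnip ff p 2
/-- M3f: `y₀ = x₀ = z₀ = 0, w₀ ≠ 0` (`k = 2`). -/
def M3fStatement : Prop := ∀ p : Fin 4 → ℂ, p 1 = 0 → p 0 = 0 → p 2 = 0 → p 3 ≠ 0 →
  LocUnip ff p 2
/-- M4: the origin (`k = 6`). -/
def M4Statement : Prop := LocUnip ff 0 6

theorem monodromy_of_pieces (h1 : M1Statement) (ha : M3aStatement) (hb : M3bStatement)
    (hc : M3cStatement) (hd : M3dStatement) (he : M3eStatement) (hf : M3fStatement)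
    (h4 : M4Statement) : MonodromyStatement := by
  intro p hp q μ hμ
  have key : ∃ k, k ∣ 6 ∧ LocUnip ff p k := by
    by_cases hy : p 1 = 0
    · by_cases hx : p 0 = 0
      · by_cases hz : p 2 = 0
        · by_cases hw : p 3 = 0
          · have : p = 0 := by
              funext i
              fin_cases i <;> assumption
            subst this
            exact ⟨6, dvd_rfl, h4⟩
          · exact ⟨2, ⟨3, rfl⟩, hf p hy hx hz hw⟩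
        · exact ⟨1, one_dvd _, hb p hy hz⟩
      · exact ⟨1, one_dvd _, ha p hy hx⟩
    · by_cases hx : p 0 = 0
      · by_cases hδ : p 2 ^ 2 + p 1 ^ 3 + 2 * p 1 * p 3 = 0
        · have hg : p 3 * (p 2 ^ 2 + p 1 * p 3 + p 1 ^ 3) = 0 := by
            have h : p 1 * (p 0 ^ 2 + p 3 * p 2 ^ 2 + p 1 * p 3 ^ 2 + p 1 ^ 3 * p 3) = 0 := hp
            rcases mul_eq_zero.1 h with h | h
            · exact absurd h hy
            · rw [hx] at h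
              linear_combination h
          have hw : p 3 = 0 := by
            rcases mul_eq_zero.1 hg with h | h
            · exact h
            · have : p 1 * p 3 = 0 := by linear_combination hδ - h
              exact (mul_eq_zero.1 this).resolve_left hy
          refine ⟨2, ⟨3, rfl⟩, he p hy hx hw ?_⟩
          rw [hw] at hδ
          linear_combination hδ
        · exact ⟨1, one_dvd _, hd p hp hy hδ⟩
      · exact ⟨1, one_dvd _, hc p hp hy hx⟩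
  obtain ⟨k, ⟨l, hl⟩, hk⟩ := key
  have := h1 _ ff p k q μ hk hμ
  rw [hl, pow_mul, this, one_pow]

/-! ### Strata -/

/-- `E_r°` -/
abbrev S1 : Type := {p : ℂ × ℂ × ℂ // p.2.1 ≠ 0 ∧ p.2.2 ≠ 0 ∧ 1 + p.2.1 + p.1 ^ 2 * p.2.2 ≠ 0}
/-- `E_{r,rz}°` -/
abbrev S2 : Type := {p : ℂ × ℂ // p.1 ≠ 0 ∧ p.2 ≠ 0 ∧ 1 + p.1 ≠ 0}
/-- `E_{r,m}°` -/
abbrev S3 : Type := {p : ℂ × ℂ // p.2 ≠ 0 ∧ 1 + p.2 ≠ 0}
/-- `E_{r,q}°` -/
abbrev S4 : Type := {p : ℂ × ℂ // p.1 ≠ 0 ∧ p.2 ≠ 0 ∧ 1 + p.1 + p.2 ≠ 0}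
/-- `E_{r,m,q}°` -/
abbrev S5 : Type := {p : ℂ // p ≠ 0 ∧ 1 + p ≠ 0}

/-- Euler characteristics of the strata. -/
def EulerStatement : Prop :=
  topEuler S1 = 0 ∧ topEuler S2 = 0 ∧ topEuler S3 = -1 ∧ topEuler S4 = 1 ∧ topEuler S5 = -1 ∧
  (∀ (Z Z' : Type) [TopologicalSpace Z] [TopologicalSpace Z'], (Z ≃ₜ Z') →
    topEuler Z = topEuler Z') ∧
  (∀ (Z : Type) [TopologicalSpace Z], IsEmpty Z → topEuler Z = 0)

/-- The toric resolution. `r, rz, m, q` are the components of the rays `7, 10, 9, 14`. -/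
def ToricStatement : Prop :=
  ∃ (R : EmbeddedResolution fpoly) (r rz m q : R.J), r ≠ rz ∧ r ≠ m ∧ r ≠ q ∧ rz ≠ m ∧ rz ≠ q ∧
    m ≠ q ∧ (R.N r = 4 ∧ R.ν r = 4) ∧ (R.N rz = 4 ∧ R.ν rz = 5) ∧ (R.N m = 4 ∧ R.ν m = 5) ∧
    (R.N q = 8 ∧ R.ν q = 9) ∧ (∀ j, 4 ∣ R.N j → j ≠ r → R.N j ≠ R.ν j) ∧
    Nonempty (R.stratum {r} ≃ₜ S1) ∧ Nonempty (R.stratum {r, rz} ≃ₜ S2) ∧
    Nonempty (R.stratum {r, m} ≃ₜ S3) ∧ Nonempty (R.stratum {r, q} ≃ₜ S4) ∧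
    Nonempty (R.stratum {r, m, q} ≃ₜ S5) ∧
    (∀ I : Finset R.J, r ∈ I → (∀ i ∈ I, 4 ∣ R.N i) → I ≠ {r} → I ≠ {r, rz} → I ≠ {r, m} →
      I ≠ {r, q} → I ≠ {r, m, q} → IsEmpty (R.stratum I))

/-- A1: the residue at `s = -1`. -/
def A1Statement : Prop := EulerStatement → ToricStatement → ResolutionStatement

end HoloConj
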